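import Pool.Agent.Lib.MP_af75b4_an.Plane

set_option autoImplicit false

open MeasureTheory Set ENNReal

namespace Pool.Agent.Lib.MP_af75b4_an

/-- isotropic linear form attached to the great circle `A x - y + B z = 0` -/
noncomputable def Lf (A B z x y : ℝ) : ℂ :=
  ((x + A * y) / √(1 + A ^ 2) : ℝ) +
    ((-(A * B) * x + B * y + (1 + A ^ 2) * z) / (√(1 + A ^ 2) * √(1 + A ^ 2 + B ^ 2)) : ℝ) * Complex.I

lemma normSq_Lf (A B z x y : ℝ) :
    ‖Lf A B z x y‖ ^ 2 = z ^ 2 + x ^ 2 + y ^ 2 - (A * x - y + B * z) ^ 2 / (1 + A ^ 2 + B ^ 2) := by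
  have h1 : (0 : ℝ) < 1 + A ^ 2 := by positivity
  have h2 : (0 : ℝ) < 1 + A ^ 2 + B ^ 2 := by positivity
  have s1 : √(1 + A ^ 2) ^ 2 = 1 + A ^ 2 := Real.sq_sqrt h1.le
  have s2 : √(1 + A ^ 2 + B ^ 2) ^ 2 = 1 + A ^ 2 + B ^ 2 := Real.sq_sqrt h2.le
  rw [← Complex.normSq_eq_norm_sq]
  unfold Lf
  rw [Complex.normSq_add_mul_I, div_pow, div_pow, mul_pow, s1, s2]
  field_simp
  ring

/-- beam in homogeneous coordinates -/
noncomputable def beam (τ : ℝ) (K a : ℕ) (z x y : ℝ) : ℂ :=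
  Lf (cA K a) (cB τ K a) z x y ^ (2 * ll K)

lemma norm_beam (τ : ℝ) (K a : ℕ) (x y : ℝ) :
    ‖beam τ K a 1 x y‖ = (1 + x ^ 2 + y ^ 2) ^ (ll K) * psi τ K a x y := by
  unfold beam psi sq
  rw [norm_pow, pow_mul, normSq_Lf, ← mul_pow]
  congr 1
  have h2 : (0 : ℝ) < 1 + cA K a ^ 2 + cB τ K a ^ 2 := by positivity
  have h3 : (0 : ℝ) < 1 + x ^ 2 + y ^ 2 := by positivity
  field_simp

lemma norm_beam_le (τ : ℝ) (K a : ℕ) (z x y : ℝ) :
    ‖beam τ K a z x y‖ ≤ (z ^ 2 + x ^ 2 + y ^ 2) ^ (ll K) := by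
  unfold beam
  rw [norm_pow, pow_mul, normSq_Lf]
  have h4 : ‖Lf (cA K a) (cB τ K a) z x y‖ ^ 2 = z ^ 2 + x ^ 2 + y ^ 2
      - (cA K a * x - y + cB τ K a * z) ^ 2 / (1 + cA K a ^ 2 + cB τ K a ^ 2) := normSq_Lf _ _ _ _ _
  have h5 : 0 ≤ (cA K a * x - y + cB τ K a * z) ^ 2 / (1 + cA K a ^ 2 + cB τ K a ^ 2) := by
    positivity
  apply pow_le_pow_left₀
  · rw [← h4]
    positivity
  · linarith

/-- normalised beam in the chart -/
noncomputable def ph (τ : ℝ) (K a : ℕ) (z : ℝ × ℝ) : ℂ :=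
  beam τ K a 1 z.1 z.2 * (((1 + z.1 ^ 2 + z.2 ^ 2) ^ (ll K) : ℝ) : ℂ)⁻¹

lemma norm_ph (τ : ℝ) (K a : ℕ) (z : ℝ × ℝ) : ‖ph τ K a z‖ = psi τ K a z.1 z.2 := by
  unfold ph
  have h3 : (0 : ℝ) < (1 + z.1 ^ 2 + z.2 ^ 2) ^ (ll K) := by positivity
  rw [norm_mul, norm_beam, norm_inv, Complex.norm_real, Real.norm_of_nonneg h3.le]
  field_simp

lemma meas_Lf (A B : ℝ) : Measurable fun z : ℝ × ℝ × ℝ => Lf A B z.1 z.2.1 z.2.2 := by
  unfold Lf
  fun_prop

lemma meas_beam (τ : ℝ) (K a : ℕ) : Measurable fun z : ℝ × ℝ × ℝ => beam τ K a z.1 z.2.1 z.2.2 := by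
  unfold beam
  exact (meas_Lf _ _).pow_const _

lemma meas_ph (τ : ℝ) (K a : ℕ) : Measurable (ph τ K a) := by
  unfold ph
  apply Measurable.mul
  · exact (meas_beam τ K a).comp (by fun_prop : Measurable fun z : ℝ × ℝ => ((1 : ℝ), z.1, z.2))
  · fun_prop

/-! ### Choice of signs -/

section signs

variable {X : Type} [MeasurableSpace X] (μ : Measure X)

lemma par (f g : X → ℂ) (hf : Measurable f) (hg : Measurable g) :
    (∫⁻ x, ‖f x + g x‖ₑ ^ 2 ∂μ) + (∫⁻ x, ‖f x - g x‖ₑ ^ 2 ∂μ)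
      = 2 * ((∫⁻ x, ‖f x‖ₑ ^ 2 ∂μ) + ∫⁻ x, ‖g x‖ₑ ^ 2 ∂μ) := by
  rw [← lintegral_add_left (by fun_prop), ← lintegral_add_left (by fun_prop),
    ← lintegral_const_mul _ (by fun_prop)]
  apply lintegral_congr
  intro x
  have h := parallelogram_law_with_norm ℝ (f x) (g x)
  have key : ∀ z : ℂ, ‖z‖ₑ ^ 2 = ENNReal.ofReal (‖z‖ ^ 2) := by
    intro z
    rw [ENNReal.ofReal_pow (norm_nonneg _), ofReal_norm]
  rw [key, key, key, key, ← ENNReal.ofReal_add (by positivity) (by positivity), h,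
    ENNReal.ofReal_mul (by norm_num), ENNReal.ofReal_add (by positivity) (by positivity)]
  simp

lemma signs_le (f : ℕ → X → ℂ) (hf : ∀ a, Measurable (f a)) (N : ℕ) :
    ∃ s : ℕ → ℂ, (∀ a, s a = 1 ∨ s a = -1) ∧
      ∫⁻ x, ‖∑ a ∈ Finset.range N, s a * f a x‖ₑ ^ 2 ∂μ
        ≤ ∑ a ∈ Finset.range N, ∫⁻ x, ‖f a x‖ₑ ^ 2 ∂μ := by
  induction N with
  | zero => exact ⟨fun _ => 1, fun _ => Or.inl rfl, by simp⟩
  | succ N ih =>
    obtain ⟨s, hs, hle⟩ := ih
    have hS : Measurable fun x => ∑ a ∈ Finset.range N, s a * f a x := by fun_prop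
    have hp := par μ _ _ hS (hf N)
    set T := (∫⁻ x, ‖∑ a ∈ Finset.range N, s a * f a x‖ₑ ^ 2 ∂μ) + ∫⁻ x, ‖f N x‖ₑ ^ 2 ∂μ with hT
    have hT2 : T ≤ ∑ a ∈ Finset.range (N + 1), ∫⁻ x, ‖f a x‖ₑ ^ 2 ∂μ := by
      rw [Finset.sum_range_succ, hT]
      gcongr
    have hupd : ∀ c : ℂ, ∀ x, ∑ a ∈ Finset.range (N + 1), Function.update s N c a * f a x
        = (∑ a ∈ Finset.range N, s a * f a x) + c * f N x := by
      intro c x
      rw [Finset.sum_range_succ, Function.update_self]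
      congr 1
      apply Finset.sum_congr rfl
      intro a ha
      rw [Finset.mem_range] at ha
      rw [Function.update_of_ne (by omega)]
    by_cases h : (∫⁻ x, ‖(∑ a ∈ Finset.range N, s a * f a x) + f N x‖ₑ ^ 2 ∂μ) ≤ T
    · refine ⟨Function.update s N 1, ?_, ?_⟩
      · intro a
        by_cases ha : a = N
        · subst ha; simp
        · rw [Function.update_of_ne ha]; exact hs a
      · simp only [hupd, one_mul]
        exact h.trans hT2
    · refine ⟨Function.update s N (-1), ?_, ?_⟩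
      · intro a
        by_cases ha : a = N
        · subst ha; simp
        · rw [Function.update_of_ne ha]; exact hs a
      · simp only [hupd, neg_mul, one_mul, ← sub_eq_add_neg]
        refine le_trans ?_ hT2
        by_contra hcon
        push Not at h hcon
        have h3 := ENNReal.add_lt_add h hcon
        rw [hp, two_mul] at h3
        exact lt_irrefl _ h3

lemma signs_ge (f : ℕ → X → ℂ) (hf : ∀ a, Measurable (f a)) (N : ℕ) :
    ∃ s : ℕ → ℂ, (∀ a, s a = 1 ∨ s a = -1) ∧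
      ∑ a ∈ Finset.range N, ∫⁻ x, ‖f a x‖ₑ ^ 2 ∂μ
        ≤ ∫⁻ x, ‖∑ a ∈ Finset.range N, s a * f a x‖ₑ ^ 2 ∂μ := by
  induction N with
  | zero => exact ⟨fun _ => 1, fun _ => Or.inl rfl, by simp⟩
  | succ N ih =>
    obtain ⟨s, hs, hle⟩ := ih
    have hS : Measurable fun x => ∑ a ∈ Finset.range N, s a * f a x := by fun_prop
    have hp := par μ _ _ hS (hf N)
    set T := (∫⁻ x, ‖∑ a ∈ Finset.range N, s a * f a x‖ₑ ^ 2 ∂μ) + ∫⁻ x, ‖f N x‖ₑ ^ 2 ∂μ with hT
    have hT2 : ∑ a ∈ Finset.range (N + 1), ∫⁻ x, ‖f a x‖ₑ ^ 2 ∂μ ≤ T := by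
      rw [Finset.sum_range_succ, hT]
      gcongr
    have hupd : ∀ c : ℂ, ∀ x, ∑ a ∈ Finset.range (N + 1), Function.update s N c a * f a x
        = (∑ a ∈ Finset.range N, s a * f a x) + c * f N x := by
      intro c x
      rw [Finset.sum_range_succ, Function.update_self]
      congr 1
      apply Finset.sum_congr rfl
      intro a ha
      rw [Finset.mem_range] at ha
      rw [Function.update_of_ne (by omega)]
    by_cases h : T ≤ (∫⁻ x, ‖(∑ a ∈ Finset.range N, s a * f a x) + f N x‖ₑ ^ 2 ∂μ)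
    · refine ⟨Function.update s N 1, ?_, ?_⟩
      · intro a
        by_cases ha : a = N
        · subst ha; simp
        · rw [Function.update_of_ne ha]; exact hs a
      · simp only [hupd, one_mul]
        exact hT2.trans h
    · refine ⟨Function.update s N (-1), ?_, ?_⟩
      · intro a
        by_cases ha : a = N
        · subst ha; simp
        · rw [Function.update_of_ne ha]; exact hs a
      · simp only [hupd, neg_mul, one_mul, ← sub_eq_add_neg]
        refine le_trans hT2 ?_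
        by_contra hcon
        push Not at h hcon
        have h3 := ENNReal.add_lt_add h hcon
        rw [hp, two_mul] at h3
        exact lt_irrefl _ h3

end signs

end Pool.Agent.Lib.MP_af75b4_an
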