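import Mathlib

set_option autoImplicit false

open MeasureTheory

namespace Pool.Agent.Lib.MP_af75b4_an

/-- The Euclidean space of dimension `m + 1`. -/
abbrev Eu (m : ℕ) : Type := EuclideanSpace ℝ (Fin (m + 1))

/-- The round unit sphere `S^m` in the Euclidean space of dimension `m + 1`. -/
abbrev Sph (m : ℕ) : Type := Metric.sphere (0 : Eu m) 1

/-- The Riemannian volume of `S^m` (surface measure). -/
noncomputable def vol (m : ℕ) : Measure (Sph m) := (volume : Measure (Eu m)).toSphere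

/-- Geodesic distance on `S^m`. -/
noncomputable def gdist {m : ℕ} (x y : Sph m) : ℝ := Real.arccos (inner ℝ (x : Eu m) (y : Eu m))

/-- The great circle cut out by a linear subspace `V` (used for two-dimensional `V`). -/
def circ {m : ℕ} (V : Submodule ℝ (Eu m)) : Set (Sph m) := {x | (x : Eu m) ∈ V}

/-- The tube of radius `R` around a subset `γ` of the sphere: the points whose geodesic distance
to `γ` (an infimum) is less than `R`. -/
def tube {m : ℕ} (γ : Set (Sph m)) (R : ℝ) : Set (Sph m) := {x | sInf (gdist x '' γ) < R}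

/-- The tubular geometric control condition. -/
def TGCC {m : ℕ} (A : ℝ → Set (Sph m)) : Prop :=
  ∃ c : ℝ, 0 < c ∧ ∃ ρ : ℝ, 0 < ρ ∧
    ∀ V : Submodule ℝ (Eu m), Module.finrank ℝ V = 2 → ∀ lam : ℝ, 1 ≤ lam →
      ENNReal.ofReal ρ * vol m (tube (circ V) (c * lam ^ (-(1 / 2) : ℝ)))
        ≤ vol m (A lam ∩ tube (circ V) (c * lam ^ (-(1 / 2) : ℝ)))

/-- `e` is an eigenfunction of frequency `lam` of the Laplace-Beltrami operator of `S^m`:
its extension `F` to `ℝ^{m+1} ∖ {0}` that is constant along rays is smooth and satisfies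
`Δ F = - lam ^ 2 F` on the unit sphere. -/
def IsEigenfunction {m : ℕ} (lam : ℝ) (e : Sph m → ℂ) : Prop :=
  ∃ F : Eu m → ℂ, (∀ x : Sph m, F x = e x) ∧
    (∀ (r : ℝ) (x : Eu m), 0 < r → x ≠ 0 → F (r • x) = F x) ∧
    ContDiffOn ℝ (⊤ : ℕ∞) F {0}ᶜ ∧
    ∀ x : Sph m, Laplacian.laplacian F (x : Eu m) = -((lam : ℂ) ^ 2) * F x

/-- The family `A` is `L^p`-Logvinenko-Sereda for eigenfunctions. -/
def LS {m : ℕ} (p : ℝ) (A : ℝ → Set (Sph m)) : Prop :=
  ∃ C : ℝ, 0 < C ∧ ∀ lam : ℝ, 1 ≤ lam → ∀ e : Sph m → ℂ, IsEigenfunction lam e →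
    ENNReal.ofReal C * ∫⁻ x, ‖e x‖ₑ ^ p ∂(vol m) ≤ ∫⁻ x in A lam, ‖e x‖ₑ ^ p ∂(vol m)

end Pool.Agent.Lib.MP_af75b4_an
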