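import Pool.Agent.Lib.MP_af75b4_an.Defs

set_option autoImplicit false

open MeasureTheory Set Filter Topology

namespace Pool.Agent.Lib.MP_af75b4_an

/-- second derivative along a line -/
lemma second_line {E : Type} [NormedAddCommGroup E] [NormedSpace ℝ E] (F : E → ℂ) (x v : E)
    (hF : ContDiffAt ℝ 2 F x) :
    iteratedFDeriv ℝ 2 F x ![v, v] = deriv (deriv fun t : ℝ => F (x + t • v)) 0 := by
  have hline : ∀ t : ℝ, HasDerivAt (fun t : ℝ => x + t • v) v t := by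
    intro t
    have := ((hasDerivAt_id t).smul_const v).const_add x
    simpa using this
  have hcont : Tendsto (fun t : ℝ => x + t • v) (𝓝 0) (𝓝 x) := by
    have := (hline 0).continuousAt.tendsto
    simpa using this
  have hev : ∀ᶠ y in 𝓝 x, DifferentiableAt ℝ F y := by
    have h1 : ContDiffAt ℝ 1 F x := hF.of_le (by norm_num)
    have h2 := h1.eventually (by norm_num)
    filter_upwards [h2] with y hy
    exact hy.differentiableAt (by norm_num)
  have h1 : deriv (fun t : ℝ => F (x + t • v)) =ᶠ[𝓝 0] fun t => fderiv ℝ F (x + t • v) v := by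
    filter_upwards [hcont.eventually hev] with t ht
    exact (ht.hasFDerivAt.comp_hasDerivAt t (hline t)).deriv
  rw [h1.deriv_eq, iteratedFDeriv_two_apply]
  have h3 : DifferentiableAt ℝ (fderiv ℝ F) x := by
    have : ContDiffAt ℝ 1 (fderiv ℝ F) x := hF.fderiv_right (by norm_num)
    exact this.differentiableAt (by norm_num)
  have h3' : HasFDerivAt (fderiv ℝ F) (fderiv ℝ (fderiv ℝ F) x) (x + (0 : ℝ) • v) := by
    rw [zero_smul, add_zero]
    exact h3.hasFDerivAt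
  have h4 := h3'.comp_hasDerivAt (0 : ℝ) (hline 0)
  have h5 : HasDerivAt (fun t : ℝ => fderiv ℝ F (x + t • v) v) (fderiv ℝ (fderiv ℝ F) x v v) 0 := by
    have := h4.clm_apply (hasDerivAt_const (0 : ℝ) v)
    simpa using this
  rw [h5.deriv]
  simp

/-- one-variable model -/
lemma model_deriv (w b c : ℂ) (q : ℝ) (l : ℕ) :
    deriv (deriv fun t : ℝ => w * (b + t * c) ^ (2 * l) * ((((1 + 2 * q * t + t ^ 2) ^ l)⁻¹ : ℝ) : ℂ)) 0
      = w * ((2 * l) * (2 * l - 1) * c ^ 2 * b ^ (2 * l - 2) - 8 * l ^ 2 * q * c * b ^ (2 * l - 1)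
        + (4 * l * (l + 1) * q ^ 2 - 2 * l) * b ^ (2 * l)) := by
  rcases Nat.eq_zero_or_pos l with hl | hl
  · subst hl
    simp
  set P : ℝ → ℂ := fun t => 1 + 2 * q * t + t ^ 2 with hP
  have hPd : ∀ t : ℝ, HasDerivAt P (2 * q + 2 * t) t := by
    intro t
    have h1 : HasDerivAt (fun t : ℝ => (t : ℂ)) 1 t := Complex.ofRealCLM.hasDerivAt
    have h2 := ((h1.const_mul (2 * q : ℂ)).const_add 1).add (h1.pow 2)
    refine h2.congr_deriv ?_
    simp
  have hGd : ∀ (n : ℕ) (t : ℝ), HasDerivAt (fun t : ℝ => (b + t * c) ^ n) (n * (b + t * c) ^ (n - 1) * c) t := by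
    intro n t
    have h1 : HasDerivAt (fun t : ℝ => (t : ℂ)) 1 t := Complex.ofRealCLM.hasDerivAt
    have h2 := ((h1.mul_const c).const_add b).pow n
    refine h2.congr_deriv ?_
    simp
  have hQd : ∀ (n : ℕ) (t : ℝ), P t ≠ 0 →
      HasDerivAt (fun t : ℝ => ((P t) ^ n)⁻¹) (-(n * (2 * q + 2 * t) * ((P t) ^ (n + 1))⁻¹)) t := by
    intro n t ht
    have h1 := ((hPd t).pow n).fun_inv (pow_ne_zero n ht)
    refine h1.congr_deriv ?_
    rcases Nat.eq_zero_or_pos n with hn | hn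
    · subst hn
      simp
    · obtain ⟨k, rfl⟩ : ∃ k, n = k + 1 := ⟨n - 1, by omega⟩
      simp only [Nat.add_sub_cancel, Pi.pow_apply]
      field_simp
      ring
  have hrew : (fun t : ℝ => w * (b + t * c) ^ (2 * l) * ((((1 + 2 * q * t + t ^ 2) ^ l)⁻¹ : ℝ) : ℂ))
      = fun t : ℝ => w * (b + t * c) ^ (2 * l) * ((P t) ^ l)⁻¹ := by
    funext t
    rw [hP]
    push_cast
    rfl
  rw [hrew]
  have hne : ∀ᶠ t in 𝓝 (0 : ℝ), P t ≠ 0 := by
    have h1 : ContinuousAt P 0 := (hPd 0).continuousAt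
    apply h1.eventually_ne
    simp [hP]
  have hP0 : P 0 = 1 := by simp [hP]
  have h1 : deriv (fun t : ℝ => w * (b + t * c) ^ (2 * l) * ((P t) ^ l)⁻¹) =ᶠ[𝓝 0]
      fun t : ℝ => w * (((2 * l : ℕ) : ℂ) * (b + t * c) ^ (2 * l - 1) * c) * ((P t) ^ l)⁻¹ +
        w * (b + t * c) ^ (2 * l) * (-(l * (2 * q + 2 * t) * ((P t) ^ (l + 1))⁻¹)) := by
    filter_upwards [hne] with t ht
    exact (((hGd (2 * l) t).const_mul w).mul (hQd l t ht)).deriv
  rw [h1.deriv_eq]
  have hl0 : HasDerivAt (fun t : ℝ => (t : ℂ)) 1 (0 : ℝ) := Complex.ofRealCLM.hasDerivAt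
  have hne0 : P 0 ≠ 0 := by rw [hP0]; exact one_ne_zero
  have hA := ((((hGd (2 * l - 1) 0).const_mul ((2 * l : ℕ) : ℂ)).mul_const c).const_mul w).mul (hQd l 0 hne0)
  have hB := ((hGd (2 * l) 0).const_mul w).mul
    ((((hl0.const_mul (2 : ℂ)).const_add (2 * q : ℂ)).const_mul (l : ℂ)).mul (hQd (l + 1) 0 hne0)).neg
  have hAB := hA.add hB
  have e := hAB.deriv
  refine Eq.trans ?_ (e.trans ?_)
  · rfl
  · simp only [Pi.neg_apply, Pi.mul_apply, hP0, Complex.ofReal_zero]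
    obtain ⟨k, rfl⟩ : ∃ k, l = k + 1 := ⟨l - 1, by omega⟩
    have e1 : 2 * (k + 1) - 1 = 2 * k + 1 := by omega
    have e2 : 2 * (k + 1) - 2 = 2 * k := by omega
    have e3 : 2 * k + 1 - 1 = 2 * k := by omega
    have e4 : 2 * (k + 1) = 2 * k + 2 := by ring
    rw [e1, e2, e3, e4]
    push_cast
    ring

end Pool.Agent.Lib.MP_af75b4_an
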