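import Pool.Agent.Lib.MP_af75b4_an.Polar

set_option autoImplicit false

open MeasureTheory ENNReal Set

namespace Pool.Agent.Lib.MP_af75b4_an

lemma lintegral_fin_succ (n : ℕ) (F : (Fin (n + 1) → ℝ) → ℝ≥0∞) (hF : Measurable F) :
    ∫⁻ x, F x = ∫⁻ a : ℝ, ∫⁻ y : Fin n → ℝ, F (Fin.cons a y) := by
  have h := volume_preserving_piFinSuccAbove (fun _ : Fin (n + 1) => ℝ) 0
  have h2 := h.symm.lintegral_comp_emb (MeasurableEquiv.measurableEmbedding _) F
  rw [← h2]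
  have h3 : ∀ z : ℝ × (Fin n → ℝ),
      (MeasurableEquiv.piFinSuccAbove (fun _ : Fin (n + 1) => ℝ) 0).symm z = Fin.cons z.1 z.2 := by
    intro z
    simp [MeasurableEquiv.piFinSuccAbove, Fin.insertNthEquiv]
  have h4 : ∀ z : ℝ × (Fin n → ℝ),
      F ((MeasurableEquiv.piFinSuccAbove (fun _ : Fin (n + 1) => ℝ) 0).symm z)
        = F (Fin.cons z.1 z.2) := fun z => by rw [h3]
  rw [lintegral_congr h4, Measure.volume_eq_prod, lintegral_prod]
  apply Measurable.aemeasurable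
  have h5 : (fun z : ℝ × (Fin n → ℝ) => F (Fin.cons z.1 z.2)) =
    F ∘ (MeasurableEquiv.piFinSuccAbove (fun _ : Fin (n + 1) => ℝ) 0).symm := by
    funext z
    rw [Function.comp, h3]
  rw [h5]
  exact hF.comp (MeasurableEquiv.measurable _)

/-- Gaussian constant in dimension one -/
noncomputable def gau : ℝ≥0∞ := ∫⁻ a : ℝ, ENNReal.ofReal (Real.exp (-a ^ 2))

lemma gau_ne_top : gau ≠ ∞ := by
  have h1 : Integrable (fun r : ℝ => Real.exp (-1 * r ^ 2)) := integrable_exp_neg_mul_sq one_pos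
  have h2 := h1.lintegral_lt_top
  refine ne_of_lt (lt_of_le_of_lt (le_of_eq ?_) h2)
  rw [gau]
  apply lintegral_congr
  intro a
  congr 2
  ring

lemma gau_ne_zero : gau ≠ 0 := by
  intro h
  rw [gau, lintegral_eq_zero_iff (by fun_prop)] at h
  have h1 : (volume : Measure ℝ) univ = 0 := by
    refine measure_mono_null ?_ (ae_iff.1 h)
    intro r _ hr
    have h4 : ENNReal.ofReal (Real.exp (-r ^ 2)) = 0 := hr
    rw [ENNReal.ofReal_eq_zero] at h4
    have := Real.exp_pos (-r ^ 2)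
    linarith
  simp at h1

/-- Gaussian constant in dimension `d` -/
noncomputable def gaud (d : ℕ) : ℝ≥0∞ :=
  ∫⁻ y : Fin d → ℝ, ENNReal.ofReal (Real.exp (-∑ i, y i ^ 2))

lemma gaud_eq (d : ℕ) : gaud d = gau ^ d := by
  induction d with
  | zero =>
    rw [gaud]
    have h : (volume : Measure (Fin 0 → ℝ)) univ = 1 := by
      rw [volume_pi, Measure.pi_univ]
      simp
    simp [h]
  | succ d ih =>
    rw [gaud, lintegral_fin_succ _ _ (by fun_prop), pow_succ, ← ih, gaud, gau, mul_comm,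
      ← lintegral_mul_const _ (by fun_prop)]
    apply lintegral_congr
    intro a
    rw [← lintegral_const_mul _ (by fun_prop)]
    apply lintegral_congr
    intro y
    rw [← ENNReal.ofReal_mul (Real.exp_pos _).le, ← Real.exp_add, Fin.sum_univ_succ]
    simp only [Fin.cons_zero, Fin.cons_succ]
    congr 2
    ring

lemma gaud_ne_top (d : ℕ) : gaud d ≠ ∞ := by
  rw [gaud_eq]
  exact ENNReal.pow_ne_top gau_ne_top

lemma gaud_ne_zero (d : ℕ) : gaud d ≠ 0 := by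
  rw [gaud_eq]
  exact pow_ne_zero _ gau_ne_zero

lemma meas_cons (n : ℕ) (a : ℝ) : Measurable fun y : Fin n → ℝ => (Fin.cons a y : Fin (n + 1) → ℝ) := by
  rw [measurable_pi_iff]
  intro i
  refine Fin.cases ?_ (fun j => ?_) i
  · simp only [Fin.cons_zero]
    fun_prop
  · simp only [Fin.cons_succ]
    fun_prop

lemma split3 (d : ℕ) (g : ℝ → ℝ → ℝ → ℝ≥0∞)
    (hg : Measurable fun z : ℝ × ℝ × ℝ => g z.1 z.2.1 z.2.2) :
    ∫⁻ x : Eu (d + 2), g (x 0) (x 1) (x 2) * ENNReal.ofReal (Real.exp (-‖x‖ ^ 2))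
      = gaud d * ∫⁻ a : ℝ, ∫⁻ b : ℝ, ∫⁻ c : ℝ,
          g a b c * ENNReal.ofReal (Real.exp (-(a ^ 2 + b ^ 2 + c ^ 2))) := by
  have h1 := (PiLp.volume_preserving_toLp (Fin (d + 2 + 1))).lintegral_comp_emb
    (MeasurableEquiv.toLp 2 (Fin (d + 2 + 1) → ℝ)).measurableEmbedding
    (fun x : Eu (d + 2) => g (x 0) (x 1) (x 2) * ENNReal.ofReal (Real.exp (-‖x‖ ^ 2)))
  rw [← h1]
  set F : (Fin (d + 2 + 1) → ℝ) → ℝ≥0∞ := fun x =>
      g (x 0) (x 1) (x 2) * ENNReal.ofReal (Real.exp (-∑ i, x i ^ 2)) with hF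
  have hmeas : Measurable F := by
    apply Measurable.mul
    · exact hg.comp (by fun_prop : Measurable fun x : Fin (d + 2 + 1) → ℝ => (x 0, x 1, x 2))
    · fun_prop
  have h2 : ∀ x : Fin (d + 2 + 1) → ℝ,
      g ((WithLp.toLp 2 x : Eu (d + 2)) 0) ((WithLp.toLp 2 x : Eu (d + 2)) 1)
        ((WithLp.toLp 2 x : Eu (d + 2)) 2)
        * ENNReal.ofReal (Real.exp (-‖(WithLp.toLp 2 x : Eu (d + 2))‖ ^ 2))
      = F x := by
    intro x
    rw [EuclideanSpace.norm_sq_eq, hF]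
    simp
  rw [lintegral_congr h2, lintegral_fin_succ _ _ hmeas]
  have h3 : ∀ a : ℝ, ∫⁻ y : Fin (d + 2) → ℝ, F (Fin.cons a y)
      = gaud d * ∫⁻ b : ℝ, ∫⁻ c : ℝ,
          g a b c * ENNReal.ofReal (Real.exp (-(a ^ 2 + b ^ 2 + c ^ 2))) := by
    intro a
    have hma := hmeas.comp (meas_cons (d + 2) a)
    rw [lintegral_fin_succ (d + 1) (fun y => F (Fin.cons a y)) hma,
      ← lintegral_const_mul' _ _ (gaud_ne_top d)]
    apply lintegral_congr
    intro b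
    have hmb := hma.comp (meas_cons (d + 1) b)
    rw [lintegral_fin_succ d (fun y => F (Fin.cons a (Fin.cons b y))) hmb,
      ← lintegral_const_mul' _ _ (gaud_ne_top d)]
    apply lintegral_congr
    intro c
    rw [gaud, mul_comm, ← lintegral_const_mul _ (by fun_prop)]
    apply lintegral_congr
    intro y
    have e0 : (Fin.cons a (Fin.cons b (Fin.cons c y)) : Fin (d + 2 + 1) → ℝ) 0 = a := rfl
    have e1 : (Fin.cons a (Fin.cons b (Fin.cons c y)) : Fin (d + 2 + 1) → ℝ) 1 = b := rfl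
    have e2 : (Fin.cons a (Fin.cons b (Fin.cons c y)) : Fin (d + 2 + 1) → ℝ) 2 = c := rfl
    rw [hF]
    simp only [e0, e1, e2]
    rw [mul_assoc, ← ENNReal.ofReal_mul (Real.exp_pos _).le, ← Real.exp_add]
    congr 3
    rw [Fin.sum_univ_succ, Fin.sum_univ_succ, Fin.sum_univ_succ]
    simp only [Fin.cons_zero, Fin.cons_succ]
    ring
  rw [lintegral_congr h3, lintegral_const_mul' _ _ (gaud_ne_top d)]

/-! ### Scaling -/

lemma scale1 (f : ℝ → ℝ≥0∞) (hf : Measurable f) (a : ℝ) (ha : a ≠ 0) :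
    ∫⁻ x, f x = ENNReal.ofReal |a| * ∫⁻ x, f (a * x) := by
  have h := Real.map_volume_mul_left ha
  have h2 : ∫⁻ x, f (a * x) = ∫⁻ x, f x ∂(Measure.map (a * ·) volume) := by
    rw [lintegral_map hf (by fun_prop)]
  rw [h2, h, lintegral_smul_measure, smul_eq_mul, ← mul_assoc, ← ENNReal.ofReal_mul (abs_nonneg _),
    ← abs_mul, mul_inv_cancel₀ ha]
  simp

lemma scale2 (f : ℝ → ℝ → ℝ≥0∞) (hf : Measurable fun z : ℝ × ℝ => f z.1 z.2) (a : ℝ)
    (ha : a ≠ 0) :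
    ∫⁻ x, ∫⁻ y, f x y = ENNReal.ofReal (|a| ^ 2) * ∫⁻ x, ∫⁻ y, f (a * x) (a * y) := by
  have h0 : Measurable fun x => ∫⁻ y, f x y := hf.lintegral_prod_right'
  rw [scale1 _ h0 a ha, ENNReal.ofReal_pow (abs_nonneg _), pow_two, mul_assoc]
  congr 1
  rw [← lintegral_const_mul' _ _ (by simp)]
  apply lintegral_congr
  intro x
  rw [← scale1 _ (hf.of_uncurry_left : Measurable (f (a * x))) a ha]

/-- second radial constant -/
noncomputable def gg3 (s : ℝ) : ℝ≥0∞ :=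
  ∫⁻ a : ℝ, ENNReal.ofReal (|a| ^ (s + 2) * Real.exp (-a ^ 2))

lemma gg3_scaled (s : ℝ) (q : ℝ) (hq : 0 < q) :
    ∫⁻ a : ℝ, ENNReal.ofReal (|a| ^ (s + 2) * Real.exp (-(a ^ 2 * q ^ 2)))
      = ENNReal.ofReal (q ^ (-(s + 3))) * gg3 s := by
  have h0 := scale1 (fun a : ℝ => ENNReal.ofReal (|a| ^ (s + 2) * Real.exp (-a ^ 2)))
    (by fun_prop) q hq.ne'
  rw [gg3, h0, abs_of_pos hq, ← mul_assoc, ← ENNReal.ofReal_mul (by positivity),
    ← lintegral_const_mul' _ _ (by simp)]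
  apply lintegral_congr
  intro a
  rw [← ENNReal.ofReal_mul (by positivity)]
  congr 1
  rw [abs_mul, abs_of_pos hq, Real.mul_rpow hq.le (abs_nonneg a), mul_pow, mul_comm (q ^ 2)]
  have h1 : q ^ (-(s + 3)) * q * q ^ (s + 2) = 1 := by
    rw [← Real.rpow_add_one hq.ne', ← Real.rpow_add hq]
    ring_nf
    simp
  calc |a| ^ (s + 2) * Real.exp (-(a ^ 2 * q ^ 2))
      = (q ^ (-(s + 3)) * q * q ^ (s + 2)) * (|a| ^ (s + 2) * Real.exp (-(a ^ 2 * q ^ 2))) := by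
        rw [h1, one_mul]
    _ = _ := by ring

lemma gg3_ne_zero (s : ℝ) : gg3 s ≠ 0 := by
  intro h
  rw [gg3, lintegral_eq_zero_iff (by fun_prop)] at h
  have h1 : (volume : Measure ℝ) (Ioi 0) = 0 := by
    refine measure_mono_null ?_ (ae_iff.1 h)
    intro r hr0 hr
    have hr1 : (0 : ℝ) < r := hr0
    have h4 : ENNReal.ofReal (|r| ^ (s + 2) * Real.exp (-r ^ 2)) = 0 := hr
    rw [ENNReal.ofReal_eq_zero, abs_of_pos hr1] at h4
    have : 0 < r ^ (s + 2) * Real.exp (-r ^ 2) := by positivity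
    linarith
  simp at h1

lemma gg3_ne_top (s : ℝ) (hs : 0 ≤ s) : gg3 s ≠ ∞ := by
  have h1 : IntegrableOn (fun r : ℝ => r ^ (s + 2) * Real.exp (-1 * r ^ 2)) (Ioi 0) :=
    integrableOn_rpow_mul_exp_neg_mul_sq one_pos (by linarith)
  have h2 := h1.lintegral_lt_top
  set f : ℝ → ℝ≥0∞ := fun a => ENNReal.ofReal (|a| ^ (s + 2) * Real.exp (-a ^ 2)) with hf
  have h3 : ∫⁻ a in Ioi (0 : ℝ), f a < ∞ := by
    refine lt_of_le_of_lt (le_of_eq ?_) h2
    apply setLIntegral_congr_fun measurableSet_Ioi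
    intro r hr
    have hr0 : (0 : ℝ) < r := hr
    simp only [hf]
    rw [abs_of_pos hr0]
    congr 2
    ring_nf
  have h4 : ∫⁻ a in Iio (0 : ℝ), f a = ∫⁻ a in Ioi (0 : ℝ), f a := by
    have h5 := (Measure.measurePreserving_neg (volume : Measure ℝ)).setLIntegral_comp_preimage
      (measurableSet_Iio (a := (0 : ℝ))) (f := f) (by fun_prop)
    rw [← h5]
    have h6 : (Neg.neg : ℝ → ℝ) ⁻¹' Iio 0 = Ioi 0 := by
      ext x; simp
    rw [h6]
    apply setLIntegral_congr_fun measurableSet_Ioi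
    intro r _
    simp only [hf, abs_neg, neg_sq]
  have h7 : gg3 s = (∫⁻ a in Iio (0 : ℝ), f a) + ∫⁻ a in Ioi (0 : ℝ), f a := by
    have h8 := lintegral_add_compl f (measurableSet_Iio (a := (0 : ℝ))) (μ := volume)
    rw [gg3, ← h8]
    congr 1
    rw [compl_Iio]
    exact setLIntegral_congr (Ioi_ae_eq_Ici (a := (0 : ℝ)) (μ := volume)).symm
  rw [h7, h4]
  exact (ENNReal.add_lt_top.2 ⟨h3, h3⟩).ne

/-- The chart formula in dimension three. -/
lemma chart3 (s : ℝ) (g : ℝ → ℝ → ℝ → ℝ≥0∞)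
    (hg : Measurable fun z : ℝ × ℝ × ℝ => g z.1 z.2.1 z.2.2)
    (hom : ∀ a x y : ℝ, a ≠ 0 → g a (a * x) (a * y) = ENNReal.ofReal (|a| ^ s) * g 1 x y) :
    ∫⁻ a : ℝ, ∫⁻ b : ℝ, ∫⁻ c : ℝ,
          g a b c * ENNReal.ofReal (Real.exp (-(a ^ 2 + b ^ 2 + c ^ 2)))
      = gg3 s * ∫⁻ x : ℝ, ∫⁻ y : ℝ, g 1 x y *
          ENNReal.ofReal ((1 + x ^ 2 + y ^ 2) ^ (-((s + 3) / 2))) := by
  -- first rewrite the inner integrals
  have h1 : ∀ a : ℝ, a ≠ 0 → ∫⁻ b : ℝ, ∫⁻ c : ℝ,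
          g a b c * ENNReal.ofReal (Real.exp (-(a ^ 2 + b ^ 2 + c ^ 2)))
      = ∫⁻ x : ℝ, ∫⁻ y : ℝ, g 1 x y *
          ENNReal.ofReal (|a| ^ (s + 2) * Real.exp (-(a ^ 2 * (1 + x ^ 2 + y ^ 2)))) := by
    intro a ha
    have hm : Measurable fun z : ℝ × ℝ =>
        g a z.1 z.2 * ENNReal.ofReal (Real.exp (-(a ^ 2 + z.1 ^ 2 + z.2 ^ 2))) := by
      apply Measurable.mul
      · exact hg.comp (by fun_prop : Measurable fun z : ℝ × ℝ => (a, z.1, z.2))
      · fun_prop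
    rw [scale2 _ hm a ha, ← lintegral_const_mul' _ _ (by simp)]
    apply lintegral_congr
    intro x
    rw [← lintegral_const_mul' _ _ (by simp)]
    apply lintegral_congr
    intro y
    rw [hom a x y ha]
    have h2 : ENNReal.ofReal (|a| ^ (s + 2) * Real.exp (-(a ^ 2 * (1 + x ^ 2 + y ^ 2))))
        = ENNReal.ofReal (|a| ^ 2) * ENNReal.ofReal (|a| ^ s) *
          ENNReal.ofReal (Real.exp (-(a ^ 2 + (a * x) ^ 2 + (a * y) ^ 2))) := by
      rw [← ENNReal.ofReal_mul (by positivity), ← ENNReal.ofReal_mul (by positivity)]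
      congr 1
      have h3 : |a| ^ (s + 2) = |a| ^ 2 * |a| ^ s := by
        rw [Real.rpow_add (abs_pos.2 ha), mul_comm]
        norm_cast
      rw [h3]
      congr 2
      ring
    rw [h2]
    ring
  have h2 : ∫⁻ a : ℝ, ∫⁻ b : ℝ, ∫⁻ c : ℝ,
          g a b c * ENNReal.ofReal (Real.exp (-(a ^ 2 + b ^ 2 + c ^ 2)))
      = ∫⁻ a : ℝ, ∫⁻ x : ℝ, ∫⁻ y : ℝ, g 1 x y *
          ENNReal.ofReal (|a| ^ (s + 2) * Real.exp (-(a ^ 2 * (1 + x ^ 2 + y ^ 2)))) := by
    apply lintegral_congr_ae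
    have h3 : ∀ᵐ a : ℝ, a ≠ 0 := by
      rw [ae_iff]
      simp
    filter_upwards [h3] with a ha
    exact h1 a ha
  have hg1 : Measurable fun z : ℝ × ℝ => g 1 z.1 z.2 :=
    hg.comp (by fun_prop : Measurable fun z : ℝ × ℝ => ((1 : ℝ), z.1, z.2))
  have hm3 : Measurable fun z : (ℝ × ℝ) × ℝ => g 1 z.1.2 z.2 *
          ENNReal.ofReal (|z.1.1| ^ (s + 2) * Real.exp (-(z.1.1 ^ 2 * (1 + z.1.2 ^ 2 + z.2 ^ 2)))) := by
    apply Measurable.mul
    · exact hg1.comp (by fun_prop : Measurable fun z : (ℝ × ℝ) × ℝ => (z.1.2, z.2))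
    · fun_prop
  rw [h2, lintegral_lintegral_swap]
  · rw [← lintegral_const_mul]
    · apply lintegral_congr
      intro x
      rw [lintegral_lintegral_swap]
      · rw [← lintegral_const_mul]
        · apply lintegral_congr
          intro y
          rw [lintegral_const_mul _ (by fun_prop)]
          have hq : 0 < √(1 + x ^ 2 + y ^ 2) := by positivity
          have h4 := gg3_scaled s (√(1 + x ^ 2 + y ^ 2)) hq
          have h5 : √(1 + x ^ 2 + y ^ 2) ^ 2 = 1 + x ^ 2 + y ^ 2 := Real.sq_sqrt (by positivity)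
          rw [h5] at h4
          rw [h4]
          have h6 : √(1 + x ^ 2 + y ^ 2) ^ (-(s + 3)) = (1 + x ^ 2 + y ^ 2) ^ (-((s + 3) / 2)) := by
            rw [Real.sqrt_eq_rpow, ← Real.rpow_mul (by positivity)]
            congr 1
            ring
          rw [h6]
          ring
        · apply Measurable.mul
          · exact hg1.comp (by fun_prop : Measurable fun y : ℝ => (x, y))
          · fun_prop
      · apply Measurable.aemeasurable
        exact hm3.comp (by fun_prop : Measurable fun z : ℝ × ℝ => ((z.1, x), z.2))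
    · have h7 : Measurable fun z : ℝ × ℝ => g 1 z.1 z.2 *
          ENNReal.ofReal ((1 + z.1 ^ 2 + z.2 ^ 2) ^ (-((s + 3) / 2))) := by
        apply Measurable.mul hg1
        fun_prop
      exact h7.lintegral_prod_right'
  · apply Measurable.aemeasurable
    exact hm3.lintegral_prod_right'

/-- The gnomonic chart formula for integrals over the sphere. -/
lemma sphere_chart (d : ℕ) (s : ℝ) (hs : 0 ≤ s) :
    ∃ C : ℝ≥0∞, C ≠ 0 ∧ C ≠ ∞ ∧ ∀ g : ℝ → ℝ → ℝ → ℝ≥0∞,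
    (Measurable fun z : ℝ × ℝ × ℝ => g z.1 z.2.1 z.2.2) →
    (∀ a x y z : ℝ, a ≠ 0 → g (a * x) (a * y) (a * z) = ENNReal.ofReal (|a| ^ s) * g x y z) →
    ∫⁻ u : Sph (d + 2), g ((u : Eu (d + 2)) 0) ((u : Eu (d + 2)) 1) ((u : Eu (d + 2)) 2)
        ∂(vol (d + 2))
      = C * ∫⁻ x : ℝ, ∫⁻ y : ℝ, g 1 x y *
          ENNReal.ofReal ((1 + x ^ 2 + y ^ 2) ^ (-((s + 3) / 2))) := by
  have hk0 := kap_ne_zero (d + 2) s
  have hk1 := kap_ne_top (d + 2) s hs
  refine ⟨(kap (d + 2) s)⁻¹ * (gaud d * gg3 s), ?_, ?_, ?_⟩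
  · exact mul_ne_zero (ENNReal.inv_ne_zero.2 hk1) (mul_ne_zero (gaud_ne_zero d) (gg3_ne_zero s))
  · exact ENNReal.mul_ne_top (ENNReal.inv_ne_top.2 hk0)
      (ENNReal.mul_ne_top (gaud_ne_top d) (gg3_ne_top s hs))
  · intro g hg hom
    have hgm : Measurable fun x : Eu (d + 2) => g (x 0) (x 1) (x 2) :=
      hg.comp (by fun_prop : Measurable fun x : Eu (d + 2) => (x 0, x 1, x 2))
    have h1 := polar (fun x : Eu (d + 2) => g (x 0) (x 1) (x 2)) s hgm (by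
      intro r x hr
      simp only [PiLp.smul_apply, smul_eq_mul]
      rw [hom r _ _ _ hr.ne', abs_of_pos hr])
    rw [split3 d g hg, chart3 s g hg (by
      intro a x y ha
      have := hom a 1 x y ha
      rwa [mul_one] at this)] at h1
    have h2 : ∫⁻ u : Sph (d + 2), g ((u : Eu (d + 2)) 0) ((u : Eu (d + 2)) 1) ((u : Eu (d + 2)) 2)
        ∂(vol (d + 2)) = (kap (d + 2) s)⁻¹ * (kap (d + 2) s * ∫⁻ u : Sph (d + 2),
          g ((u : Eu (d + 2)) 0) ((u : Eu (d + 2)) 1) ((u : Eu (d + 2)) 2) ∂(vol (d + 2))) := by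
      rw [← mul_assoc, ENNReal.inv_mul_cancel hk0 hk1, one_mul]
    rw [h2, ← h1]
    ring

end Pool.Agent.Lib.MP_af75b4_an
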