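import Pool.Agent.Lib.MP_af75b4_an.Beams
import Pool.Agent.Lib.MP_af75b4_an.Split

set_option autoImplicit false

open MeasureTheory Set ENNReal

namespace Pool.Agent.Lib.MP_af75b4_an

/-- Hoelder on a set -/
lemma holder {X : Type} [MeasurableSpace X] (μ : Measure X) (F : X → ℝ≥0∞) (hF : Measurable F)
    (a b : ℝ) (ha : 0 < a) (hab : a < b) :
    ∫⁻ x, F x ^ a ∂μ ≤ (∫⁻ x, F x ^ b ∂μ) ^ (a / b) * (μ univ) ^ (1 - a / b) := by
  have hb : 0 < b := ha.trans hab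
  have h1 : (b / a).HolderConjugate (b / (b - a)) := by
    rw [Real.holderConjugate_iff]
    constructor
    · rw [lt_div_iff₀ ha]
      linarith
    · rw [inv_div, inv_div]
      field_simp
      ring
  have h2 := ENNReal.lintegral_mul_le_Lp_mul_Lq μ h1 (f := fun x => F x ^ a) (g := fun _ => 1)
    (by fun_prop) (by fun_prop)
  simp only [Pi.mul_apply, mul_one, ENNReal.one_rpow, lintegral_const, one_mul] at h2
  have h3 : ∀ x, (F x ^ a) ^ (b / a) = F x ^ b := by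
    intro x
    rw [← ENNReal.rpow_mul]
    congr 1
    field_simp
  simp only [h3] at h2
  have h4 : 1 / (b / a) = a / b := by field_simp
  have h5 : 1 / (b / (b - a)) = 1 - a / b := by
    field_simp
  rw [h4, h5] at h2
  exact h2

/-- weight of the gnomonic chart -/
noncomputable def wt (z : ℝ × ℝ) : ℝ≥0∞ := ENNReal.ofReal ((1 + z.1 ^ 2 + z.2 ^ 2) ^ (-(3 / 2) : ℝ))

lemma meas_wt : Measurable wt := by
  unfold wt
  fun_prop

/-- the measure of the sphere in the chart -/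
noncomputable def muP : Measure (ℝ × ℝ) := volume.withDensity wt

lemma wt_le_one (z : ℝ × ℝ) : wt z ≤ 1 := by
  unfold wt
  rw [← ENNReal.ofReal_one]
  apply ENNReal.ofReal_le_ofReal
  apply Real.rpow_le_one_of_one_le_of_nonpos
  · nlinarith [sq_nonneg z.1, sq_nonneg z.2]
  · norm_num

lemma muP_le (S : Set (ℝ × ℝ)) (hS : MeasurableSet S) : muP S ≤ volume S := by
  unfold muP
  rw [withDensity_apply _ hS]
  calc ∫⁻ z in S, wt z ≤ ∫⁻ z in S, 1 := by
        apply lintegral_mono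
        intro z
        exact wt_le_one z
    _ = volume S := by simp

lemma muP_lintegral_le (F : ℝ × ℝ → ℝ≥0∞) (hF : Measurable F) (S : Set (ℝ × ℝ)) (hS : MeasurableSet S) :
    ∫⁻ z in S, F z ∂muP ≤ ∫⁻ z in S, F z := by
  unfold muP
  rw [restrict_withDensity hS, lintegral_withDensity_eq_lintegral_mul _ meas_wt hF]
  apply lintegral_mono
  intro z
  simp only [Pi.mul_apply]
  calc wt z * F z ≤ 1 * F z := by
        gcongr
        exact wt_le_one z
    _ = F z := one_mul _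

lemma wt_ge (z : ℝ × ℝ) (h1 : |z.1| ≤ 4) (h2 : |z.2| ≤ 1 / 2) : ENNReal.ofReal (1 / 80) ≤ wt z := by
  unfold wt
  apply ENNReal.ofReal_le_ofReal
  have hx2 : z.1 ^ 2 ≤ 4 ^ 2 := by rw [← sq_abs]; gcongr
  have hy2 : z.2 ^ 2 ≤ (1 / 2) ^ 2 := by rw [← sq_abs]; gcongr
  have h3 : 1 + z.1 ^ 2 + z.2 ^ 2 ≤ 18 := by norm_num at hx2 hy2 ⊢; linarith
  have h4 : (0 : ℝ) < 1 + z.1 ^ 2 + z.2 ^ 2 := by positivity
  have h5 : (1 + z.1 ^ 2 + z.2 ^ 2) ^ (3 / 2 : ℝ) ≤ 80 := by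
    calc (1 + z.1 ^ 2 + z.2 ^ 2) ^ (3 / 2 : ℝ) ≤ 18 ^ (3 / 2 : ℝ) := by gcongr
      _ ≤ 80 := by
        have h6 : (18 : ℝ) ^ (3 / 2 : ℝ) = √(18 ^ 3) := by
          rw [Real.sqrt_eq_rpow, ← Real.rpow_natCast, ← Real.rpow_mul (by norm_num)]
          norm_num
        rw [h6, Real.sqrt_le_left (by norm_num)]
        norm_num
  rw [Real.rpow_neg h4.le, one_div]
  exact inv_anti₀ (by positivity) h5

lemma muP_ge (F : ℝ × ℝ → ℝ≥0∞) (hF : Measurable F) (S : Set (ℝ × ℝ)) (hS : MeasurableSet S)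
    (h : ∀ z ∈ S, |z.1| ≤ 4 ∧ |z.2| ≤ 1 / 2) :
    ENNReal.ofReal (1 / 80) * ∫⁻ z in S, F z ≤ ∫⁻ z in S, F z ∂muP := by
  unfold muP
  rw [restrict_withDensity hS, lintegral_withDensity_eq_lintegral_mul _ meas_wt hF,
    ← lintegral_const_mul _ hF]
  apply setLIntegral_mono' hS
  intro z hz
  simp only [Pi.mul_apply]
  gcongr
  exact wt_ge z (h z hz).1 (h z hz).2

lemma muP_univ_lt : muP univ < ∞ := by
  unfold muP
  rw [withDensity_apply _ MeasurableSet.univ, setLIntegral_univ]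
  have hi : Integrable (fun x : ℝ => ((1 : ℝ) + ‖x‖ ^ 2) ^ (-(3 / 2 : ℝ) / 2)) :=
    integrable_rpow_neg_one_add_norm_sq (by
      simp
      norm_num)
  have h1 := hi.lintegral_lt_top
  set J := ∫⁻ x : ℝ, ENNReal.ofReal (((1 : ℝ) + ‖x‖ ^ 2) ^ (-(3 / 2 : ℝ) / 2)) with hJ
  have h2 : ∀ z : ℝ × ℝ, wt z ≤ ENNReal.ofReal (((1 : ℝ) + ‖z.1‖ ^ 2) ^ (-(3 / 2 : ℝ) / 2)) *
      ENNReal.ofReal (((1 : ℝ) + ‖z.2‖ ^ 2) ^ (-(3 / 2 : ℝ) / 2)) := by
    intro z
    unfold wt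
    rw [← ENNReal.ofReal_mul (by positivity)]
    apply ENNReal.ofReal_le_ofReal
    rw [← Real.mul_rpow (by positivity) (by positivity)]
    have h3 : (1 + z.1 ^ 2 + z.2 ^ 2) ^ (-(3 / 2) : ℝ)
        = ((1 + z.1 ^ 2 + z.2 ^ 2) ^ 2) ^ (-(3 / 2 : ℝ) / 2) := by
      rw [← Real.rpow_natCast (1 + z.1 ^ 2 + z.2 ^ 2) 2, ← Real.rpow_mul (by positivity)]
      congr 1
      push_cast
      ring
    rw [h3]
    apply Real.rpow_le_rpow_of_nonpos (by positivity) _ (by norm_num)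
    simp only [Real.norm_eq_abs, sq_abs]
    nlinarith [sq_nonneg z.1, sq_nonneg z.2, mul_nonneg (sq_nonneg z.1) (sq_nonneg z.2),
      sq_nonneg (z.1 ^ 2), sq_nonneg (z.2 ^ 2)]
  have h3 : ∫⁻ z, wt z ≤ J * J := by
    calc ∫⁻ z, wt z ≤ ∫⁻ z : ℝ × ℝ, ENNReal.ofReal (((1 : ℝ) + ‖z.1‖ ^ 2) ^ (-(3 / 2 : ℝ) / 2)) *
      ENNReal.ofReal (((1 : ℝ) + ‖z.2‖ ^ 2) ^ (-(3 / 2 : ℝ) / 2)) := lintegral_mono h2
      _ = J * J := by
        rw [Measure.volume_eq_prod]
        exact lintegral_prod_mul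
          (f := fun x : ℝ => ENNReal.ofReal (((1 : ℝ) + ‖x‖ ^ 2) ^ (-(3 / 2 : ℝ) / 2)))
          (g := fun x : ℝ => ENNReal.ofReal (((1 : ℝ) + ‖x‖ ^ 2) ^ (-(3 / 2 : ℝ) / 2)))
          (by fun_prop) (by fun_prop)
  exact lt_of_le_of_lt h3 (ENNReal.mul_lt_top h1 h1)

/-! ### Geometric sets in the plane -/

lemma cont_hh (K a : ℕ) (τ : ℝ) : Continuous fun x : ℝ => hh K a (x - τ) := by
  unfold hh
  fun_prop

/-- union of the fattened lines -/
def EE (τ : ℝ) (K : ℕ) : Set (ℝ × ℝ) := {z | ∃ a < 2 ^ K, |z.2 - hh K a (z.1 - τ)| ≤ K / 2 ^ K}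

lemma meas_EE (τ : ℝ) (K : ℕ) : MeasurableSet (EE τ K) := by
  have h : EE τ K = ⋃ a ∈ Finset.range (2 ^ K), {z : ℝ × ℝ | |z.2 - hh K a (z.1 - τ)| ≤ K / 2 ^ K} := by
    ext z
    simp [EE]
  rw [h]
  apply Finset.measurableSet_biUnion
  intro a _
  apply measurableSet_le
  · have h1 : Continuous fun z : ℝ × ℝ => hh K a (z.1 - τ) := (cont_hh K a τ).comp continuous_fst
    exact (continuous_snd.sub h1).abs.measurable
  · fun_prop

/-- the small slice measure -/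
noncomputable def mm (K : ℕ) : ℝ := 1 / (5 * K) + 2 ^ K / 2 ^ (K / 8) * (K / 2 ^ K)

lemma vol_EE (τ : ℝ) (K : ℕ) (hK : 16 ≤ K) (x1 x2 : ℝ) (h1 : -(7 / 2) ≤ x1 - τ)
    (h2 : x2 - τ ≤ -(1 / 2)) :
    volume (EE τ K ∩ (Icc x1 x2 ×ˢ univ)) ≤ ENNReal.ofReal (mm K) * ENNReal.ofReal (x2 - x1) := by
  have hm : MeasurableSet (EE τ K ∩ (Icc x1 x2 ×ˢ univ)) :=
    (meas_EE τ K).inter (measurableSet_Icc.prod MeasurableSet.univ)
  rw [Measure.volume_eq_prod, Measure.prod_apply hm]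
  have h3 : ∀ x, volume (Prod.mk x ⁻¹' (EE τ K ∩ (Icc x1 x2 ×ˢ univ)))
      ≤ (Icc x1 x2).indicator (fun _ => ENNReal.ofReal (mm K)) x := by
    intro x
    by_cases hx : x ∈ Icc x1 x2
    · rw [indicator_of_mem hx]
      have h4 := compress K hK (x - τ) (by linarith [hx.1]) (by linarith [hx.2]) (K / 2 ^ K)
        (by positivity)
      refine le_trans (measure_mono ?_) h4
      intro y hy
      exact hy.1
    · rw [indicator_of_notMem hx]
      have : Prod.mk x ⁻¹' (EE τ K ∩ (Icc x1 x2 ×ˢ univ)) = ∅ := by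
        ext y
        simp only [mem_preimage, mem_inter_iff, mem_prod, mem_univ, and_true, mem_empty_iff_false,
          iff_false, not_and]
        intro _
        exact hx
      rw [this]
      simp
  refine (lintegral_mono h3).trans ?_
  rw [lintegral_indicator measurableSet_Icc, setLIntegral_const, Real.volume_Icc]

/-- core of a beam -/
def core (τ : ℝ) (K a : ℕ) (x1 x2 : ℝ) : Set (ℝ × ℝ) :=
  {z | z.1 ∈ Icc x1 x2 ∧ |hh K a (z.1 - τ) - z.2| ≤ 1 / (2400 * 2 ^ K)}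

lemma meas_core (τ : ℝ) (K a : ℕ) (x1 x2 : ℝ) : MeasurableSet (core τ K a x1 x2) := by
  have h0 : core τ K a x1 x2 = (Prod.fst ⁻¹' (Icc x1 x2)) ∩
      {z : ℝ × ℝ | |hh K a (z.1 - τ) - z.2| ≤ 1 / (2400 * 2 ^ K)} := rfl
  rw [h0]
  apply MeasurableSet.inter
  · exact measurable_fst measurableSet_Icc
  · apply measurableSet_le
    · have h1 : Continuous fun z : ℝ × ℝ => hh K a (z.1 - τ) := (cont_hh K a τ).comp continuous_fst
      exact (h1.sub continuous_snd).abs.measurable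
    · fun_prop

lemma vol_core (τ : ℝ) (K a : ℕ) (x1 x2 : ℝ) :
    volume (core τ K a x1 x2)
      = ENNReal.ofReal (2 / (2400 * 2 ^ K)) * ENNReal.ofReal (x2 - x1) := by
  rw [Measure.volume_eq_prod, Measure.prod_apply (meas_core _ _ _ _ _)]
  have h3 : ∀ x, volume (Prod.mk x ⁻¹' (core τ K a x1 x2))
      = (Icc x1 x2).indicator (fun _ => ENNReal.ofReal (2 / (2400 * 2 ^ K))) x := by
    intro x
    by_cases hx : x ∈ Icc x1 x2
    · rw [indicator_of_mem hx]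
      have : Prod.mk x ⁻¹' (core τ K a x1 x2)
          = Icc (hh K a (x - τ) - 1 / (2400 * 2 ^ K)) (hh K a (x - τ) + 1 / (2400 * 2 ^ K)) := by
        ext y
        constructor
        · intro hy
          have h5 := abs_le.1 hy.2
          simp only at h5
          exact ⟨by linarith [h5.2], by linarith [h5.1]⟩
        · intro hy
          exact ⟨hx, abs_le.2 ⟨by simp only; linarith [hy.2], by simp only; linarith [hy.1]⟩⟩
      rw [this, Real.volume_Icc]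
      congr 1
      ring
    · rw [indicator_of_notMem hx]
      have : Prod.mk x ⁻¹' (core τ K a x1 x2) = ∅ := by
        ext y
        constructor
        · intro hy
          exact absurd hy.1 hx
        · intro hy
          exact absurd hy (notMem_empty y)
      rw [this]
      simp
  rw [lintegral_congr h3, lintegral_indicator measurableSet_Icc, setLIntegral_const, Real.volume_Icc]

lemma disj_core (τ : ℝ) (K : ℕ) (x1 x2 : ℝ) (h1 : 1 / 2 ≤ x1 - τ) (a b : ℕ) (hab : a ≠ b) :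
    Disjoint (core τ K a x1 x2) (core τ K b x1 x2) := by
  rw [Set.disjoint_left]
  rintro z ⟨hz, ha⟩ ⟨-, hb⟩
  have h3 := spread_abs K a b (z.1 - τ) (by linarith [hz.1])
  have h4 : |hh K b (z.1 - τ) - hh K a (z.1 - τ)|
      ≤ |hh K b (z.1 - τ) - z.2| + |hh K a (z.1 - τ) - z.2| := by
    have : hh K b (z.1 - τ) - hh K a (z.1 - τ) = (hh K b (z.1 - τ) - z.2) - (hh K a (z.1 - τ) - z.2) := by
      ring
    rw [this]
    exact abs_sub _ _
  have h6 : (1 : ℝ) ≤ |(b : ℝ) - a| := by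
    have h7 : (Int.natAbs ((b : ℤ) - a) : ℝ) = |(b : ℝ) - a| := by
      rw [Nat.cast_natAbs]
      push_cast
      rfl
    rw [← h7]
    have : 1 ≤ Int.natAbs ((b : ℤ) - a) := by omega
    exact_mod_cast this
  have h5 : 1 / (80 * 2 ^ K) ≤ |(b : ℝ) - a| / (80 * 2 ^ K) := by gcongr
  have h8 : (1 : ℝ) / (2400 * 2 ^ K) + 1 / (2400 * 2 ^ K) < 1 / (80 * 2 ^ K) := by
    rw [← add_div, div_lt_div_iff₀ (by positivity) (by positivity)]
    have : (0 : ℝ) < 2 ^ K := by positivity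
    linarith
  linarith

end Pool.Agent.Lib.MP_af75b4_an
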