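import Pool.Agent.Lib.MP_af75b4_an.Eigen

set_option autoImplicit false

open MeasureTheory Set Filter Topology InnerProductSpace

namespace Pool.Agent.Lib.MP_af75b4_an

/-- homogeneous extension of degree zero of a power of a linear form -/
noncomputable def TT {m : ℕ} (l : ℕ) (w : ℂ) (L : Eu m →L[ℝ] ℂ) (x : Eu m) : ℂ :=
  w * (L x) ^ (2 * l) * ((((‖x‖ ^ 2) ^ l)⁻¹ : ℝ) : ℂ)

lemma contDiffAt_TT {m : ℕ} (l : ℕ) (w : ℂ) (L : Eu m →L[ℝ] ℂ) (x : Eu m) (hx : x ≠ 0)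
    (n : WithTop ℕ∞) : ContDiffAt ℝ n (TT l w L) x := by
  unfold TT
  apply ContDiffAt.mul
  · exact contDiffAt_const.mul (L.contDiff.contDiffAt.pow _)
  · have h1 : ContDiffAt ℝ n (fun x : Eu m => (((‖x‖ ^ 2) ^ l)⁻¹ : ℝ)) x := by
      apply ContDiffAt.inv
      · exact ((contDiff_norm_sq ℝ).contDiffAt).pow _
      · have : 0 < ‖x‖ := norm_pos_iff.2 hx
        positivity
    exact Complex.ofRealCLM.contDiff.contDiffAt.comp x h1

lemma TT_hom {m : ℕ} (l : ℕ) (w : ℂ) (L : Eu m →L[ℝ] ℂ) (r : ℝ) (x : Eu m) (hr : 0 < r) :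
    TT l w L (r • x) = TT l w L x := by
  unfold TT
  rw [map_smul, norm_smul, Real.norm_of_nonneg hr.le, Complex.real_smul, mul_pow, mul_pow, mul_pow,
    mul_inv]
  push_cast
  have h1 : (r : ℂ) ≠ 0 := by
    rw [Complex.ofReal_ne_zero]
    exact hr.ne'
  rw [pow_mul (r : ℂ) 2 l]
  field_simp

lemma lap_TT {m : ℕ} (l : ℕ) (w : ℂ) (L : Eu m →L[ℝ] ℂ)
    (hL : ∑ i, (L (EuclideanSpace.basisFun (Fin (m + 1)) ℝ i)) ^ 2 = 0) (x : Eu m) (hx : ‖x‖ = 1) :
    Laplacian.laplacian (TT l w L) x = -(2 * (l : ℂ) * (2 * l + m - 1)) * TT l w L x := by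
  have hx0 : x ≠ 0 := by
    intro h
    rw [h, norm_zero] at hx
    exact zero_ne_one hx
  have h0 := congrFun (laplacian_eq_iteratedFDeriv_orthonormalBasis (TT l w L)
    (EuclideanSpace.basisFun (Fin (m + 1)) ℝ)) x
  rw [h0]
  set e := EuclideanSpace.basisFun (Fin (m + 1)) ℝ with he
  have hnorm : ∀ i, ∀ t : ℝ, ‖x + t • e i‖ ^ 2 = 1 + 2 * (x i) * t + t ^ 2 := by
    intro i t
    rw [norm_add_sq_real, hx, inner_smul_right, norm_smul, e.orthonormal.1 i]
    have : inner ℝ x (e i) = x i := by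
      rw [real_inner_comm, he, EuclideanSpace.basisFun_inner]
    rw [this]
    simp only [Real.norm_eq_abs, mul_one, sq_abs]
    ring
  have hterm : ∀ i, iteratedFDeriv ℝ 2 (TT l w L) x ![e i, e i]
      = w * ((2 * l) * (2 * l - 1) * (L (e i)) ^ 2 * (L x) ^ (2 * l - 2)
        - 8 * l ^ 2 * (x i) * (L (e i)) * (L x) ^ (2 * l - 1)
        + (4 * l * (l + 1) * (x i) ^ 2 - 2 * l) * (L x) ^ (2 * l)) := by
    intro i
    rw [second_line _ _ _ (contDiffAt_TT l w L x hx0 2), ← model_deriv w (L x) (L (e i)) (x i) l]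
    congr 2
    funext t
    unfold TT
    rw [hnorm i t, map_add, map_smul, Complex.real_smul]
  have hLx : ∑ i, ((x i : ℝ) : ℂ) * L (e i) = L x := by
    have h1 : x = ∑ i, (x i) • e i := by
      have := e.sum_repr x
      rw [he] at this ⊢
      simpa [EuclideanSpace.basisFun_repr] using this.symm
    conv_rhs => rw [h1]
    rw [map_sum]
    apply Finset.sum_congr rfl
    intro i _
    rw [map_smul, Complex.real_smul]
  have hx2 : ∑ i, ((x i : ℝ) : ℂ) ^ 2 = 1 := by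
    have h1 : ‖x‖ ^ 2 = 1 := by rw [hx]; norm_num
    rw [EuclideanSpace.norm_sq_eq] at h1
    simp only [Real.norm_eq_abs, sq_abs] at h1
    have h2 := congrArg (fun r : ℝ => (r : ℂ)) h1
    push_cast at h2
    exact h2
  simp only [hterm]
  rw [← Finset.mul_sum, Finset.sum_add_distrib, Finset.sum_sub_distrib]
  have s1 : ∑ i, (2 * (l : ℂ)) * (2 * l - 1) * (L (e i)) ^ 2 * (L x) ^ (2 * l - 2) = 0 := by
    rw [← Finset.sum_mul, ← Finset.mul_sum, hL, mul_zero, zero_mul]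
  have s2 : ∑ i, 8 * (l : ℂ) ^ 2 * (x i) * (L (e i)) * (L x) ^ (2 * l - 1)
      = 8 * (l : ℂ) ^ 2 * (L x) ^ (2 * l) := by
    rw [← Finset.sum_mul]
    have : ∑ i, 8 * (l : ℂ) ^ 2 * (x i) * (L (e i)) = 8 * (l : ℂ) ^ 2 * L x := by
      conv_rhs => rw [← hLx]
      rw [Finset.mul_sum]
      apply Finset.sum_congr rfl
      intro i _
      ring
    rw [this]
    rcases Nat.eq_zero_or_pos l with h | h
    · subst h
      simp
    · obtain ⟨k, rfl⟩ : ∃ k, l = k + 1 := ⟨l - 1, by omega⟩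
      have e1 : 2 * (k + 1) - 1 = 2 * k + 1 := by omega
      rw [e1]
      ring
  have s3 : ∑ i, (4 * (l : ℂ) * (l + 1) * (x i) ^ 2 - 2 * l) * (L x) ^ (2 * l)
      = (4 * (l : ℂ) * (l + 1) - 2 * l * (m + 1)) * (L x) ^ (2 * l) := by
    rw [← Finset.sum_mul, Finset.sum_sub_distrib, ← Finset.mul_sum, hx2, Finset.sum_const,
      Finset.card_univ, Fintype.card_fin, nsmul_eq_mul]
    push_cast
    ring
  rw [s1, s2, s3]
  unfold TT
  rw [hx]
  simp only [one_pow, inv_one, Complex.ofReal_one, mul_one]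
  ring

/-- the finite sums -/
lemma lap_sum {m : ℕ} (l : ℕ) (S : Finset ℕ) (w : ℕ → ℂ) (L : ℕ → (Eu m →L[ℝ] ℂ))
    (hL : ∀ a, ∑ i, (L a (EuclideanSpace.basisFun (Fin (m + 1)) ℝ i)) ^ 2 = 0) (x : Eu m)
    (hx : ‖x‖ = 1) :
    Laplacian.laplacian (fun y => ∑ a ∈ S, TT l (w a) (L a) y) x
      = -(2 * (l : ℂ) * (2 * l + m - 1)) * ∑ a ∈ S, TT l (w a) (L a) x := by
  have hx0 : x ≠ 0 := by
    intro h
    rw [h, norm_zero] at hx
    exact zero_ne_one hx
  classical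
  induction S using Finset.induction_on with
  | empty =>
    simp only [Finset.sum_empty, mul_zero]
    simp
  | insert a S ha ih =>
    have h1 : (fun y => ∑ a ∈ insert a S, TT l (w a) (L a) y)
        = (TT l (w a) (L a)) + fun y => ∑ a ∈ S, TT l (w a) (L a) y := by
      funext y
      rw [Finset.sum_insert ha]
      rfl
    rw [h1, ContDiffAt.laplacian_add (contDiffAt_TT _ _ _ _ hx0 2)
      (ContDiffAt.sum fun b _ => contDiffAt_TT _ _ _ _ hx0 2), ih, lap_TT l (w a) (L a) (hL a) x hx,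
      Finset.sum_insert ha]
    ring

end Pool.Agent.Lib.MP_af75b4_an
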