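import Mathlib

set_option autoImplicit false

open MeasureTheory Set

namespace Pool.Agent.Lib.MP_af75b4_an

/-- initial part of the binary expansion of `a / 2 ^ K`, truncated after `k` digits -/
noncomputable def pre (K k a : ℕ) : ℝ := ((a / 2 ^ (K - k) : ℕ) : ℝ) / 2 ^ k

/-- sum of the prefixes -/
noncomputable def Hs (K a : ℕ) : ℝ := ∑ k ∈ Finset.Ico 1 K, pre K k a

/-- the height of the line with index `a` at abscissa `ξ` -/
noncomputable def hh (K a : ℕ) (ξ : ℝ) : ℝ := (1 / 40) * (pre K K a * ξ + (4 / K) * Hs K a)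

lemma pre_nonneg (K k a : ℕ) : 0 ≤ pre K k a := by
  unfold pre
  positivity

lemma pre_mono (K k : ℕ) {a b : ℕ} (h : a ≤ b) : pre K k a ≤ pre K k b := by
  unfold pre
  gcongr

lemma pre_lt_one (K k a : ℕ) (hk : k ≤ K) (ha : a < 2 ^ K) : pre K k a ≤ 1 := by
  unfold pre
  rw [div_le_one (by positivity)]
  have h1 : a / 2 ^ (K - k) < 2 ^ k := by
    rw [Nat.div_lt_iff_lt_mul (by positivity), ← pow_add]
    have : k + (K - k) = K := by omega
    rwa [this]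
  exact_mod_cast h1.le

lemma pre_top (K a : ℕ) : pre K K a = (a : ℝ) / 2 ^ K := by
  unfold pre
  simp

lemma pre_diff (K k a : ℕ) (hk : k ≤ K) :
    0 ≤ pre K K a - pre K k a ∧ pre K K a - pre K k a ≤ 1 / 2 ^ k := by
  have h0 : (2 : ℝ) ^ K = 2 ^ (K - k) * 2 ^ k := by
    rw [← pow_add]
    congr 1
    omega
  have h1 : pre K K a - pre K k a = ((a : ℝ) / 2 ^ (K - k) - ((a / 2 ^ (K - k) : ℕ) : ℝ)) / 2 ^ k := by
    rw [pre_top, pre, h0]
    field_simp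
  have h2 : ((a / 2 ^ (K - k) : ℕ) : ℝ) ≤ (a : ℝ) / 2 ^ (K - k) := by
    have := @Nat.cast_div_le ℝ _ _ _ a (2 ^ (K - k))
    simpa using this
  have h3 : (a : ℝ) / 2 ^ (K - k) ≤ ((a / 2 ^ (K - k) : ℕ) : ℝ) + 1 := by
    rw [div_le_iff₀ (by positivity)]
    have h4 : a < 2 ^ (K - k) * (a / 2 ^ (K - k) + 1) := Nat.lt_mul_div_succ a (by positivity)
    have h5 : (a : ℝ) < 2 ^ (K - k) * (((a / 2 ^ (K - k) : ℕ) : ℝ) + 1) := by exact_mod_cast h4
    linarith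
  rw [h1]
  constructor
  · apply div_nonneg (by linarith) (by positivity)
  · gcongr
    linarith

lemma Hs_nonneg (K a : ℕ) : 0 ≤ Hs K a := Finset.sum_nonneg fun _ _ => pre_nonneg _ _ _

lemma Hs_mono (K : ℕ) {a b : ℕ} (h : a ≤ b) : Hs K a ≤ Hs K b :=
  Finset.sum_le_sum fun _ _ => pre_mono _ _ h

lemma Hs_le (K a : ℕ) (ha : a < 2 ^ K) : Hs K a ≤ K := by
  have h1 : Hs K a ≤ ∑ k ∈ Finset.Ico 1 K, (1 : ℝ) := by
    apply Finset.sum_le_sum
    intro k hk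
    rw [Finset.mem_Ico] at hk
    exact pre_lt_one K k a (by omega) ha
  rw [Finset.sum_const, Nat.card_Ico, nsmul_eq_mul, mul_one] at h1
  have h2 : ((K - 1 : ℕ) : ℝ) ≤ K := by exact_mod_cast Nat.sub_le K 1
  linarith

lemma etaHs_le (K a : ℕ) (ha : a < 2 ^ K) : (4 / (K : ℝ)) * Hs K a ≤ 4 := by
  have h1 := Hs_le K a ha
  rcases Nat.eq_zero_or_pos K with h | h
  · subst h
    simp
  · have h2 : (0 : ℝ) < K := by exact_mod_cast h
    rw [div_mul_eq_mul_div, div_le_iff₀ h2]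
    linarith

lemma etaHs_nonneg (K a : ℕ) : 0 ≤ (4 / (K : ℝ)) * Hs K a := by
  have := Hs_nonneg K a
  positivity

/-- spreading -/
lemma spread (K : ℕ) {a b : ℕ} (h : a ≤ b) (ξ : ℝ) (hξ : 1 / 2 ≤ ξ) :
    ((b : ℝ) - a) / (80 * 2 ^ K) ≤ hh K b ξ - hh K a ξ := by
  have h1 := Hs_mono K h
  have h2 : (a : ℝ) ≤ b := by exact_mod_cast h
  unfold hh
  rw [pre_top, pre_top]
  have h3 : (4 / (K : ℝ)) * Hs K a ≤ (4 / (K : ℝ)) * Hs K b := by gcongr
  have h4 : ((b : ℝ) - a) / (80 * 2 ^ K) = (1 / 40) * ((((b : ℝ) - a) / 2 ^ K) * (1 / 2)) := by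
    field_simp
    ring
  rw [h4]
  have h5 : (((b : ℝ) - a) / 2 ^ K) * (1 / 2) ≤ (((b : ℝ) - a) / 2 ^ K) * ξ := by
    have : 0 ≤ ((b : ℝ) - a) / 2 ^ K := div_nonneg (by linarith) (by positivity)
    gcongr
  have h6 : (((b : ℝ) - a) / 2 ^ K) * ξ = (b : ℝ) / 2 ^ K * ξ - (a : ℝ) / 2 ^ K * ξ := by ring
  linarith

lemma spread_abs (K a b : ℕ) (ξ : ℝ) (hξ : 1 / 2 ≤ ξ) :
    |(b : ℝ) - a| / (80 * 2 ^ K) ≤ |hh K b ξ - hh K a ξ| := by
  rcases le_total a b with h | h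
  · have h1 := spread K h ξ hξ
    have h2 : (a : ℝ) ≤ b := by exact_mod_cast h
    rw [abs_of_nonneg (by linarith : (0 : ℝ) ≤ (b : ℝ) - a)]
    exact h1.trans (le_abs_self _)
  · have h1 := spread K h ξ hξ
    have h2 : (b : ℝ) ≤ a := by exact_mod_cast h
    rw [abs_sub_comm (b : ℝ), abs_of_nonneg (by linarith : (0 : ℝ) ≤ (a : ℝ) - b), abs_sub_comm]
    exact h1.trans (le_abs_self _)

lemma hh_abs (K a : ℕ) (ha : a < 2 ^ K) (ξ : ℝ) : |hh K a ξ| ≤ (|ξ| + 4) / 40 := by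
  unfold hh
  have h1 := pre_lt_one K K a le_rfl ha
  have h2 := pre_nonneg K K a
  have h3 := etaHs_le K a ha
  have h4 := etaHs_nonneg K a
  rw [abs_mul, abs_of_pos (by norm_num : (0 : ℝ) < 1 / 40)]
  have h5 : |pre K K a * ξ + 4 / (K : ℝ) * Hs K a| ≤ |ξ| + 4 := by
    calc _ ≤ |pre K K a * ξ| + |4 / (K : ℝ) * Hs K a| := abs_add_le _ _
      _ = pre K K a * |ξ| + 4 / (K : ℝ) * Hs K a := by
        rw [abs_mul, abs_of_nonneg h2, abs_of_nonneg h4]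
      _ ≤ 1 * |ξ| + 4 := by gcongr
      _ = _ := by ring
  linarith

/-- centre of a group of lines -/
noncomputable def cen (K j b : ℕ) (ξ : ℝ) : ℝ :=
  (1 / 40) * ((b : ℝ) / 2 ^ j * ξ + (4 / K) * ∑ k ∈ Finset.Ico 1 (j + 1), ((b / 2 ^ (j - k) : ℕ) : ℝ) / 2 ^ k
    + (4 / K) * ((K - 1 - j : ℕ) : ℝ) * ((b : ℝ) / 2 ^ j))

lemma pre_group (K j k a : ℕ) (hj : j ≤ K) (hk : k ≤ j) :
    pre K k a = ((a / 2 ^ (K - j) / 2 ^ (j - k) : ℕ) : ℝ) / 2 ^ k := by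
  unfold pre
  rw [Nat.div_div_eq_div_mul, ← pow_add]
  have : K - j + (j - k) = K - k := by omega
  rw [this]

lemma sum_half_pow (j n : ℕ) : ∑ k ∈ Finset.Ico (j + 1) n, (1 : ℝ) / 2 ^ k ≤ 1 / 2 ^ j := by
  rcases le_or_gt (j + 1) n with h | h
  · have h1 : ∀ n, j + 1 ≤ n → ∑ k ∈ Finset.Ico (j + 1) n, (1 : ℝ) / 2 ^ k ≤ 1 / 2 ^ j - 2 / 2 ^ n := by
      intro n hn
      induction n, hn using Nat.le_induction with
      | base =>
        rw [Finset.Ico_self, Finset.sum_empty, pow_succ]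
        apply le_of_eq
        field_simp
        norm_num
      | succ n hn ih =>
        rw [Finset.sum_Ico_succ_top hn]
        have : (2 : ℝ) / 2 ^ (n + 1) = 1 / 2 ^ n := by
          rw [pow_succ]
          field_simp
        rw [this]
        have h2 : (2 : ℝ) / 2 ^ n = 2 * (1 / 2 ^ n) := by ring
        rw [h2] at ih
        linarith
    have h2 := h1 n h
    have : (0 : ℝ) ≤ 2 / 2 ^ n := by positivity
    linarith
  · rw [Finset.Ico_eq_empty (by omega), Finset.sum_empty]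
    positivity

lemma group (K j a : ℕ) (hK : 0 < K) (hj : j + 1 ≤ K) (ξ θ : ℝ)
    (hξ : ξ = θ - ((K - 1 - j : ℕ) : ℝ) * (4 / K)) (h0 : 0 ≤ θ) (h1 : θ ≤ 4 / K) :
    |hh K a ξ - cen K j (a / 2 ^ (K - j)) ξ| ≤ (1 / 40) * ((4 / K) * (1 / 2 ^ j)) := by
  have hK' : (0 : ℝ) < K := by exact_mod_cast hK
  have e1 : Hs K a = ∑ k ∈ Finset.Ico 1 (j + 1), ((a / 2 ^ (K - j) / 2 ^ (j - k) : ℕ) : ℝ) / 2 ^ k
      + ∑ k ∈ Finset.Ico (j + 1) K, pre K k a := by
    unfold Hs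
    rw [← Finset.sum_Ico_consecutive _ (by omega : 1 ≤ j + 1) hj]
    congr 1
    apply Finset.sum_congr rfl
    intro k hk
    rw [Finset.mem_Ico] at hk
    exact pre_group K j k a (by omega) (by omega)
  have e2 : pre K j a = ((a / 2 ^ (K - j) : ℕ) : ℝ) / 2 ^ j := rfl
  have e3 : ∑ k ∈ Finset.Ico (j + 1) K, pre K k a
      = ((K - 1 - j : ℕ) : ℝ) * pre K K a - ∑ k ∈ Finset.Ico (j + 1) K, (pre K K a - pre K k a) := by
    rw [Finset.sum_sub_distrib, Finset.sum_const, Nat.card_Ico, nsmul_eq_mul]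
    have : K - (j + 1) = K - 1 - j := by omega
    rw [this]
    ring
  have e4 : hh K a ξ - cen K j (a / 2 ^ (K - j)) ξ
      = (1 / 40) * ((pre K K a - pre K j a) * θ
        - (4 / K) * ∑ k ∈ Finset.Ico (j + 1) K, (pre K K a - pre K k a)) := by
    unfold hh cen
    rw [e1, e3, ← e2, hξ]
    ring
  have h2 := pre_diff K j a (by omega)
  have h3 : 0 ≤ ∑ k ∈ Finset.Ico (j + 1) K, (pre K K a - pre K k a) := by
    apply Finset.sum_nonneg
    intro k hk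
    rw [Finset.mem_Ico] at hk
    exact (pre_diff K k a (by omega)).1
  have h4 : ∑ k ∈ Finset.Ico (j + 1) K, (pre K K a - pre K k a) ≤ 1 / 2 ^ j := by
    refine le_trans (Finset.sum_le_sum ?_) (sum_half_pow j K)
    intro k hk
    rw [Finset.mem_Ico] at hk
    exact (pre_diff K k a (by omega)).2
  have h5 : 0 ≤ (pre K K a - pre K j a) * θ := mul_nonneg h2.1 h0
  have h6 : (pre K K a - pre K j a) * θ ≤ (4 / K) * (1 / 2 ^ j) := by
    calc _ ≤ (1 / 2 ^ j) * (4 / (K : ℝ)) := by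
          apply mul_le_mul h2.2 h1 h0 (by positivity)
      _ = _ := by ring
  have h7 : (4 / (K : ℝ)) * ∑ k ∈ Finset.Ico (j + 1) K, (pre K K a - pre K k a)
      ≤ (4 / K) * (1 / 2 ^ j) := by gcongr
  have h8 : 0 ≤ (4 / (K : ℝ)) * ∑ k ∈ Finset.Ico (j + 1) K, (pre K K a - pre K k a) := by positivity
  rw [e4, abs_mul, abs_of_pos (by norm_num : (0 : ℝ) < 1 / 40)]
  gcongr
  rw [abs_le]
  constructor <;> linarith

/-- compression: measure of the slice of the union of the fattened lines -/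
lemma compress (K : ℕ) (hK : 16 ≤ K) (ξ : ℝ) (h1 : -(7 / 2) ≤ ξ) (h2 : ξ ≤ -(1 / 2)) (r : ℝ)
    (hr : 0 ≤ r) :
    volume {y : ℝ | ∃ a < 2 ^ K, |y - hh K a ξ| ≤ r}
      ≤ ENNReal.ofReal (1 / (5 * K) + 2 ^ K / 2 ^ (K / 8) * r) := by
  have hK0 : 0 < K := by omega
  have hK' : (0 : ℝ) < K := by exact_mod_cast hK0
  have hK16 : (16 : ℝ) ≤ K := by exact_mod_cast hK
  set u : ℝ := -ξ * K / 4 with hu
  have hu1 : (K : ℝ) / 8 ≤ u := by
    rw [hu]
    nlinarith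
  have hu2 : u ≤ 7 * K / 8 := by
    rw [hu]
    nlinarith
  set i : ℕ := ⌈u⌉₊ with hi
  have hi1 : u ≤ i := Nat.le_ceil u
  have hi2 : (i : ℝ) < u + 1 := Nat.ceil_lt_add_one (by linarith)
  have hi3 : i + 1 ≤ K := by
    have : (i : ℝ) + 1 < K + 1 := by linarith
    have h3 : i + 1 < K + 1 := by exact_mod_cast this
    omega
  have hi4 : K / 8 ≤ i := by
    have h3 : ((K / 8 : ℕ) : ℝ) ≤ (K : ℝ) / 8 := by
      have := @Nat.cast_div_le ℝ _ _ _ K 8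
      simpa using this
    have h4 : ((K / 8 : ℕ) : ℝ) ≤ i := by linarith
    exact_mod_cast h4
  set j : ℕ := K - 1 - i with hj
  have hj1 : K - 1 - j = i := by omega
  have hj2 : j + 1 ≤ K := by omega
  set θ : ℝ := ξ + i * (4 / K) with hθ
  have hξ : ξ = θ - ((K - 1 - j : ℕ) : ℝ) * (4 / K) := by
    rw [hj1, hθ]
    ring
  have e1 : ξ = -(u * (4 / K)) := by
    rw [hu]
    field_simp
  have hθ0 : 0 ≤ θ := by
    rw [hθ, e1]
    have : u * (4 / (K : ℝ)) ≤ i * (4 / K) := by gcongr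
    linarith
  have hθ1 : θ ≤ 4 / K := by
    rw [hθ, e1]
    have : (i : ℝ) * (4 / (K : ℝ)) ≤ (u + 1) * (4 / K) := by gcongr
    linarith
  set ρ : ℝ := (1 / 40) * ((4 / K) * (1 / 2 ^ j)) + r with hρ
  have hsub : {y : ℝ | ∃ a < 2 ^ K, |y - hh K a ξ| ≤ r} ⊆
      ⋃ b ∈ Finset.range (2 ^ j), Icc (cen K j b ξ - ρ) (cen K j b ξ + ρ) := by
    rintro y ⟨a, ha, hy⟩
    simp only [mem_iUnion]
    refine ⟨a / 2 ^ (K - j), ?_, ?_⟩
    · rw [Finset.mem_range, Nat.div_lt_iff_lt_mul (by positivity), ← pow_add]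
      have : j + (K - j) = K := by omega
      rwa [this]
    · have h3 := group K j a hK0 hj2 ξ θ hξ hθ0 hθ1
      rw [abs_le] at hy h3
      rw [mem_Icc]
      constructor <;> linarith [hy.1, hy.2, h3.1, h3.2]
  refine (measure_mono hsub).trans ((measure_biUnion_finset_le _ _).trans ?_)
  have h3 : ∀ b ∈ Finset.range (2 ^ j), volume (Icc (cen K j b ξ - ρ) (cen K j b ξ + ρ))
      = ENNReal.ofReal (2 * ρ) := by
    intro b _
    rw [Real.volume_Icc]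
    congr 1
    ring
  rw [Finset.sum_congr rfl h3, Finset.sum_const, Finset.card_range, nsmul_eq_mul]
  have h4 : ((2 ^ j : ℕ) : ENNReal) = ENNReal.ofReal (2 ^ j) := by
    rw [ENNReal.ofReal_pow (by norm_num)]
    simp
  rw [h4, ← ENNReal.ofReal_mul (by positivity)]
  apply ENNReal.ofReal_le_ofReal
  have h5 : (2 : ℝ) ^ j * (2 * ρ) = 1 / (5 * K) + 2 ^ (j + 1) * r := by
    rw [hρ, pow_succ]
    field_simp
    ring
  rw [h5]
  have h6 : (2 : ℝ) ^ (j + 1) ≤ 2 ^ K / 2 ^ (K / 8) := by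
    rw [le_div_iff₀ (by positivity), ← pow_add]
    apply pow_le_pow_right₀ (by norm_num)
    omega
  gcongr

end Pool.Agent.Lib.MP_af75b4_an
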