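import Pool.Agent.Lib.MP_af75b4_an.Lines

set_option autoImplicit false

open MeasureTheory Set

namespace Pool.Agent.Lib.MP_af75b4_an

/-- slope of the line -/
noncomputable def cA (K a : ℕ) : ℝ := (1 / 40) * pre K K a

/-- intercept of the line -/
noncomputable def cB (τ : ℝ) (K a : ℕ) : ℝ := (1 / 40) * (-τ * pre K K a + (4 / K) * Hs K a)

lemma hh_eq (τ : ℝ) (K a : ℕ) (x : ℝ) : hh K a (x - τ) = cA K a * x + cB τ K a := by
  unfold hh cA cB
  ring

lemma cA_abs (K a : ℕ) (ha : a < 2 ^ K) : |cA K a| ≤ 1 / 40 := by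
  unfold cA
  have h1 := pre_lt_one K K a le_rfl ha
  have h2 := pre_nonneg K K a
  rw [abs_of_nonneg (by positivity)]
  linarith

lemma cB_abs (τ : ℝ) (hτ : |τ| ≤ 2) (K a : ℕ) (ha : a < 2 ^ K) : |cB τ K a| ≤ 3 / 20 := by
  unfold cB
  have h1 := pre_lt_one K K a le_rfl ha
  have h2 := pre_nonneg K K a
  have h3 := etaHs_le K a ha
  have h4 := etaHs_nonneg K a
  rw [abs_mul, abs_of_pos (by norm_num : (0 : ℝ) < 1 / 40)]
  have h5 : |-τ * pre K K a + 4 / (K : ℝ) * Hs K a| ≤ 6 := by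
    calc _ ≤ |-τ * pre K K a| + |4 / (K : ℝ) * Hs K a| := abs_add_le _ _
      _ = |τ| * pre K K a + 4 / (K : ℝ) * Hs K a := by
        rw [abs_mul, abs_neg, abs_of_nonneg h2, abs_of_nonneg h4]
      _ ≤ 2 * 1 + 4 := by gcongr
      _ = _ := by ring
  linarith

/-- squared sine of the angle to the great circle, in the chart -/
noncomputable def sq (A B x y : ℝ) : ℝ :=
  (A * x - y + B) ^ 2 / ((1 + A ^ 2 + B ^ 2) * (1 + x ^ 2 + y ^ 2))

lemma sq_nonneg' (A B x y : ℝ) : 0 ≤ sq A B x y := by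
  unfold sq
  positivity

lemma sq_le_one (A B x y : ℝ) : sq A B x y ≤ 1 := by
  unfold sq
  rw [div_le_one (by positivity)]
  nlinarith [sq_nonneg (A + x * B * 0 + A * y * 1 + x), sq_nonneg (A * 1 - x * B), sq_nonneg (B * y + 1),
    sq_nonneg (A * y + x)]

lemma sq_le (A B x y : ℝ) : sq A B x y ≤ (A * x + B - y) ^ 2 := by
  unfold sq
  have h : (A * x - y + B) ^ 2 = (A * x + B - y) ^ 2 := by ring
  rw [h]
  apply div_le_self (by positivity)
  nlinarith [sq_nonneg A, sq_nonneg B, sq_nonneg x, sq_nonneg y, mul_nonneg (add_nonneg (sq_nonneg A) (sq_nonneg B)) (add_nonneg (sq_nonneg x) (sq_nonneg y))]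

lemma sq_ge (A B x y : ℝ) (hA : |A| ≤ 1 / 40) (hB : |B| ≤ 3 / 20) (hx : |x| ≤ 4) (hy : |y| ≤ 1 / 2) :
    (A * x + B - y) ^ 2 / 18 ≤ sq A B x y := by
  unfold sq
  have h : (A * x - y + B) ^ 2 = (A * x + B - y) ^ 2 := by ring
  rw [h]
  have hA2 : A ^ 2 ≤ (1 / 40) ^ 2 := by rw [← sq_abs]; gcongr
  have hB2 : B ^ 2 ≤ (3 / 20) ^ 2 := by rw [← sq_abs]; gcongr
  have hx2 : x ^ 2 ≤ 4 ^ 2 := by rw [← sq_abs]; gcongr
  have hy2 : y ^ 2 ≤ (1 / 2) ^ 2 := by rw [← sq_abs]; gcongr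
  apply div_le_div_of_nonneg_left (by positivity) (by positivity)
  calc (1 + A ^ 2 + B ^ 2) * (1 + x ^ 2 + y ^ 2)
      ≤ (1 + (1 / 40) ^ 2 + (3 / 20) ^ 2) * (1 + 4 ^ 2 + (1 / 2) ^ 2) := by gcongr
    _ ≤ 18 := by norm_num

/-- far from the lines -/
lemma sq_far (A B x y : ℝ) (hA : |A| ≤ 1 / 40) (hB : |B| ≤ 3 / 20) (hy : 1 / 2 ≤ |y|)
    (hx : 9 * x ^ 2 ≤ 16 * (1 + y ^ 2)) : 1 / 80 ≤ sq A B x y := by
  unfold sq
  have hA2 : A ^ 2 ≤ (1 / 40) ^ 2 := by rw [← sq_abs]; gcongr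
  have hB2 : B ^ 2 ≤ (3 / 20) ^ 2 := by rw [← sq_abs]; gcongr
  have hy2 : (1 / 2) ^ 2 ≤ y ^ 2 := by rw [← sq_abs y]; gcongr
  have hx2 : x ^ 2 ≤ 9 * y ^ 2 := by nlinarith
  have hx3 : |x| ≤ 3 * |y| := by
    rw [← abs_of_nonneg (by positivity : (0 : ℝ) ≤ 3 * |y|)]
    apply sq_le_sq.1
    rw [mul_pow, sq_abs]
    linarith
  have h1 : (5 / 8) * |y| ≤ |A * x - y + B| := by
    have h2 : |y| ≤ |A * x - y + B| + |A * x| + |B| := by
      have : y = -(A * x - y + B) + A * x + B := by ring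
      calc |y| = |-(A * x - y + B) + A * x + B| := by rw [← this]
        _ ≤ |-(A * x - y + B) + A * x| + |B| := abs_add_le _ _
        _ ≤ |-(A * x - y + B)| + |A * x| + |B| := by gcongr; exact abs_add_le _ _
        _ = _ := by rw [abs_neg]
    have h3 : |A * x| ≤ (1 / 40) * (3 * |y|) := by
      rw [abs_mul]
      gcongr
    linarith
  have h4 : ((5 / 8) * |y|) ^ 2 ≤ (A * x - y + B) ^ 2 := by
    rw [← sq_abs (A * x - y + B)]
    gcongr
  rw [mul_pow, sq_abs] at h4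
  rw [div_le_div_iff₀ (by norm_num) (by positivity)]
  have h5 : (1 + A ^ 2 + B ^ 2) * (1 + x ^ 2 + y ^ 2)
      ≤ (1 + (1 / 40) ^ 2 + (3 / 20) ^ 2) * (4 * y ^ 2 + 9 * y ^ 2 + y ^ 2) := by
    gcongr
    linarith
  nlinarith

/-- half of the degree -/
def ll (K : ℕ) : ℕ := 1382400 * 4 ^ K

/-- modulus of the Gaussian beam in the chart -/
noncomputable def psi (τ : ℝ) (K a : ℕ) (x y : ℝ) : ℝ :=
  (1 - sq (cA K a) (cB τ K a) x y) ^ (ll K)

lemma psi_nonneg (τ : ℝ) (K a : ℕ) (x y : ℝ) : 0 ≤ psi τ K a x y := by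
  unfold psi
  have := sq_le_one (cA K a) (cB τ K a) x y
  apply pow_nonneg
  linarith

lemma psi_le_one (τ : ℝ) (K a : ℕ) (x y : ℝ) : psi τ K a x y ≤ 1 := by
  unfold psi
  have h1 := sq_le_one (cA K a) (cB τ K a) x y
  have h2 := sq_nonneg' (cA K a) (cB τ K a) x y
  apply pow_le_one₀ <;> linarith

lemma psi_le_exp (τ : ℝ) (K a : ℕ) (x y c : ℝ) (hc : c ≤ sq (cA K a) (cB τ K a) x y) :
    psi τ K a x y ≤ Real.exp (-((ll K : ℝ) * c)) := by
  unfold psi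
  have h1 := sq_le_one (cA K a) (cB τ K a) x y
  have h3 : 1 - sq (cA K a) (cB τ K a) x y ≤ Real.exp (-c) := by
    have := Real.add_one_le_exp (-c)
    linarith
  calc (1 - sq (cA K a) (cB τ K a) x y) ^ ll K ≤ (Real.exp (-c)) ^ ll K := by
        apply pow_le_pow_left₀ _ h3
        linarith
    _ = Real.exp (-((ll K : ℝ) * c)) := by
      rw [← Real.exp_nat_mul]
      congr 1
      ring

lemma psi_ge (τ : ℝ) (K a : ℕ) (x y : ℝ) :
    1 - (ll K : ℝ) * sq (cA K a) (cB τ K a) x y ≤ psi τ K a x y := by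
  unfold psi
  have h1 := sq_le_one (cA K a) (cB τ K a) x y
  have h2 := sq_nonneg' (cA K a) (cB τ K a) x y
  have h3 := one_add_mul_le_pow (a := -sq (cA K a) (cB τ K a) x y) (by linarith) (ll K)
  calc _ = 1 + (ll K : ℝ) * (-sq (cA K a) (cB τ K a) x y) := by ring
    _ ≤ _ := h3
    _ = _ := by rw [sub_eq_add_neg]

/-- Gaussian bound in the bounded region -/
lemma psi_gauss (τ : ℝ) (hτ : |τ| ≤ 2) (K a : ℕ) (ha : a < 2 ^ K) (x y t : ℝ) (hx : |x| ≤ 4)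
    (hy : |y| ≤ 1 / 2) (ht : 0 ≤ t) (h : t ≤ |hh K a (x - τ) - y|) :
    psi τ K a x y ≤ Real.exp (-(76800 * 4 ^ K * t ^ 2)) := by
  have h1 := sq_ge (cA K a) (cB τ K a) x y (cA_abs K a ha) (cB_abs τ hτ K a ha) hx hy
  rw [← hh_eq] at h1
  have h2 : t ^ 2 / 18 ≤ (hh K a (x - τ) - y) ^ 2 / 18 := by
    rw [← sq_abs (hh K a (x - τ) - y)]
    gcongr
  refine (psi_le_exp τ K a x y _ (h2.trans h1)).trans ?_
  apply Real.exp_le_exp.2
  unfold ll
  push_cast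
  apply le_of_eq
  ring

lemma geo (n : ℕ) (x : ℝ) (h0 : 0 ≤ x) (h1 : x ≤ 1 / 19) :
    ∑ i ∈ Finset.range n, x ^ (i + 1) ≤ 1 / 18 := by
  have h2 : ∀ n : ℕ, (∑ i ∈ Finset.range n, x ^ (i + 1)) * (1 - x) = x - x ^ (n + 1) := by
    intro n
    induction n with
    | zero => simp
    | succ n ih =>
      rw [Finset.sum_range_succ, add_mul, ih]
      ring
  have h3 := h2 n
  have h4 : 0 ≤ x ^ (n + 1) := by positivity
  have h5 : 0 ≤ ∑ i ∈ Finset.range n, x ^ (i + 1) := Finset.sum_nonneg fun _ _ => by positivity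
  nlinarith

/-- Gaussian sums -/
lemma gsum (N a : ℕ) (x : ℝ) (h0 : 0 ≤ x) (h1 : x ≤ 1 / 19) :
    ∑ b ∈ (Finset.range N).erase a, x ^ (Int.natAbs ((b : ℤ) - a)) ≤ 1 / 9 := by
  have hsub : (Finset.range N).erase a ⊆ Finset.range a ∪ Finset.Ico (a + 1) (a + 1 + N) := by
    intro b hb
    simp only [Finset.mem_erase, Finset.mem_range, Finset.mem_union, Finset.mem_Ico] at hb ⊢
    omega
  have hdisj : Disjoint (Finset.range a) (Finset.Ico (a + 1) (a + 1 + N)) := by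
    rw [Finset.disjoint_left]
    intro b hb hb'
    simp only [Finset.mem_range, Finset.mem_Ico] at hb hb'
    omega
  have h2 : ∑ b ∈ (Finset.range N).erase a, x ^ (Int.natAbs ((b : ℤ) - a))
      ≤ ∑ b ∈ Finset.range a ∪ Finset.Ico (a + 1) (a + 1 + N), x ^ (Int.natAbs ((b : ℤ) - a)) :=
    Finset.sum_le_sum_of_subset_of_nonneg hsub fun _ _ _ => by positivity
  rw [Finset.sum_union hdisj] at h2
  have h3 : ∑ b ∈ Finset.range a, x ^ (Int.natAbs ((b : ℤ) - a)) ≤ 1 / 18 := by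
    rw [← Finset.sum_range_reflect]
    refine le_trans (le_of_eq ?_) (geo a x h0 h1)
    apply Finset.sum_congr rfl
    intro j hj
    rw [Finset.mem_range] at hj
    congr 1
    omega
  have h4 : ∑ b ∈ Finset.Ico (a + 1) (a + 1 + N), x ^ (Int.natAbs ((b : ℤ) - a)) ≤ 1 / 18 := by
    rw [Finset.sum_Ico_eq_sum_range]
    have h5 : a + 1 + N - (a + 1) = N := by omega
    rw [h5]
    refine le_trans (le_of_eq ?_) (geo N x h0 h1)
    apply Finset.sum_congr rfl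
    intro j hj
    congr 1
    omega
  linarith

lemma exp_neg_three : Real.exp (-3) ≤ 1 / 19 := by
  rw [Real.exp_neg, one_div]
  apply inv_anti₀ (by norm_num)
  have h1 := Real.exp_one_gt_d9
  have h2 : Real.exp 3 = Real.exp 1 ^ 3 := by
    rw [← Real.exp_nat_mul]
    norm_num
  rw [h2]
  calc (19 : ℝ) ≤ 2.7 ^ 3 := by norm_num
    _ ≤ Real.exp 1 ^ 3 := by
      gcongr
      linarith

lemma psi_dist (τ : ℝ) (hτ : |τ| ≤ 2) (K a b : ℕ) (hb : b < 2 ^ K) (x y : ℝ) (hx : |x| ≤ 4)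
    (hy : |y| ≤ 1 / 2) (h : |(b : ℝ) - a| / (160 * 2 ^ K) ≤ |hh K b (x - τ) - y|) :
    psi τ K b x y ≤ Real.exp (-3) ^ (Int.natAbs ((b : ℤ) - a)) := by
  refine (psi_gauss τ hτ K b hb x y _ hx hy (by positivity) h).trans ?_
  rw [← Real.exp_nat_mul]
  apply Real.exp_le_exp.2
  have h1 : (Int.natAbs ((b : ℤ) - a) : ℝ) = |(b : ℝ) - a| := by
    rw [Nat.cast_natAbs]
    push_cast
    rfl
  rw [h1]
  have h2 : |(b : ℝ) - a| ≤ |(b : ℝ) - a| ^ 2 := by
    rw [← h1]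
    have : Int.natAbs ((b : ℤ) - a) ≤ Int.natAbs ((b : ℤ) - a) ^ 2 := Nat.le_self_pow (by norm_num) _
    exact_mod_cast this
  have h4 : (4 : ℝ) ^ K = (2 ^ K) ^ 2 := by
    rw [← pow_mul, mul_comm, pow_mul]
    norm_num
  have h3 : 76800 * (4 : ℝ) ^ K * (|(b : ℝ) - a| / (160 * 2 ^ K)) ^ 2 = 3 * |(b : ℝ) - a| ^ 2 := by
    rw [h4]
    field_simp
    ring
  rw [h3]
  linarith

/-- bounded overlap in the spread region -/
lemma overlap (τ : ℝ) (hτ : |τ| ≤ 2) (K : ℕ) (x y : ℝ) (hx : |x| ≤ 4) (hxτ : 1 / 2 ≤ x - τ)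
    (hy : |y| ≤ 1 / 2) : ∑ a ∈ Finset.range (2 ^ K), psi τ K a x y ≤ 2 := by
  obtain ⟨a, ha, hmin⟩ := Finset.exists_min_image (Finset.range (2 ^ K))
    (fun a => |hh K a (x - τ) - y|) ⟨0, by simp⟩
  have h1 : ∀ b ∈ (Finset.range (2 ^ K)).erase a,
      psi τ K b x y ≤ Real.exp (-3) ^ (Int.natAbs ((b : ℤ) - a)) := by
    intro b hb
    have hb' := Finset.mem_of_mem_erase hb
    apply psi_dist τ hτ K a b (Finset.mem_range.1 hb') x y hx hy
    have h2 := hmin b hb'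
    have h3 := spread_abs K a b (x - τ) hxτ
    have h4 : |hh K b (x - τ) - hh K a (x - τ)| ≤ |hh K b (x - τ) - y| + |hh K a (x - τ) - y| := by
      have : hh K b (x - τ) - hh K a (x - τ) = (hh K b (x - τ) - y) - (hh K a (x - τ) - y) := by ring
      rw [this]
      exact abs_sub _ _
    have h5 : |(b : ℝ) - a| / (160 * 2 ^ K) = |(b : ℝ) - a| / (80 * 2 ^ K) / 2 := by
      field_simp
      ring
    rw [h5]
    linarith
  rw [← Finset.add_sum_erase _ _ ha]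
  have h2 := Finset.sum_le_sum h1
  have h3 := gsum (2 ^ K) a (Real.exp (-3)) (Real.exp_pos _).le exp_neg_three
  have h4 := psi_le_one τ K a x y
  linarith

/-- lower bound on the core of a beam -/
lemma core_ge (τ : ℝ) (K a : ℕ) (x y : ℝ)
    (h : |hh K a (x - τ) - y| ≤ 1 / (2400 * 2 ^ K)) : 3 / 4 ≤ psi τ K a x y := by
  refine le_trans ?_ (psi_ge τ K a x y)
  have h1 := sq_le (cA K a) (cB τ K a) x y
  rw [← hh_eq] at h1
  have h2 : (hh K a (x - τ) - y) ^ 2 ≤ (1 / (2400 * 2 ^ K)) ^ 2 := by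
    rw [← sq_abs (hh K a (x - τ) - y)]
    gcongr
  have h4 : (4 : ℝ) ^ K = (2 ^ K) ^ 2 := by
    rw [← pow_mul, mul_comm, pow_mul]
    norm_num
  have h3 : (ll K : ℝ) * (1 / (2400 * 2 ^ K)) ^ 2 = 24 / 100 := by
    unfold ll
    push_cast
    rw [h4]
    field_simp
    norm_num
  have h5 : (ll K : ℝ) * sq (cA K a) (cB τ K a) x y ≤ 24 / 100 := by
    rw [← h3]
    have : (0 : ℝ) ≤ ll K := Nat.cast_nonneg _
    gcongr
    linarith
  linarith

/-- other beams are small on the core of a beam -/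
lemma core_others (τ : ℝ) (hτ : |τ| ≤ 2) (K a : ℕ) (x y : ℝ) (hx : |x| ≤ 4)
    (hxτ : 1 / 2 ≤ x - τ) (hy : |y| ≤ 1 / 2)
    (h : |hh K a (x - τ) - y| ≤ 1 / (2400 * 2 ^ K)) :
    ∑ b ∈ (Finset.range (2 ^ K)).erase a, psi τ K b x y ≤ 1 / 9 := by
  have h1 : ∀ b ∈ (Finset.range (2 ^ K)).erase a,
      psi τ K b x y ≤ Real.exp (-3) ^ (Int.natAbs ((b : ℤ) - a)) := by
    intro b hb
    have hb' := Finset.mem_of_mem_erase hb
    have hne := Finset.ne_of_mem_erase hb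
    apply psi_dist τ hτ K a b (Finset.mem_range.1 hb') x y hx hy
    have h3 := spread_abs K a b (x - τ) hxτ
    have h4 : |hh K b (x - τ) - hh K a (x - τ)| ≤ |hh K b (x - τ) - y| + |hh K a (x - τ) - y| := by
      have : hh K b (x - τ) - hh K a (x - τ) = (hh K b (x - τ) - y) - (hh K a (x - τ) - y) := by ring
      rw [this]
      exact abs_sub _ _
    have h6 : (1 : ℝ) ≤ |(b : ℝ) - a| := by
      have h7 : (Int.natAbs ((b : ℤ) - a) : ℝ) = |(b : ℝ) - a| := by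
        rw [Nat.cast_natAbs]
        push_cast
        rfl
      rw [← h7]
      have : 1 ≤ Int.natAbs ((b : ℤ) - a) := by omega
      exact_mod_cast this
    have h5 : |(b : ℝ) - a| / (160 * 2 ^ K) + 1 / (2400 * 2 ^ K) ≤ |(b : ℝ) - a| / (80 * 2 ^ K) := by
      rw [div_add_div _ _ (by positivity) (by positivity), div_le_div_iff₀ (by positivity) (by positivity)]
      have h8 : (0 : ℝ) < 2 ^ K := by positivity
      nlinarith [mul_pos h8 h8, mul_pos (mul_pos h8 h8) h8]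
    linarith
  exact (Finset.sum_le_sum h1).trans (gsum (2 ^ K) a (Real.exp (-3)) (Real.exp_pos _).le exp_neg_three)

/-- off the fattened lines -/
lemma off_lines (τ : ℝ) (hτ : |τ| ≤ 2) (K : ℕ) (x y : ℝ) (hx : |x| ≤ 4)
    (hy : |y| ≤ 1 / 2) (h : ¬ ∃ a < 2 ^ K, |y - hh K a (x - τ)| ≤ K / 2 ^ K) :
    ∑ a ∈ Finset.range (2 ^ K), psi τ K a x y ≤ 2 ^ K * Real.exp (-(76800 * (K : ℝ) ^ 2)) := by
  have h1 : ∀ a ∈ Finset.range (2 ^ K), psi τ K a x y ≤ Real.exp (-(76800 * (K : ℝ) ^ 2)) := by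
    intro a ha
    rw [Finset.mem_range] at ha
    have h2 : (K : ℝ) / 2 ^ K ≤ |hh K a (x - τ) - y| := by
      by_contra hcon
      push Not at hcon
      exact h ⟨a, ha, by rw [abs_sub_comm]; exact hcon.le⟩
    refine (psi_gauss τ hτ K a ha x y _ hx hy (by positivity) h2).trans ?_
    apply Real.exp_le_exp.2
    have h4 : (4 : ℝ) ^ K = (2 ^ K) ^ 2 := by
      rw [← pow_mul, mul_comm, pow_mul]
      norm_num
    rw [h4]
    apply le_of_eq
    field_simp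
  refine (Finset.sum_le_sum h1).trans ?_
  rw [Finset.sum_const, Finset.card_range, nsmul_eq_mul]
  push_cast
  exact le_rfl

/-- far from the lines -/
lemma far_lines (τ : ℝ) (hτ : |τ| ≤ 2) (K : ℕ) (x y : ℝ) (hy : 1 / 2 ≤ |y|)
    (hx : 9 * x ^ 2 ≤ 16 * (1 + y ^ 2)) :
    ∑ a ∈ Finset.range (2 ^ K), psi τ K a x y ≤ 2 ^ K * Real.exp (-(17280 * (4 : ℝ) ^ K)) := by
  have h1 : ∀ a ∈ Finset.range (2 ^ K), psi τ K a x y ≤ Real.exp (-(17280 * (4 : ℝ) ^ K)) := by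
    intro a ha
    rw [Finset.mem_range] at ha
    have h2 := sq_far (cA K a) (cB τ K a) x y (cA_abs K a ha) (cB_abs τ hτ K a ha) hy hx
    refine (psi_le_exp τ K a x y _ h2).trans ?_
    apply Real.exp_le_exp.2
    unfold ll
    push_cast
    apply le_of_eq
    ring
  refine (Finset.sum_le_sum h1).trans ?_
  rw [Finset.sum_const, Finset.card_range, nsmul_eq_mul]
  push_cast
  exact le_rfl

end Pool.Agent.Lib.MP_af75b4_an
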