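import Pool.Agent.Lib.MP_af75b4_an.PlaneLim

set_option autoImplicit false

open MeasureTheory Set ENNReal Filter Topology

namespace Pool.Agent.Lib.MP_af75b4_an

lemma del_tendsto : Tendsto del atTop (𝓝 0) := by
  have h1 : Tendsto (fun K : ℕ => Real.exp (-(K : ℝ))) atTop (𝓝 0) :=
    Real.tendsto_exp_neg_atTop_nhds_zero.comp tendsto_natCast_atTop_atTop
  refine tendsto_of_tendsto_of_tendsto_of_le_of_le' tendsto_const_nhds h1 ?_ ?_
  · exact Eventually.of_forall del_nonneg
  · filter_upwards [eventually_ge_atTop 2] with K hK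
    unfold del
    have h2 : (2 : ℝ) ^ K ≤ Real.exp K := by
      rw [← Real.exp_one_rpow, Real.rpow_natCast]
      apply pow_le_pow_left₀ (by norm_num)
      have := Real.add_one_le_exp (1 : ℝ)
      linarith
    calc (2 : ℝ) ^ K * Real.exp (-(K : ℝ) ^ 2) ≤ Real.exp K * Real.exp (-(K : ℝ) ^ 2) := by gcongr
      _ = Real.exp (K + -(K : ℝ) ^ 2) := by rw [Real.exp_add]
      _ ≤ Real.exp (-(K : ℝ)) := by
        apply Real.exp_le_exp.2
        have hK' : (2 : ℝ) ≤ K := by exact_mod_cast hK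
        nlinarith

lemma mm_tendsto : Tendsto mm atTop (𝓝 0) := by
  have h1 : Tendsto (fun K : ℕ => 1 / (5 * (K : ℝ))) atTop (𝓝 0) := by
    have h2 : Tendsto (fun K : ℕ => (5 : ℝ) * (K : ℝ)) atTop atTop :=
      tendsto_natCast_atTop_atTop.const_mul_atTop (by norm_num)
    refine h2.inv_tendsto_atTop.congr ?_
    intro K
    simp only [Pi.inv_apply, one_div]
  have h3 : Tendsto (fun j : ℕ => (8 * (j : ℝ) + 8) / 2 ^ j) atTop (𝓝 0) := by
    have h4 : Tendsto (fun j : ℕ => (j : ℝ) ^ 1 / 2 ^ j) atTop (𝓝 0) :=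
      tendsto_pow_const_div_const_pow_of_one_lt 1 (by norm_num)
    have h5 : Tendsto (fun j : ℕ => (j : ℝ) ^ 0 / 2 ^ j) atTop (𝓝 0) :=
      tendsto_pow_const_div_const_pow_of_one_lt 0 (by norm_num)
    have h6 := (h4.const_mul 8).add (h5.const_mul 8)
    simp only [mul_zero, add_zero] at h6
    refine h6.congr ?_
    intro j
    simp only [pow_one, pow_zero]
    ring
  have h7 : Tendsto (fun K : ℕ => K / 8) atTop atTop := by
    apply tendsto_atTop_atTop.2
    intro b
    exact ⟨8 * b, fun a ha => by omega⟩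
  have h8 := h3.comp h7
  have h9 := h1.add h8
  rw [add_zero] at h9
  refine tendsto_of_tendsto_of_tendsto_of_le_of_le tendsto_const_nhds h9 ?_ ?_
  · intro K
    simp only [mm]
    positivity
  · intro K
    simp only [mm, Function.comp]
    gcongr
    have h10 : (2 : ℝ) ^ K / 2 ^ (K / 8) * (K / 2 ^ K) = K / 2 ^ (K / 8) := by field_simp
    rw [h10]
    gcongr
    have h11 : K ≤ 8 * (K / 8) + 8 := by omega
    exact_mod_cast h11

lemma ofReal_del_tendsto (q : ℝ) (hq : 0 < q) :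
    Tendsto (fun K => ENNReal.ofReal (del K) ^ q) atTop (𝓝 0) := by
  have h1 := ENNReal.tendsto_ofReal del_tendsto
  rw [ENNReal.ofReal_zero] at h1
  have h2 := ((ENNReal.continuous_rpow_const (y := q)).tendsto 0).comp h1
  rwa [ENNReal.zero_rpow_of_pos hq] at h2

lemma ofReal_mm_tendsto (q : ℝ) (hq : 0 < q) :
    Tendsto (fun K => ENNReal.ofReal (mm K) ^ q) atTop (𝓝 0) := by
  have h1 := ENNReal.tendsto_ofReal mm_tendsto
  rw [ENNReal.ofReal_zero] at h1
  have h2 := ((ENNReal.continuous_rpow_const (y := q)).tendsto 0).comp h1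
  rwa [ENNReal.zero_rpow_of_pos hq] at h2

lemma cmul_tendsto (c : ℝ≥0∞) (hc : c ≠ ∞) (f : ℕ → ℝ≥0∞) (hf : Tendsto f atTop (𝓝 0)) :
    Tendsto (fun K => c * f K) atTop (𝓝 0) := by
  have := ENNReal.Tendsto.const_mul hf (Or.inr hc)
  rwa [mul_zero] at this

/-- The planar statement. -/
theorem plane_main (p : ℝ) (hp : 1 ≤ p) (hp2 : p ≠ 2) :
    ∃ c : ℝ≥0∞, c ≠ 0 ∧ ∀ ε : ℝ≥0∞, ε ≠ 0 → ε ≠ ∞ → ∀ᶠ K : ℕ in atTop, ∃ τ : ℝ, |τ| ≤ 2 ∧
      ∃ s : ℕ → ℂ, IsSign s ∧
        ∫⁻ z in C1, ‖eS τ K s z‖ₑ ^ p ∂muP ≤ ε * ∫⁻ z, ‖eS τ K s z‖ₑ ^ p ∂muP ∧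
        c ≤ ∫⁻ z, ‖eS τ K s z‖ₑ ^ p ∂muP := by
  have hp0 : 0 ≤ p := by linarith
  have hM := muP_univ_lt.ne
  rcases lt_or_gt_of_ne hp2 with hlt | hgt
  · set c := ENNReal.ofReal (1 / 2) ^ p * ENNReal.ofReal (1 / 96000) with hc
    have hc0 : c ≠ 0 := by
      rw [hc]
      apply mul_ne_zero
      · intro h0
        rw [ENNReal.rpow_eq_zero_iff] at h0
        rcases h0 with h0 | h0
        · have := ENNReal.ofReal_eq_zero.1 h0.1
          norm_num at this
        · linarith [h0.2]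
      · intro h0
        have := ENNReal.ofReal_eq_zero.1 h0
        norm_num at this
    refine ⟨c, hc0, ?_⟩
    intro ε hε _
    have h1 : Tendsto (fun K => 2 * (ENNReal.ofReal (del K) ^ p * muP univ)
        + (gau * ENNReal.ofReal 3) ^ (p / 2)
          * (ENNReal.ofReal (mm K) * ENNReal.ofReal 3) ^ (1 - p / 2)) atTop (𝓝 0) := by
      have h2 := cmul_tendsto (2 * muP univ) (ENNReal.mul_ne_top (by norm_num) hM) _
        (ofReal_del_tendsto p (by linarith))
      have h3 := cmul_tendsto ((gau * ENNReal.ofReal 3) ^ (p / 2) * ENNReal.ofReal 3 ^ (1 - p / 2))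
        (by
          apply ENNReal.mul_ne_top
          · apply ENNReal.rpow_ne_top_of_nonneg (by positivity)
            exact ENNReal.mul_ne_top gau_ne_top ENNReal.ofReal_ne_top
          · apply ENNReal.rpow_ne_top_of_nonneg (by linarith) ENNReal.ofReal_ne_top) _
        (ofReal_mm_tendsto (1 - p / 2) (by linarith))
      have h4 := h2.add h3
      rw [add_zero] at h4
      refine h4.congr ?_
      intro K
      rw [ENNReal.mul_rpow_of_nonneg _ _ (by linarith : 0 ≤ 1 - p / 2)]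
      ring
    have h5 := (ENNReal.tendsto_nhds_zero.1 h1) (ε * c) (pos_iff_ne_zero.2 (mul_ne_zero hε hc0))
    filter_upwards [h5, eventually_ge_atTop 16] with K hK hK16
    obtain ⟨s, hs, hn⟩ := num_low K hK16 p hp hlt
    refine ⟨2, by norm_num, s, hs, ?_, den_low K s hs p hp0⟩
    refine hn.trans (hK.trans ?_)
    gcongr
    exact den_low K s hs p hp0
  · refine ⟨1, one_ne_zero, ?_⟩
    intro ε hε hεt
    set B : ℝ≥0∞ := (1 + ENNReal.ofReal 2 ^ p) * muP univ with hB
    have hBt : B ≠ ∞ := by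
      apply ENNReal.mul_ne_top _ hM
      apply ENNReal.add_ne_top.2 ⟨one_ne_top, ?_⟩
      exact ENNReal.rpow_ne_top_of_nonneg hp0 ENNReal.ofReal_ne_top
    set Q : ℝ≥0∞ := 1 + B / ε with hQ
    have hQt : Q ≠ ∞ := by
      apply ENNReal.add_ne_top.2 ⟨one_ne_top, ?_⟩
      exact (ENNReal.div_lt_top hBt hε).ne
    have h1 : Tendsto (fun K => Q ^ (2 / p) * ENNReal.ofReal (mm K) ^ (1 - 2 / p)
        + ENNReal.ofReal (del K) ^ (2 : ℝ) * muP univ) atTop (𝓝 0) := by
      have h2 := cmul_tendsto (Q ^ (2 / p)) (ENNReal.rpow_ne_top_of_nonneg (by positivity) hQt) _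
        (ofReal_mm_tendsto (1 - 2 / p) (by
          have : 2 / p < 1 := by
            rw [div_lt_one (by linarith)]
            exact hgt
          linarith))
      have h3 := cmul_tendsto (muP univ) hM _ (ofReal_del_tendsto 2 (by norm_num))
      have h4 := h2.add h3
      rw [add_zero] at h4
      refine h4.congr ?_
      intro K
      ring
    have hc0 : (0 : ℝ≥0∞) < ENNReal.ofReal (9 / (16 * 96000)) := by
      apply ENNReal.ofReal_pos.2
      norm_num
    have h5 := h1.eventually_lt_const hc0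
    have h6 := (ofReal_del_tendsto p (by linarith)).eventually_lt_const
      (show (0 : ℝ≥0∞) < 1 from one_pos)
    filter_upwards [h5, h6, eventually_ge_atTop 16] with K hK hK1 hK16
    obtain ⟨s, hs, hsq⟩ := sq_high K
    have h7 := den_high K hK16 s hs hsq p hgt
    have h8 : Q ≤ ∫⁻ z, ‖eS (-2) K s z‖ₑ ^ p ∂muP := by
      by_contra hcon
      push Not at hcon
      have h9 : (∫⁻ z, ‖eS (-2) K s z‖ₑ ^ p ∂muP) ^ (2 / p) * ENNReal.ofReal (mm K) ^ (1 - 2 / p)
        + ENNReal.ofReal (del K) ^ (2 : ℝ) * muP univ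
        ≤ Q ^ (2 / p) * ENNReal.ofReal (mm K) ^ (1 - 2 / p)
        + ENNReal.ofReal (del K) ^ (2 : ℝ) * muP univ := by
        gcongr
      exact absurd (h7.trans h9) (not_le.2 hK)
    refine ⟨-2, by norm_num, s, hs, ?_, ?_⟩
    · refine (num_high K s hs p hp0).trans ?_
      calc (ENNReal.ofReal (del K) ^ p + ENNReal.ofReal 2 ^ p) * muP univ ≤ B := by
            rw [hB]
            gcongr
        _ ≤ ε * (B / ε) := by
            rw [ENNReal.mul_div_cancel hε hεt]
        _ ≤ ε * Q := by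
            gcongr
            rw [hQ]
            exact le_add_self
        _ ≤ _ := by gcongr
    · refine le_trans ?_ h8
      rw [hQ]
      exact le_self_add

end Pool.Agent.Lib.MP_af75b4_an
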