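import Pool.Agent.Lib.MP_af75b4_an.PlaneLow

set_option autoImplicit false

open MeasureTheory Set ENNReal Filter Topology

namespace Pool.Agent.Lib.MP_af75b4_an

/-- contribution of the small parts -/
lemma C1_small (τ : ℝ) (hτ : |τ| ≤ 2) (K : ℕ) (s : ℕ → ℂ) (hs : IsSign s) (p : ℝ) (hp : 0 ≤ p) :
    ∫⁻ z in C1 ∩ {z | 1 / 2 ≤ |z.2|}, ‖eS τ K s z‖ₑ ^ p ∂muP
      ≤ ENNReal.ofReal (del K) ^ p * muP univ := by
  apply int_small _ _ _ _ _ hp
  · intro z hz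
    exact small_far τ hτ K s hs z hz.1 hz.2
  · apply meas_C1.inter
    apply measurableSet_le
    · fun_prop
    · exact measurable_snd.abs

lemma RR_small (τ : ℝ) (hτ : |τ| ≤ 2) (K : ℕ) (s : ℕ → ℂ) (hs : IsSign s) (p : ℝ) (hp : 0 ≤ p)
    (x1 x2 : ℝ) (hx1 : -4 ≤ x1) (hx2 : x2 ≤ 4) :
    ∫⁻ z in RR x1 x2 \ EE τ K, ‖eS τ K s z‖ₑ ^ p ∂muP
      ≤ ENNReal.ofReal (del K) ^ p * muP univ := by
  apply int_small _ _ _ _ _ hp
  · intro z hz
    apply small_off τ hτ K s hs z _ _ hz.2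
    · exact abs_le.2 ⟨by linarith [hz.1.1.1], by linarith [hz.1.1.2]⟩
    · exact abs_le.2 ⟨hz.1.2.1, hz.1.2.2⟩
  · exact (meas_RR x1 x2).diff (meas_EE τ K)

lemma muP_RE (τ : ℝ) (K : ℕ) (hK : 16 ≤ K) (x1 x2 : ℝ) (h1 : -(7 / 2) ≤ x1 - τ)
    (h2 : x2 - τ ≤ -(1 / 2)) :
    muP (RR x1 x2 ∩ EE τ K) ≤ ENNReal.ofReal (mm K) * ENNReal.ofReal (x2 - x1) := by
  refine le_trans (muP_le _ ((meas_RR x1 x2).inter (meas_EE τ K))) ?_
  refine le_trans (measure_mono ?_) (vol_EE τ K hK x1 x2 h1 h2)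
  rintro z ⟨hz1, hz2⟩
  exact ⟨hz2, hz1.1, mem_univ _⟩

/-- numerators in the low case -/
lemma num_low (K : ℕ) (hK : 16 ≤ K) (p : ℝ) (hp : 1 ≤ p) (hp2 : p < 2) :
    ∃ s : ℕ → ℂ, IsSign s ∧ ∫⁻ z in C1, ‖eS 2 K s z‖ₑ ^ p ∂muP
      ≤ 2 * (ENNReal.ofReal (del K) ^ p * muP univ)
        + (gau * ENNReal.ofReal 3) ^ (p / 2)
          * (ENNReal.ofReal (mm K) * ENNReal.ofReal 3) ^ (1 - p / 2) := by
  have hτ : |(2 : ℝ)| ≤ 2 := by norm_num
  obtain ⟨s, hs, h⟩ := signs_le (muP.restrict (RR (-(3 / 2)) (3 / 2))) (ph 2 K) (meas_ph 2 K) (2 ^ K)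
  refine ⟨s, hs, ?_⟩
  have h1 : ∫⁻ z in RR (-(3 / 2)) (3 / 2), ‖eS 2 K s z‖ₑ ^ 2 ∂muP ≤ gau * ENNReal.ofReal 3 := by
    refine h.trans ?_
    refine (Finset.sum_le_sum (fun a ha => beam_sq 2 hτ K a (Finset.mem_range.1 ha) _ _
      (by norm_num) (by norm_num))).trans ?_
    rw [Finset.sum_const, Finset.card_range, nsmul_eq_mul]
    have h3 : (((2 ^ K : ℕ) : ℝ≥0∞)) * ENNReal.ofReal (1 / 2 ^ K) = 1 := by
      rw [← ENNReal.ofReal_natCast, ← ENNReal.ofReal_mul (by positivity), ← ENNReal.ofReal_one]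
      congr 1
      push_cast
      field_simp
    rw [← mul_assoc, ← mul_assoc, h3, one_mul]
    have h4 : (3 / 2 : ℝ) - -(3 / 2) = 3 := by norm_num
    rw [h4]
  have h2 := C1_split 2 K (fun z => ‖eS 2 K s z‖ₑ ^ p)
  have h3 := RR_split 2 K (-(3 / 2)) (3 / 2) (fun z => ‖eS 2 K s z‖ₑ ^ p)
  have h4 := C1_small 2 hτ K s hs p (by linarith)
  have h5 := RR_small 2 hτ K s hs p (by linarith) (-(3 / 2)) (3 / 2) (by norm_num) (by norm_num)
  have h6 : ∫⁻ z in RR (-(3 / 2)) (3 / 2) ∩ EE 2 K, ‖eS 2 K s z‖ₑ ^ p ∂muP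
      ≤ (gau * ENNReal.ofReal 3) ^ (p / 2)
          * (ENNReal.ofReal (mm K) * ENNReal.ofReal 3) ^ (1 - p / 2) := by
    refine (holder _ _ (meas_eS 2 K s).enorm p 2 (by linarith) hp2).trans ?_
    apply mul_le_mul'
    · apply ENNReal.rpow_le_rpow _ (by positivity)
      have h7 : ∀ z : ℝ × ℝ, ‖eS 2 K s z‖ₑ ^ (2 : ℝ) = ‖eS 2 K s z‖ₑ ^ 2 := by
        intro z
        exact ENNReal.rpow_two _
      simp only [h7]
      exact (lintegral_mono_set inter_subset_left).trans h1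
    · apply ENNReal.rpow_le_rpow _ (by linarith)
      rw [Measure.restrict_apply_univ]
      have h8 := muP_RE 2 K hK (-(3 / 2)) (3 / 2) (by norm_num) (by norm_num)
      have h4 : (3 / 2 : ℝ) - -(3 / 2) = 3 := by norm_num
      rw [h4] at h8
      exact h8
  calc _ ≤ _ := h2
    _ ≤ ENNReal.ofReal (del K) ^ p * muP univ + ((gau * ENNReal.ofReal 3) ^ (p / 2)
          * (ENNReal.ofReal (mm K) * ENNReal.ofReal 3) ^ (1 - p / 2)
          + ENNReal.ofReal (del K) ^ p * muP univ) := by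
        apply add_le_add h4
        exact h3.trans (add_le_add h6 h5)
    _ = _ := by ring

/-- numerators in the high case -/
lemma num_high (K : ℕ) (s : ℕ → ℂ) (hs : IsSign s) (p : ℝ) (hp : 0 ≤ p) :
    ∫⁻ z in C1, ‖eS (-2) K s z‖ₑ ^ p ∂muP
      ≤ (ENNReal.ofReal (del K) ^ p + ENNReal.ofReal 2 ^ p) * muP univ := by
  have hτ : |(-2 : ℝ)| ≤ 2 := by norm_num
  refine (C1_split (-2) K (fun z => ‖eS (-2) K s z‖ₑ ^ p)).trans ?_
  rw [add_mul]
  apply add_le_add (C1_small (-2) hτ K s hs p hp)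
  apply int_small _ _ _ _ _ hp
  · intro z hz
    refine (norm_eS_le _ _ _ hs z).trans ?_
    apply overlap (-2) hτ K
    · exact abs_le.2 ⟨by linarith [hz.1.1], by linarith [hz.1.2]⟩
    · linarith [hz.1.1]
    · exact abs_le.2 ⟨hz.2.1, hz.2.2⟩
  · exact meas_RR _ _

/-- squares in the high case -/
lemma sq_high (K : ℕ) :
    ∃ s : ℕ → ℂ, IsSign s ∧ ENNReal.ofReal (9 / (16 * 96000))
      ≤ ∫⁻ z in RR (-4) (-3), ‖eS (-2) K s z‖ₑ ^ 2 ∂muP := by
  have hτ : |(-2 : ℝ)| ≤ 2 := by norm_num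
  obtain ⟨s, hs, h⟩ := signs_ge (muP.restrict (RR (-4) (-3))) (ph (-2) K) (meas_ph (-2) K) (2 ^ K)
  refine ⟨s, hs, le_trans ?_ h⟩
  have h2 : ∀ a ∈ Finset.range (2 ^ K),
      ENNReal.ofReal (9 / 16) * (ENNReal.ofReal (1 / 80) *
        (ENNReal.ofReal (2 / (2400 * 2 ^ K)) * ENNReal.ofReal (-3 - -4)))
      ≤ ∫⁻ z in RR (-4) (-3), ‖ph (-2) K a z‖ₑ ^ 2 ∂muP := by
    intro a ha
    rw [Finset.mem_range] at ha
    calc _ ≤ ENNReal.ofReal (9 / 16) * muP (core (-2) K a (-4) (-3)) := by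
          gcongr
          exact muP_core_ge (-2) hτ K a ha (-4) (-3) (by norm_num) (by norm_num)
      _ = ∫⁻ z in core (-2) K a (-4) (-3), ENNReal.ofReal (9 / 16) ∂muP := by
          rw [setLIntegral_const]
      _ ≤ ∫⁻ z in core (-2) K a (-4) (-3), ‖ph (-2) K a z‖ₑ ^ 2 ∂muP := by
          apply setLIntegral_mono' (meas_core _ _ _ _ _)
          intro z hz
          rw [← ofReal_norm, ← ENNReal.ofReal_pow (norm_nonneg _), norm_ph]
          apply ENNReal.ofReal_le_ofReal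
          have h3 := core_ge (-2) K a z.1 z.2 hz.2
          nlinarith
      _ ≤ _ := by
          apply lintegral_mono_set
          intro z hz
          have h3 := core_strip (-2) hτ K a ha (-4) (-3) (by norm_num) (by norm_num) z hz
          have h4 := abs_le.1 h3.2
          exact ⟨hz.1, h4.1, h4.2⟩
  refine le_trans ?_ (Finset.sum_le_sum h2)
  rw [Finset.sum_const, Finset.card_range, nsmul_eq_mul]
  apply le_of_eq
  rw [← ENNReal.ofReal_natCast, ← ENNReal.ofReal_mul (by positivity),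
    ← ENNReal.ofReal_mul (by positivity), ← ENNReal.ofReal_mul (by positivity),
    ← ENNReal.ofReal_mul (by positivity)]
  congr 1
  push_cast
  have : (0 : ℝ) < 2 ^ K := by positivity
  field_simp
  norm_num

/-- denominators in the high case -/
lemma den_high (K : ℕ) (hK : 16 ≤ K) (s : ℕ → ℂ) (hs : IsSign s)
    (h : ENNReal.ofReal (9 / (16 * 96000)) ≤ ∫⁻ z in RR (-4) (-3), ‖eS (-2) K s z‖ₑ ^ 2 ∂muP)
    (p : ℝ) (hp : 2 < p) :
    ENNReal.ofReal (9 / (16 * 96000)) ≤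
      (∫⁻ z, ‖eS (-2) K s z‖ₑ ^ p ∂muP) ^ (2 / p) * ENNReal.ofReal (mm K) ^ (1 - 2 / p)
        + ENNReal.ofReal (del K) ^ (2 : ℝ) * muP univ := by
  have hτ : |(-2 : ℝ)| ≤ 2 := by norm_num
  refine h.trans ((RR_split (-2) K (-4) (-3) (fun z => ‖eS (-2) K s z‖ₑ ^ 2)).trans ?_)
  have h7 : ∀ z : ℝ × ℝ, ‖eS (-2) K s z‖ₑ ^ 2 = ‖eS (-2) K s z‖ₑ ^ (2 : ℝ) := by
    intro z
    exact (ENNReal.rpow_two _).symm
  simp only [h7]
  apply add_le_add
  · refine (holder _ _ (meas_eS (-2) K s).enorm 2 p (by norm_num) hp).trans ?_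
    apply mul_le_mul'
    · apply ENNReal.rpow_le_rpow _ (by positivity)
      exact setLIntegral_le_lintegral _ _
    · apply ENNReal.rpow_le_rpow
      · rw [Measure.restrict_apply_univ]
        have h8 := muP_RE (-2) K hK (-4) (-3) (by norm_num) (by norm_num)
        have h9 : (-3 : ℝ) - -4 = 1 := by norm_num
        rw [h9, ENNReal.ofReal_one, mul_one] at h8
        exact h8
      · have : 2 / p < 1 := by
          rw [div_lt_one (by linarith)]
          exact hp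
        linarith
  · exact RR_small (-2) hτ K s hs 2 (by norm_num) (-4) (-3) (by norm_num) (by norm_num)

end Pool.Agent.Lib.MP_af75b4_an
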