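import Pool.Agent.Lib.MP_af75b4_an.PlaneMain

set_option autoImplicit false

open MeasureTheory Set ENNReal

namespace Pool.Agent.Lib.MP_af75b4_an

/-- lower bound on the core, in the spread region -/
lemma eS_core (τ : ℝ) (hτ : |τ| ≤ 2) (K : ℕ) (s : ℕ → ℂ) (hs : IsSign s) (a : ℕ) (ha : a < 2 ^ K)
    (z : ℝ × ℝ) (hx : |z.1| ≤ 4) (hxτ : 1 / 2 ≤ z.1 - τ) (hy : |z.2| ≤ 1 / 2)
    (h : |hh K a (z.1 - τ) - z.2| ≤ 1 / (2400 * 2 ^ K)) : 1 / 2 ≤ ‖eS τ K s z‖ := by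
  have h1 := core_ge τ K a z.1 z.2 h
  have h2 := core_others τ hτ K a z.1 z.2 hx hxτ hy h
  unfold eS
  rw [← Finset.add_sum_erase _ _ (Finset.mem_range.2 ha)]
  have h3 : ‖∑ b ∈ (Finset.range (2 ^ K)).erase a, s b * ph τ K b z‖ ≤ 1 / 9 := by
    refine (norm_sum_le _ _).trans (le_trans (le_of_eq ?_) h2)
    apply Finset.sum_congr rfl
    intro b _
    rw [norm_mul, hs.norm, one_mul, norm_ph]
  have h4 : ‖s a * ph τ K a z‖ = psi τ K a z.1 z.2 := by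
    rw [norm_mul, hs.norm, one_mul, norm_ph]
  have h5 := norm_sub_norm_le (s a * ph τ K a z) (-∑ b ∈ (Finset.range (2 ^ K)).erase a, s b * ph τ K b z)
  rw [sub_neg_eq_add, norm_neg] at h5
  linarith

/-- core points lie in the strip -/
lemma core_strip (τ : ℝ) (hτ : |τ| ≤ 2) (K a : ℕ) (ha : a < 2 ^ K) (x1 x2 : ℝ)
    (hx1 : -4 ≤ x1) (hx2 : x2 ≤ 4) (z : ℝ × ℝ) (hz : z ∈ core τ K a x1 x2) :
    |z.1| ≤ 4 ∧ |z.2| ≤ 1 / 2 := by
  obtain ⟨h1, h2⟩ := hz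
  have hx : |z.1| ≤ 4 := abs_le.2 ⟨by linarith [h1.1], by linarith [h1.2]⟩
  refine ⟨hx, ?_⟩
  have h3 := hh_abs K a ha (z.1 - τ)
  have h4 : |z.1 - τ| ≤ 6 := (abs_sub _ _).trans (by linarith)
  have h5 : |z.2| ≤ |hh K a (z.1 - τ)| + |hh K a (z.1 - τ) - z.2| := by
    have : z.2 = hh K a (z.1 - τ) - (hh K a (z.1 - τ) - z.2) := by ring
    conv_lhs => rw [this]
    exact abs_sub _ _
  have h6 : (1 : ℝ) / (2400 * 2 ^ K) ≤ 1 / 2400 := by
    apply one_div_le_one_div_of_le (by norm_num)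
    have : (1 : ℝ) ≤ 2 ^ K := one_le_pow₀ (by norm_num)
    linarith
  have h7 : (|z.1 - τ| + 4) / 40 ≤ 1 / 4 := by linarith
  linarith

lemma muP_core_ge (τ : ℝ) (hτ : |τ| ≤ 2) (K a : ℕ) (ha : a < 2 ^ K) (x1 x2 : ℝ)
    (hx1 : -4 ≤ x1) (hx2 : x2 ≤ 4) :
    ENNReal.ofReal (1 / 80) * (ENNReal.ofReal (2 / (2400 * 2 ^ K)) * ENNReal.ofReal (x2 - x1))
      ≤ muP (core τ K a x1 x2) := by
  have h1 := muP_ge (fun _ => 1) (by fun_prop) (core τ K a x1 x2) (meas_core τ K a x1 x2)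
    (fun z hz => core_strip τ hτ K a ha x1 x2 hx1 hx2 z hz)
  rw [setLIntegral_one, setLIntegral_one, vol_core] at h1
  exact h1

/-- denominators in the low case -/
lemma den_low (K : ℕ) (s : ℕ → ℂ) (hs : IsSign s) (p : ℝ) (hp : 0 ≤ p) :
    ENNReal.ofReal (1 / 2) ^ p * ENNReal.ofReal (1 / 96000)
      ≤ ∫⁻ z, ‖eS 2 K s z‖ₑ ^ p ∂muP := by
  have hτ : |(2 : ℝ)| ≤ 2 := by norm_num
  have h1 : ∫⁻ z in ⋃ a ∈ Finset.range (2 ^ K), core 2 K a 3 4, ‖eS 2 K s z‖ₑ ^ p ∂muP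
      ≤ ∫⁻ z, ‖eS 2 K s z‖ₑ ^ p ∂muP := setLIntegral_le_lintegral _ _
  refine le_trans ?_ h1
  rw [lintegral_biUnion_finset]
  · have h2 : ∀ a ∈ Finset.range (2 ^ K),
        ENNReal.ofReal (1 / 2) ^ p * (ENNReal.ofReal (1 / 80) *
          (ENNReal.ofReal (2 / (2400 * 2 ^ K)) * ENNReal.ofReal (4 - 3)))
        ≤ ∫⁻ z in core 2 K a 3 4, ‖eS 2 K s z‖ₑ ^ p ∂muP := by
      intro a ha
      rw [Finset.mem_range] at ha
      calc _ ≤ ENNReal.ofReal (1 / 2) ^ p * muP (core 2 K a 3 4) := by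
            gcongr
            exact muP_core_ge 2 hτ K a ha 3 4 (by norm_num) (by norm_num)
        _ = ∫⁻ z in core 2 K a 3 4, ENNReal.ofReal (1 / 2) ^ p ∂muP := by
            rw [setLIntegral_const]
        _ ≤ _ := by
            apply setLIntegral_mono' (meas_core _ _ _ _ _)
            intro z hz
            apply ENNReal.rpow_le_rpow _ hp
            rw [← ofReal_norm]
            apply ENNReal.ofReal_le_ofReal
            have h3 := core_strip 2 hτ K a ha 3 4 (by norm_num) (by norm_num) z hz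
            exact eS_core 2 hτ K s hs a ha z h3.1 (by linarith [hz.1.1]) h3.2 hz.2
    refine le_trans ?_ (Finset.sum_le_sum h2)
    rw [Finset.sum_const, Finset.card_range, nsmul_eq_mul]
    have h4 : ENNReal.ofReal (1 / 96000) = (((2 ^ K : ℕ) : ℝ≥0∞)) * (ENNReal.ofReal (1 / 80) *
          (ENNReal.ofReal (2 / (2400 * 2 ^ K)) * ENNReal.ofReal (4 - 3))) := by
      rw [← ENNReal.ofReal_natCast, ← ENNReal.ofReal_mul (by positivity),
        ← ENNReal.ofReal_mul (by positivity), ← ENNReal.ofReal_mul (by positivity)]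
      congr 1
      push_cast
      have : (0 : ℝ) < 2 ^ K := by positivity
      field_simp
      norm_num
    rw [h4]
    apply le_of_eq
    ring
  · intro a _ b _ hab
    exact disj_core 2 K 3 4 (by norm_num) a b hab
  · intro a _
    exact meas_core _ _ _ _ _

end Pool.Agent.Lib.MP_af75b4_an
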