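import Pool.Agent.Lib.MP_af75b4_an.Integrals

set_option autoImplicit false

open MeasureTheory Set ENNReal

namespace Pool.Agent.Lib.MP_af75b4_an

/-- signed sum of beams in the chart -/
noncomputable def eS (τ : ℝ) (K : ℕ) (s : ℕ → ℂ) (z : ℝ × ℝ) : ℂ :=
  ∑ a ∈ Finset.range (2 ^ K), s a * ph τ K a z

lemma meas_eS (τ : ℝ) (K : ℕ) (s : ℕ → ℂ) : Measurable (eS τ K s) := by
  unfold eS
  apply Finset.measurable_sum
  intro a _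
  exact (meas_ph τ K a).const_mul _

/-- signs -/
def IsSign (s : ℕ → ℂ) : Prop := ∀ a, s a = 1 ∨ s a = -1

lemma IsSign.norm {s : ℕ → ℂ} (hs : IsSign s) (a : ℕ) : ‖s a‖ = 1 := by
  rcases hs a with h | h <;> simp [h]

lemma norm_eS_le (τ : ℝ) (K : ℕ) (s : ℕ → ℂ) (hs : IsSign s) (z : ℝ × ℝ) :
    ‖eS τ K s z‖ ≤ ∑ a ∈ Finset.range (2 ^ K), psi τ K a z.1 z.2 := by
  unfold eS
  refine (norm_sum_le _ _).trans (le_of_eq ?_)
  apply Finset.sum_congr rfl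
  intro a _
  rw [norm_mul, hs.norm, one_mul, norm_ph]

/-- cone region in the chart -/
def C1 : Set (ℝ × ℝ) := {z | 9 * z.1 ^ 2 ≤ 16 * (1 + z.2 ^ 2)}

lemma meas_C1 : MeasurableSet C1 := by
  apply measurableSet_le <;> fun_prop

/-- error size -/
noncomputable def del (K : ℕ) : ℝ := 2 ^ K * Real.exp (-(K : ℝ) ^ 2)

lemma del_nonneg (K : ℕ) : 0 ≤ del K := by
  unfold del
  positivity

lemma small_far (τ : ℝ) (hτ : |τ| ≤ 2) (K : ℕ) (s : ℕ → ℂ) (hs : IsSign s) (z : ℝ × ℝ)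
    (hz : z ∈ C1) (hy : 1 / 2 ≤ |z.2|) : ‖eS τ K s z‖ ≤ del K := by
  refine (norm_eS_le τ K s hs z).trans ((far_lines τ hτ K z.1 z.2 hy hz).trans ?_)
  unfold del
  gcongr
  have h1 : (K : ℝ) ≤ 2 ^ K := by exact_mod_cast Nat.lt_two_pow_self.le
  have h4 : (4 : ℝ) ^ K = (2 ^ K) ^ 2 := by
    rw [← pow_mul, mul_comm, pow_mul]
    norm_num
  have h2 : (K : ℝ) ^ 2 ≤ (2 ^ K) ^ 2 := by gcongr
  rw [h4]
  nlinarith [sq_nonneg ((2 : ℝ) ^ K)]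

lemma small_off (τ : ℝ) (hτ : |τ| ≤ 2) (K : ℕ) (s : ℕ → ℂ) (hs : IsSign s) (z : ℝ × ℝ)
    (hx : |z.1| ≤ 4) (hy : |z.2| ≤ 1 / 2) (hz : z ∉ EE τ K) : ‖eS τ K s z‖ ≤ del K := by
  refine (norm_eS_le τ K s hs z).trans ((off_lines τ hτ K z.1 z.2 hx hy hz).trans ?_)
  unfold del
  gcongr
  nlinarith [sq_nonneg (K : ℝ)]

lemma enorm_rpow_le {z : ℂ} {c p : ℝ} (hp : 0 ≤ p) (h : ‖z‖ ≤ c) :
    ‖z‖ₑ ^ p ≤ ENNReal.ofReal c ^ p := by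
  apply ENNReal.rpow_le_rpow _ hp
  rw [← ofReal_norm]
  exact ENNReal.ofReal_le_ofReal h

/-- integral over a set where the function is small -/
lemma int_small (S : Set (ℝ × ℝ)) (hS : MeasurableSet S) (f : ℝ × ℝ → ℂ) (c p : ℝ) (hp : 0 ≤ p)
    (h : ∀ z ∈ S, ‖f z‖ ≤ c) : ∫⁻ z in S, ‖f z‖ₑ ^ p ∂muP ≤ ENNReal.ofReal c ^ p * muP univ := by
  calc ∫⁻ z in S, ‖f z‖ₑ ^ p ∂muP ≤ ∫⁻ z in S, ENNReal.ofReal c ^ p ∂muP := by
        apply setLIntegral_mono' hS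
        intro z hz
        exact enorm_rpow_le hp (h z hz)
    _ = ENNReal.ofReal c ^ p * muP S := by rw [setLIntegral_const]
    _ ≤ _ := by
      gcongr
      exact subset_univ _

/-- bounded strip -/
def RR (x1 x2 : ℝ) : Set (ℝ × ℝ) := Icc x1 x2 ×ˢ Icc (-(1 / 2)) (1 / 2)

lemma meas_RR (x1 x2 : ℝ) : MeasurableSet (RR x1 x2) := measurableSet_Icc.prod measurableSet_Icc

lemma C1_split (τ : ℝ) (K : ℕ) (F : ℝ × ℝ → ℝ≥0∞) :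
    ∫⁻ z in C1, F z ∂muP ≤ (∫⁻ z in C1 ∩ {z | 1 / 2 ≤ |z.2|}, F z ∂muP)
      + (∫⁻ z in RR (-(3 / 2)) (3 / 2), F z ∂muP) := by
  refine (lintegral_mono_set ?_).trans (lintegral_union_le _ _ _)
  intro z hz
  by_cases hy : 1 / 2 ≤ |z.2|
  · exact Or.inl ⟨hz, hy⟩
  · right
    push Not at hy
    have hz' : 9 * z.1 ^ 2 ≤ 16 * (1 + z.2 ^ 2) := hz
    have hy2 : z.2 ^ 2 ≤ (1 / 2) ^ 2 := by rw [← sq_abs]; gcongr
    have hx2 : z.1 ^ 2 ≤ (3 / 2) ^ 2 := by nlinarith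
    have hx3 := abs_le.1 (abs_le_of_sq_le_sq hx2 (by norm_num))
    have hy3 := abs_le.1 hy.le
    exact ⟨⟨hx3.1, hx3.2⟩, ⟨hy3.1, hy3.2⟩⟩

lemma RR_split (τ : ℝ) (K : ℕ) (x1 x2 : ℝ) (F : ℝ × ℝ → ℝ≥0∞) :
    ∫⁻ z in RR x1 x2, F z ∂muP ≤ (∫⁻ z in RR x1 x2 ∩ EE τ K, F z ∂muP)
      + (∫⁻ z in RR x1 x2 \ EE τ K, F z ∂muP) := by
  refine (lintegral_mono_set ?_).trans (lintegral_union_le _ _ _)
  intro z hz
  by_cases h : z ∈ EE τ K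
  · exact Or.inl ⟨hz, h⟩
  · exact Or.inr ⟨hz, h⟩

lemma gauss_slice (K : ℕ) (h : ℝ) :
    ∫⁻ y : ℝ, ENNReal.ofReal (Real.exp (-(2 ^ K * (y - h)) ^ 2)) = ENNReal.ofReal (1 / 2 ^ K) * gau := by
  have h1 := lintegral_sub_right_eq_self (μ := (volume : Measure ℝ))
    (fun y : ℝ => ENNReal.ofReal (Real.exp (-(2 ^ K * y) ^ 2))) h
  rw [h1]
  have h2 := scale1 (fun y : ℝ => ENNReal.ofReal (Real.exp (-y ^ 2))) (by fun_prop) (2 ^ K)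
    (by positivity)
  rw [gau, h2, abs_of_pos (by positivity), ← mul_assoc, ← ENNReal.ofReal_mul (by positivity)]
  have h3 : (1 : ℝ) / 2 ^ K * 2 ^ K = 1 := by field_simp
  rw [h3, ENNReal.ofReal_one, one_mul]

/-- mean square of a beam over a bounded strip -/
lemma beam_sq (τ : ℝ) (hτ : |τ| ≤ 2) (K a : ℕ) (ha : a < 2 ^ K) (x1 x2 : ℝ) (h1 : -4 ≤ x1)
    (h2 : x2 ≤ 4) :
    ∫⁻ z in RR x1 x2, ‖ph τ K a z‖ₑ ^ 2 ∂muP
      ≤ ENNReal.ofReal (1 / 2 ^ K) * gau * ENNReal.ofReal (x2 - x1) := by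
  have hm : Measurable fun z : ℝ × ℝ => ‖ph τ K a z‖ₑ ^ 2 := ((meas_ph τ K a).enorm).pow_const _
  refine (muP_lintegral_le _ hm _ (meas_RR x1 x2)).trans ?_
  have h3 : ∀ z ∈ RR x1 x2, ‖ph τ K a z‖ₑ ^ 2
      ≤ ENNReal.ofReal (Real.exp (-(2 ^ K * (z.2 - hh K a (z.1 - τ))) ^ 2)) := by
    intro z hz
    have hx : |z.1| ≤ 4 := abs_le.2 ⟨by linarith [hz.1.1], by linarith [hz.1.2]⟩
    have hy : |z.2| ≤ 1 / 2 := abs_le.2 ⟨hz.2.1, hz.2.2⟩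
    rw [← ofReal_norm, ← ENNReal.ofReal_pow (norm_nonneg _), norm_ph]
    apply ENNReal.ofReal_le_ofReal
    have h4 := psi_gauss τ hτ K a ha z.1 z.2 _ hx hy (abs_nonneg _) le_rfl
    have h5 := psi_nonneg τ K a z.1 z.2
    have h6 := psi_le_one τ K a z.1 z.2
    have h7 : psi τ K a z.1 z.2 ^ 2 ≤ psi τ K a z.1 z.2 := by nlinarith
    refine h7.trans (h4.trans ?_)
    apply Real.exp_le_exp.2
    rw [sq_abs, mul_pow]
    have h8 : (4 : ℝ) ^ K = (2 ^ K) ^ 2 := by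
      rw [← pow_mul, mul_comm, pow_mul]
      norm_num
    rw [h8]
    have h9 : (hh K a (z.1 - τ) - z.2) ^ 2 = (z.2 - hh K a (z.1 - τ)) ^ 2 := by ring
    rw [h9]
    nlinarith [mul_nonneg (sq_nonneg ((2 : ℝ) ^ K)) (sq_nonneg (z.2 - hh K a (z.1 - τ)))]
  refine (setLIntegral_mono' (meas_RR x1 x2) h3).trans ?_
  have hm2 : Measurable fun z : ℝ × ℝ =>
      ENNReal.ofReal (Real.exp (-(2 ^ K * (z.2 - hh K a (z.1 - τ))) ^ 2)) := by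
    have h1 : Measurable fun z : ℝ × ℝ => hh K a (z.1 - τ) :=
      ((cont_hh K a τ).comp continuous_fst).measurable
    fun_prop
  calc ∫⁻ z in RR x1 x2, ENNReal.ofReal (Real.exp (-(2 ^ K * (z.2 - hh K a (z.1 - τ))) ^ 2))
      ≤ ∫⁻ z in Icc x1 x2 ×ˢ univ,
        ENNReal.ofReal (Real.exp (-(2 ^ K * (z.2 - hh K a (z.1 - τ))) ^ 2)) := by
        apply lintegral_mono_set
        exact prod_mono_right (subset_univ _)
    _ = ∫⁻ x in Icc x1 x2, ∫⁻ y : ℝ, ENNReal.ofReal (Real.exp (-(2 ^ K * (y - hh K a (x - τ))) ^ 2)) := by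
        rw [Measure.volume_eq_prod, ← Measure.prod_restrict, Measure.restrict_univ,
          lintegral_prod _ hm2.aemeasurable]
    _ = ∫⁻ x in Icc x1 x2, ENNReal.ofReal (1 / 2 ^ K) * gau := by
        simp only [gauss_slice]
    _ = _ := by rw [setLIntegral_const, Real.volume_Icc]

end Pool.Agent.Lib.MP_af75b4_an
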