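import Pool.Agent.Lib.MP_af75b4_an.Defs

set_option autoImplicit false

open MeasureTheory ENNReal Set

namespace Pool.Agent.Lib.MP_af75b4_an

/-- radial constant -/
noncomputable def kap (m : ℕ) (s : ℝ) : ℝ≥0∞ :=
  ∫⁻ r : Ioi (0 : ℝ), ENNReal.ofReal ((r : ℝ) ^ s * Real.exp (-(r : ℝ) ^ 2))
    ∂(Measure.volumeIoiPow m)

lemma polar {m : ℕ} (g : Eu m → ℝ≥0∞) (s : ℝ)
    (hg : Measurable g)
    (hom : ∀ (r : ℝ) (x : Eu m), 0 < r → g (r • x) = ENNReal.ofReal (r ^ s) * g x) :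
    ∫⁻ x, g x * ENNReal.ofReal (Real.exp (-‖x‖ ^ 2)) = kap m s * ∫⁻ u : Sph m, g u ∂(vol m) := by
  have h1 : ∫⁻ x, g x * ENNReal.ofReal (Real.exp (-‖x‖ ^ 2))
      = ∫⁻ x : ({(0 : Eu m)}ᶜ : Set (Eu m)), g x * ENNReal.ofReal (Real.exp (-‖(x : Eu m)‖ ^ 2))
        ∂(Measure.comap (↑) (volume : Measure (Eu m))) := by
    rw [lintegral_subtype_comap (measurableSet_singleton _).compl
      (fun x : Eu m => g x * ENNReal.ofReal (Real.exp (-‖x‖ ^ 2))), restrict_compl_singleton]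
  have h2 := (volume : Measure (Eu m)).measurePreserving_homeomorphUnitSphereProd
  have h3 : Module.finrank ℝ (Eu m) - 1 = m := by simp
  rw [h3] at h2
  have h4 := h2.lintegral_comp_emb (Homeomorph.measurableEmbedding _)
    (fun z : Sph m × Ioi (0 : ℝ) => g ((z.2 : ℝ) • (z.1 : Eu m)) *
      ENNReal.ofReal (Real.exp (-‖(z.2 : ℝ) • (z.1 : Eu m)‖ ^ 2)))
  have h5 : ∀ x : ({(0 : Eu m)}ᶜ : Set (Eu m)),
      (((homeomorphUnitSphereProd (Eu m) x).2 : ℝ) • ((homeomorphUnitSphereProd (Eu m) x).1 : Eu m))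
        = (x : Eu m) := by
    intro x
    have hx : ‖(x : Eu m)‖ ≠ 0 := norm_ne_zero_iff.2 x.2
    simp [smul_smul, hx]
  simp only [h5] at h4
  rw [h1, h4, lintegral_prod]
  · have h6 : ∀ (u : Sph m), ∫⁻ r : Ioi (0 : ℝ), g ((r : ℝ) • (u : Eu m)) *
        ENNReal.ofReal (Real.exp (-‖(r : ℝ) • (u : Eu m)‖ ^ 2)) ∂(Measure.volumeIoiPow m)
        = kap m s * g u := by
      intro u
      rw [kap, ← lintegral_mul_const]
      · apply lintegral_congr
        intro r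
        have hr : (0 : ℝ) < r := r.2
        rw [hom _ _ hr, norm_smul, norm_eq_of_mem_sphere, Real.norm_of_nonneg hr.le, mul_one,
          ENNReal.ofReal_mul (by positivity)]
        ring
      · fun_prop
    simp only [h6]
    rw [lintegral_const_mul]
    · rfl
    · fun_prop
  · apply Measurable.aemeasurable
    fun_prop

lemma kap_ne_zero (m : ℕ) (s : ℝ) : kap m s ≠ 0 := by
  rw [kap]
  intro h
  rw [lintegral_eq_zero_iff (by fun_prop)] at h
  have h1 : (Measure.volumeIoiPow m) (Iio ⟨1, by simp⟩) = 0 := by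
    refine measure_mono_null ?_ (ae_iff.1 h)
    intro r _ hr
    have hr0 : (0 : ℝ) < r := r.2
    have h3 : 0 < (r : ℝ) ^ s * Real.exp (-(r : ℝ) ^ 2) := by positivity
    have h4 : ENNReal.ofReal ((r : ℝ) ^ s * Real.exp (-(r : ℝ) ^ 2)) = 0 := hr
    rw [ENNReal.ofReal_eq_zero] at h4
    linarith
  rw [Measure.volumeIoiPow_apply_Iio] at h1
  rw [ENNReal.ofReal_eq_zero] at h1
  have h2 : (0 : ℝ) < 1 ^ (m + 1) / (m + 1) := by positivity
  linarith

lemma kap_ne_top (m : ℕ) (s : ℝ) (hs : 0 ≤ s) : kap m s ≠ ∞ := by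
  rw [kap, Measure.volumeIoiPow, lintegral_withDensity_eq_lintegral_mul _ (by fun_prop) (by fun_prop)]
  simp only [Pi.mul_apply]
  rw [lintegral_subtype_comap measurableSet_Ioi
    (fun r : ℝ => ENNReal.ofReal (r ^ m) * ENNReal.ofReal (r ^ s * Real.exp (-r ^ 2)))]
  have h1 : IntegrableOn (fun r : ℝ => r ^ (m + s : ℝ) * Real.exp (-1 * r ^ 2)) (Ioi 0) :=
    integrableOn_rpow_mul_exp_neg_mul_sq one_pos (by
      have := Nat.cast_nonneg (α := ℝ) m
      linarith)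
  have h2 := h1.lintegral_lt_top
  refine ne_of_lt (lt_of_le_of_lt (le_of_eq ?_) h2)
  apply setLIntegral_congr_fun measurableSet_Ioi
  intro r hr
  have hr0 : (0 : ℝ) < r := hr
  simp only
  rw [← ENNReal.ofReal_mul (by positivity), Real.rpow_add hr0, Real.rpow_natCast]
  congr 1
  ring_nf

end Pool.Agent.Lib.MP_af75b4_an
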