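import Pool.Agent.Lib.MP_af75b4_an.Sphere

set_option autoImplicit false

open MeasureTheory Set ENNReal Filter Topology

namespace Pool.Agent.Lib.MP_af75b4_an

/-- the complement of two antipodal caps -/
def band (d : ℕ) : Set (Sph (d + 2)) := {u | |(u : Eu (d + 2)) 1| ≤ 3 / 4}

lemma meas_coord (d : ℕ) (i : Fin (d + 2 + 1)) : Measurable fun u : Sph (d + 2) => (u : Eu (d + 2)) i := by
  have h : Continuous fun u : Sph (d + 2) => (u : Eu (d + 2)) i := by fun_prop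
  exact h.measurable

lemma meas_band (d : ℕ) : MeasurableSet (band d) := by
  apply measurableSet_le
  · exact (meas_coord d 1).abs
  · fun_prop

/-- squared length of the first three coordinates -/
noncomputable def rr (d : ℕ) (u : Sph (d + 2)) : ℝ :=
  ((u : Eu (d + 2)) 0) ^ 2 + ((u : Eu (d + 2)) 1) ^ 2 + ((u : Eu (d + 2)) 2) ^ 2

lemma meas_rr (d : ℕ) : Measurable (rr d) := by
  unfold rr
  have h0 := meas_coord d 0
  have h1 := meas_coord d 1
  have h2 := meas_coord d 2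
  fun_prop

/-- the test function -/
noncomputable def eH (d : ℕ) (τ : ℝ) (K : ℕ) (s : ℕ → ℂ) (u : Sph (d + 2)) : ℂ :=
  HH τ K s ((u : Eu (d + 2)) 0) ((u : Eu (d + 2)) 1) ((u : Eu (d + 2)) 2)

lemma meas_eH (d : ℕ) (τ : ℝ) (K : ℕ) (s : ℕ → ℂ) : Measurable (eH d τ K s) := by
  have h0 := meas_coord d 0
  have h1 := meas_coord d 1
  have h2 := meas_coord d 2
  have e : eH d τ K s = (fun z : ℝ × ℝ × ℝ => HH τ K s z.1 z.2.1 z.2.2) ∘
      (fun u : Sph (d + 2) => ((u : Eu (d + 2)) 0, (u : Eu (d + 2)) 1, (u : Eu (d + 2)) 2)) := by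
    funext u
    simp only [eH, Function.comp]
  rw [e]
  exact (meas_HH τ K s).comp (h0.prodMk (h1.prodMk h2))

lemma rr_le_one (d : ℕ) (u : Sph (d + 2)) : rr d u ≤ 1 := by
  have h1 : ‖(u : Eu (d + 2))‖ = 1 := by simp
  have h2 : ‖(u : Eu (d + 2))‖ ^ 2 = 1 := by rw [h1]; norm_num
  rw [EuclideanSpace.norm_sq_eq, Fin.sum_univ_succ, Fin.sum_univ_succ, Fin.sum_univ_succ] at h2
  have h3 : 0 ≤ ∑ i : Fin d, ‖(u : Eu (d + 2)) i.succ.succ.succ‖ ^ 2 := by positivity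
  simp only [Real.norm_eq_abs, sq_abs] at h2 h3
  unfold rr
  have e1 : (Fin.succ 0 : Fin (d + 2 + 1)) = 1 := rfl
  have e2 : (Fin.succ (Fin.succ 0) : Fin (d + 2 + 1)) = 2 := rfl
  rw [e1, e2] at h2
  linarith

lemma eH_bound (d : ℕ) (τ : ℝ) (K : ℕ) (s : ℕ → ℂ) (hs : IsSign s) (u : Sph (d + 2)) :
    ‖eH d τ K s u‖ ≤ 2 ^ K * rr d u ^ (ll K) := norm_HH_le τ K s hs _ _ _

lemma rr_pos_meas (d : ℕ) : 0 < vol (d + 2) {u | 15 / 16 < rr d u} := by
  have hopen : IsOpen {u : Sph (d + 2) | 15 / 16 < rr d u} := by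
    apply isOpen_lt continuous_const
    unfold rr
    fun_prop
  have hne : ({u : Sph (d + 2) | 15 / 16 < rr d u}).Nonempty := by
    refine ⟨⟨EuclideanSpace.single 0 1, by simp⟩, ?_⟩
    simp only [rr, mem_ofPred_eq]
    have e1 : (1 : Fin (d + 2 + 1)) ≠ 0 := by
      intro h
      have := congrArg Fin.val h
      simp at this
    have e2 : (2 : Fin (d + 2 + 1)) ≠ 0 := by
      intro h
      have h3 := congrArg Fin.val h
      have h4 : ((2 : Fin (d + 3)) : ℕ) = 2 := Fin.val_two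
      have h5 : ((2 : Fin (d + 3)) : ℕ) = 0 := h3
      omega
    simp [e1, e2]
    norm_num
  unfold vol
  exact hopen.measure_pos _ hne

/-- exponentially small factor -/
lemma exp_small (K : ℕ) : (2 : ℝ) ^ K * (15 / 16) ^ (ll K) ≤ del K := by
  unfold del
  have h1 : (15 / 16 : ℝ) ≤ Real.exp (-(1 / 16)) := by
    have := Real.add_one_le_exp (-(1 / 16) : ℝ)
    linarith
  have h2 : (15 / 16 : ℝ) ^ (ll K) ≤ Real.exp (-(K : ℝ) ^ 2) := by
    calc (15 / 16 : ℝ) ^ (ll K) ≤ Real.exp (-(1 / 16)) ^ (ll K) := by gcongr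
      _ = Real.exp (-((ll K : ℝ) / 16)) := by
        rw [← Real.exp_nat_mul]
        congr 1
        ring
      _ ≤ _ := by
        apply Real.exp_le_exp.2
        unfold ll
        push_cast
        have h1 : (K : ℝ) ≤ 2 ^ K := by exact_mod_cast Nat.lt_two_pow_self.le
        have h4 : (4 : ℝ) ^ K = (2 ^ K) ^ 2 := by
          rw [← pow_mul, mul_comm, pow_mul]
          norm_num
        have h2 : (K : ℝ) ^ 2 ≤ (2 ^ K) ^ 2 := by gcongr
        rw [h4]
        nlinarith [sq_nonneg ((2 : ℝ) ^ K)]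
  gcongr

/-- points of the band near the first three coordinates lie in the cone -/
lemma band_cone (d : ℕ) (u : Sph (d + 2)) (hu : u ∈ band d)
    (h : ¬ cone ((u : Eu (d + 2)) 0) ((u : Eu (d + 2)) 1) ((u : Eu (d + 2)) 2)) :
    rr d u ≤ (15 / 16) ^ 2 := by
  unfold cone at h
  push Not at h
  have h1 : |(u : Eu (d + 2)) 1| ≤ 3 / 4 := hu
  have h2 : ((u : Eu (d + 2)) 1) ^ 2 ≤ (3 / 4) ^ 2 := by
    rw [← sq_abs]
    gcongr
  unfold rr
  nlinarith

theorem sphere_ratio (d : ℕ) (p : ℝ) (hp : 1 ≤ p) (hp2 : p ≠ 2) (ε : ℝ≥0∞) (hε : ε ≠ 0)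
    (hεt : ε ≠ ∞) :
    ∃ (τ : ℝ) (K : ℕ) (s : ℕ → ℂ),
      ∫⁻ u in band d, ‖eH d τ K s u‖ₑ ^ p ∂(vol (d + 2))
        ≤ ε * ∫⁻ u, ‖eH d τ K s u‖ₑ ^ p ∂(vol (d + 2)) ∧
      ∫⁻ u, ‖eH d τ K s u‖ₑ ^ p ∂(vol (d + 2)) ≠ 0 ∧
      ∫⁻ u, ‖eH d τ K s u‖ₑ ^ p ∂(vol (d + 2)) ≠ ∞ := by
  classical
  have hp0 : 0 ≤ p := by linarith
  have hM := muP_univ_lt.ne
  obtain ⟨c, hc0, hmain⟩ := plane_main p hp hp2
  set v1 := vol (d + 2) {u | 15 / 16 < rr d u} with hv1
  have hv0 : v1 ≠ 0 := (rr_pos_meas d).ne'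
  have hfin : vol (d + 2) univ ≠ ∞ := by
    unfold vol
    exact measure_ne_top _ _
  have hv1t : v1 ≠ ∞ := measure_ne_top_of_subset (subset_univ _) hfin
  have hε2 : ε / 2 ≠ 0 := by
    rw [Ne, ENNReal.div_eq_zero_iff]
    push Not
    exact ⟨hε, by norm_num⟩
  have hε2t : ε / 2 ≠ ∞ := (ENNReal.div_lt_top hεt (by norm_num)).ne
  have h1 := hmain (ε / 2) hε2 hε2t
  have h2 : Tendsto (fun K => (muP univ / v1 * vol (d + 2) univ) * ENNReal.ofReal (del K) ^ p) atTop (𝓝 0) := by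
    apply cmul_tendsto _ _ _ (ofReal_del_tendsto p (by linarith))
    apply ENNReal.mul_ne_top _ hfin
    exact (ENNReal.div_lt_top hM hv0).ne
  have h3 := (ENNReal.tendsto_nhds_zero.1 h2) (ε / 2 * c) (pos_iff_ne_zero.2 (mul_ne_zero hε2 hc0))
  obtain ⟨K, ⟨τ, hτ, s, hs, hK1, hK2⟩, hK3⟩ := (h1.and h3).exists
  obtain ⟨C, hC0, hCt, hI1, hI2, hI3⟩ := sphere_ints d τ K s p hp0
  refine ⟨τ, K, s, ?_, ?_, ?_⟩
  · -- main estimate
    have hb1 : ∀ u ∈ band d, ‖eH d τ K s u‖ₑ ^ p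
        ≤ (if cone ((u : Eu (d + 2)) 0) ((u : Eu (d + 2)) 1) ((u : Eu (d + 2)) 2)
          then ‖HH τ K s ((u : Eu (d + 2)) 0) ((u : Eu (d + 2)) 1) ((u : Eu (d + 2)) 2)‖ₑ ^ p else 0)
          + ENNReal.ofReal (2 ^ K * ((15 / 16) ^ 2) ^ (ll K)) ^ p := by
      intro u hu
      by_cases h : cone ((u : Eu (d + 2)) 0) ((u : Eu (d + 2)) 1) ((u : Eu (d + 2)) 2)
      · rw [if_pos h]
        exact le_self_add
      · rw [if_neg h, zero_add]
        apply enorm_rpow_le hp0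
        refine (eH_bound d τ K s hs u).trans ?_
        have hr := band_cone d u hu h
        have hr0 : 0 ≤ rr d u := by unfold rr; positivity
        gcongr
    have hb2 : ∫⁻ u in band d, ‖eH d τ K s u‖ₑ ^ p ∂(vol (d + 2))
        ≤ C * (∫⁻ z in C1, ‖eS τ K s z‖ₑ ^ p ∂muP)
          + ENNReal.ofReal (2 ^ K * ((15 / 16) ^ 2) ^ (ll K)) ^ p * vol (d + 2) univ := by
      rw [← hI2]
      refine (setLIntegral_mono' (meas_band d) hb1).trans ?_
      refine (setLIntegral_le_lintegral _ _).trans ?_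
      rw [lintegral_add_right _ measurable_const, lintegral_const]
    -- lower bound for C
    have hb3 : ENNReal.ofReal ((15 / 16) ^ (ll K)) ^ p * v1 ≤ C * muP univ := by
      rw [← hI3]
      calc ENNReal.ofReal ((15 / 16) ^ (ll K)) ^ p * v1
          = ∫⁻ u in {u | 15 / 16 < rr d u}, ENNReal.ofReal ((15 / 16) ^ (ll K)) ^ p ∂(vol (d + 2)) := by
            rw [setLIntegral_const]
        _ ≤ ∫⁻ u in {u | 15 / 16 < rr d u}, ENNReal.ofReal (rr d u ^ ((ll K : ℝ) * p)) ∂(vol (d + 2)) := by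
            apply setLIntegral_mono' (measurableSet_lt measurable_const (meas_rr d))
            intro u hu
            have hu' : 15 / 16 < rr d u := hu
            rw [ENNReal.ofReal_rpow_of_nonneg (by positivity) hp0]
            apply ENNReal.ofReal_le_ofReal
            rw [← Real.rpow_natCast, ← Real.rpow_mul (by positivity)]
            gcongr
        _ ≤ _ := setLIntegral_le_lintegral _ _
    have hb4 : ENNReal.ofReal (2 ^ K * ((15 / 16) ^ 2) ^ (ll K)) ^ p * vol (d + 2) univ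
        ≤ C * (muP univ / v1 * vol (d + 2) univ * ENNReal.ofReal (del K) ^ p) := by
      have e1 : (2 : ℝ) ^ K * ((15 / 16) ^ 2) ^ (ll K)
          = (2 ^ K * (15 / 16) ^ (ll K)) * (15 / 16) ^ (ll K) := by
        rw [← pow_mul, mul_comm 2 (ll K), pow_mul]
        ring
      have e2 : ENNReal.ofReal (2 ^ K * ((15 / 16) ^ 2) ^ (ll K)) ^ p
          ≤ ENNReal.ofReal (del K) ^ p * ENNReal.ofReal ((15 / 16) ^ (ll K)) ^ p := by
        rw [e1, ENNReal.ofReal_mul (by positivity), ENNReal.mul_rpow_of_nonneg _ _ hp0]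
        gcongr
        exact exp_small K
      have e3 : ENNReal.ofReal ((15 / 16) ^ (ll K)) ^ p ≤ C * muP univ / v1 := by
        rw [ENNReal.le_div_iff_mul_le (Or.inl hv0) (Or.inl hv1t)]
        exact hb3
      calc _ ≤ (ENNReal.ofReal (del K) ^ p * ENNReal.ofReal ((15 / 16) ^ (ll K)) ^ p)
            * vol (d + 2) univ := by gcongr
        _ ≤ (ENNReal.ofReal (del K) ^ p * (C * muP univ / v1)) * vol (d + 2) univ := by gcongr
        _ = _ := by
          rw [ENNReal.div_eq_inv_mul, ENNReal.div_eq_inv_mul]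
          ring
    calc ∫⁻ u in band d, ‖eH d τ K s u‖ₑ ^ p ∂(vol (d + 2))
        ≤ _ := hb2
      _ ≤ C * (ε / 2 * ∫⁻ z, ‖eS τ K s z‖ₑ ^ p ∂muP) + C * (ε / 2 * ∫⁻ z, ‖eS τ K s z‖ₑ ^ p ∂muP) := by
          apply add_le_add (mul_le_mul_right hK1 C)
          refine hb4.trans (mul_le_mul_right ?_ C)
          exact hK3.trans (mul_le_mul_right hK2 _)
      _ = ε * (C * ∫⁻ z, ‖eS τ K s z‖ₑ ^ p ∂muP) := by
          rw [← mul_add, ← add_mul, ENNReal.add_halves]
          ring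
      _ = _ := by
          rw [← hI1]
          rfl
  · intro h0
    have : C * ∫⁻ z, ‖eS τ K s z‖ₑ ^ p ∂muP = 0 := by
      rw [← hI1]
      exact h0
    rcases mul_eq_zero.1 this with h | h
    · exact hC0 h
    · rw [h] at hK2
      exact hc0 (le_antisymm hK2 (zero_le))
  · have hb : ∫⁻ u, ‖eH d τ K s u‖ₑ ^ p ∂(vol (d + 2))
        ≤ ENNReal.ofReal (2 ^ K) ^ p * vol (d + 2) univ := by
      rw [← lintegral_const]
      apply lintegral_mono
      intro u
      apply enorm_rpow_le hp0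
      refine (eH_bound d τ K s hs u).trans ?_
      have hr0 : 0 ≤ rr d u := by unfold rr; positivity
      have := pow_le_one₀ (n := ll K) hr0 (rr_le_one d u)
      nlinarith [show (0 : ℝ) < 2 ^ K by positivity]
    refine ne_top_of_le_ne_top ?_ hb
    apply ENNReal.mul_ne_top _ hfin
    exact ENNReal.rpow_ne_top_of_nonneg hp0 ENNReal.ofReal_ne_top

end Pool.Agent.Lib.MP_af75b4_an
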