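import Pool.Agent.Lib.MP_af75b4_an.PlaneFin
import Pool.Agent.Lib.MP_af75b4_an.Defs

set_option autoImplicit false

open MeasureTheory Set ENNReal Filter Topology

namespace Pool.Agent.Lib.MP_af75b4_an

/-- the test polynomial in three variables -/
noncomputable def HH (τ : ℝ) (K : ℕ) (s : ℕ → ℂ) (z x y : ℝ) : ℂ :=
  ∑ a ∈ Finset.range (2 ^ K), s a * beam τ K a z x y

lemma meas_HH (τ : ℝ) (K : ℕ) (s : ℕ → ℂ) :
    Measurable fun z : ℝ × ℝ × ℝ => HH τ K s z.1 z.2.1 z.2.2 := by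
  unfold HH
  apply Finset.measurable_sum
  intro a _
  exact (meas_beam τ K a).const_mul _

lemma HH_hom (τ : ℝ) (K : ℕ) (s : ℕ → ℂ) (a z x y : ℝ) :
    HH τ K s (a * z) (a * x) (a * y) = (a : ℂ) ^ (2 * ll K) * HH τ K s z x y := by
  unfold HH
  rw [Finset.mul_sum]
  apply Finset.sum_congr rfl
  intro b _
  unfold beam
  have h : Lf (cA K b) (cB τ K b) (a * z) (a * x) (a * y) = a * Lf (cA K b) (cB τ K b) z x y := by
    unfold Lf
    push_cast
    ring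
  rw [h, mul_pow]
  ring

lemma HH_chart (τ : ℝ) (K : ℕ) (s : ℕ → ℂ) (x y : ℝ) :
    HH τ K s 1 x y = (((1 + x ^ 2 + y ^ 2) ^ (ll K) : ℝ) : ℂ) * eS τ K s (x, y) := by
  unfold HH eS
  rw [Finset.mul_sum]
  apply Finset.sum_congr rfl
  intro b _
  unfold ph
  have h3 : (((1 + x ^ 2 + y ^ 2) ^ (ll K) : ℝ) : ℂ) ≠ 0 := by
    rw [Complex.ofReal_ne_zero]
    positivity
  simp only
  field_simp

lemma norm_HH_le (τ : ℝ) (K : ℕ) (s : ℕ → ℂ) (hs : IsSign s) (z x y : ℝ) :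
    ‖HH τ K s z x y‖ ≤ 2 ^ K * (z ^ 2 + x ^ 2 + y ^ 2) ^ (ll K) := by
  unfold HH
  refine (norm_sum_le _ _).trans ?_
  have h : ∀ a ∈ Finset.range (2 ^ K), ‖s a * beam τ K a z x y‖ ≤ (z ^ 2 + x ^ 2 + y ^ 2) ^ (ll K) := by
    intro a _
    rw [norm_mul, hs.norm, one_mul]
    exact norm_beam_le τ K a z x y
  refine (Finset.sum_le_sum h).trans (le_of_eq ?_)
  rw [Finset.sum_const, Finset.card_range, nsmul_eq_mul]
  push_cast
  rfl

/-- the power of a product in the chart -/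
lemma chart_weight (τ : ℝ) (K : ℕ) (s : ℕ → ℂ) (p : ℝ) (hp : 0 ≤ p) (x y : ℝ) :
    ‖HH τ K s 1 x y‖ₑ ^ p * ENNReal.ofReal ((1 + x ^ 2 + y ^ 2) ^ (-((2 * (ll K : ℝ) * p + 3) / 2)))
      = wt (x, y) * ‖eS τ K s (x, y)‖ₑ ^ p := by
  have h3 : (0 : ℝ) < 1 + x ^ 2 + y ^ 2 := by positivity
  rw [HH_chart, enorm_mul, ENNReal.mul_rpow_of_nonneg _ _ hp]
  have h4 : ‖(((1 + x ^ 2 + y ^ 2) ^ (ll K) : ℝ) : ℂ)‖ₑ ^ p
      = ENNReal.ofReal ((1 + x ^ 2 + y ^ 2) ^ ((ll K : ℝ) * p)) := by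
    rw [← ofReal_norm, Complex.norm_real, Real.norm_of_nonneg (by positivity),
      ENNReal.ofReal_rpow_of_nonneg (by positivity) hp, ← Real.rpow_natCast, ← Real.rpow_mul h3.le]
  rw [h4]
  have h5 : ENNReal.ofReal ((1 + x ^ 2 + y ^ 2) ^ ((ll K : ℝ) * p)) *
      ENNReal.ofReal ((1 + x ^ 2 + y ^ 2) ^ (-((2 * (ll K : ℝ) * p + 3) / 2))) = wt (x, y) := by
    rw [← ENNReal.ofReal_mul (by positivity), ← Real.rpow_add h3]
    unfold wt
    simp only
    congr 2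
    ring
  rw [← h5]
  ring

lemma enorm_HH_hom (τ : ℝ) (K : ℕ) (s : ℕ → ℂ) (p : ℝ) (hp : 0 ≤ p) (a z x y : ℝ) (ha : a ≠ 0) :
    ‖HH τ K s (a * z) (a * x) (a * y)‖ₑ ^ p
      = ENNReal.ofReal (|a| ^ (2 * (ll K : ℝ) * p)) * ‖HH τ K s z x y‖ₑ ^ p := by
  have ha' : 0 < |a| := abs_pos.2 ha
  rw [HH_hom, enorm_mul, ENNReal.mul_rpow_of_nonneg _ _ hp]
  congr 1
  rw [← ofReal_norm, norm_pow, Complex.norm_real, Real.norm_eq_abs,
      ENNReal.ofReal_rpow_of_nonneg (by positivity) hp, ← Real.rpow_natCast, ← Real.rpow_mul ha'.le]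
  push_cast
  rfl

lemma plane_lint (F : ℝ × ℝ → ℝ≥0∞) (hF : Measurable F) :
    ∫⁻ x : ℝ, ∫⁻ y : ℝ, wt (x, y) * F (x, y) = ∫⁻ z, F z ∂muP := by
  unfold muP
  rw [lintegral_withDensity_eq_lintegral_mul _ meas_wt hF, Measure.volume_eq_prod,
    lintegral_prod _ (meas_wt.mul hF).aemeasurable]
  rfl

/-- the cone -/
def cone (z x y : ℝ) : Prop := 9 * x ^ 2 ≤ 16 * (z ^ 2 + y ^ 2)

lemma cone_hom (a z x y : ℝ) (ha : a ≠ 0) : cone (a * z) (a * x) (a * y) ↔ cone z x y := by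
  unfold cone
  have ha2 : 0 < a ^ 2 := by positivity
  constructor
  · intro h
    have h1 : a ^ 2 * (9 * x ^ 2) ≤ a ^ 2 * (16 * (z ^ 2 + y ^ 2)) := by nlinarith
    exact le_of_mul_le_mul_left h1 ha2
  · intro h
    have h1 := mul_le_mul_of_nonneg_left h ha2.le
    nlinarith

open Classical in
/-- The three sphere integrals. -/
lemma sphere_ints (d : ℕ) (τ : ℝ) (K : ℕ) (s : ℕ → ℂ) (p : ℝ) (hp : 0 ≤ p) :
    ∃ C : ℝ≥0∞, C ≠ 0 ∧ C ≠ ∞ ∧
      (∫⁻ u : Sph (d + 2), ‖HH τ K s ((u : Eu (d + 2)) 0) ((u : Eu (d + 2)) 1) ((u : Eu (d + 2)) 2)‖ₑ ^ p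
        ∂(vol (d + 2)) = C * ∫⁻ z, ‖eS τ K s z‖ₑ ^ p ∂muP) ∧
      (∫⁻ u : Sph (d + 2), (if cone ((u : Eu (d + 2)) 0) ((u : Eu (d + 2)) 1) ((u : Eu (d + 2)) 2)
          then ‖HH τ K s ((u : Eu (d + 2)) 0) ((u : Eu (d + 2)) 1) ((u : Eu (d + 2)) 2)‖ₑ ^ p else 0)
        ∂(vol (d + 2)) = C * ∫⁻ z in C1, ‖eS τ K s z‖ₑ ^ p ∂muP) ∧
      (∫⁻ u : Sph (d + 2), ENNReal.ofReal
          ((((u : Eu (d + 2)) 0) ^ 2 + ((u : Eu (d + 2)) 1) ^ 2 + ((u : Eu (d + 2)) 2) ^ 2)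
            ^ ((ll K : ℝ) * p)) ∂(vol (d + 2)) = C * muP univ) := by
  obtain ⟨C, hC0, hC1, hC⟩ := sphere_chart d (2 * (ll K : ℝ) * p) (by positivity)
  have hm1 : Measurable fun z : ℝ × ℝ × ℝ => ‖HH τ K s z.1 z.2.1 z.2.2‖ₑ ^ p :=
    (meas_HH τ K s).enorm.pow_const _
  have hcm : MeasurableSet {z : ℝ × ℝ × ℝ | cone z.1 z.2.1 z.2.2} := by
    unfold cone
    apply measurableSet_le <;> fun_prop
  refine ⟨C, hC0, hC1, ?_, ?_, ?_⟩
  · rw [hC (fun z x y => ‖HH τ K s z x y‖ₑ ^ p) hm1 (by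
      intro a x y z ha
      exact enorm_HH_hom τ K s p hp a x y z ha)]
    congr 1
    simp only [chart_weight τ K s p hp]
    exact plane_lint _ ((meas_eS τ K s).enorm.pow_const _)
  · rw [hC (fun z x y => if cone z x y then ‖HH τ K s z x y‖ₑ ^ p else 0)
      (Measurable.ite hcm hm1 measurable_const) (by
      intro a x y z ha
      simp only [cone_hom a x y z ha]
      by_cases h : cone x y z
      · simp only [h, if_true]
        exact enorm_HH_hom τ K s p hp a x y z ha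
      · simp only [h, if_false, mul_zero])]
    congr 1
    rw [← lintegral_indicator meas_C1, ← plane_lint _
      (((meas_eS τ K s).enorm.pow_const _).indicator meas_C1)]
    apply lintegral_congr
    intro x
    apply lintegral_congr
    intro y
    have hiff : cone 1 x y ↔ (x, y) ∈ C1 := by
      unfold cone C1
      simp only [mem_ofPred_eq, one_pow]
    by_cases h : cone 1 x y
    · rw [if_pos h, indicator_of_mem (hiff.1 h), chart_weight τ K s p hp]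
    · rw [if_neg h, indicator_of_notMem (fun h' => h (hiff.2 h')), zero_mul, mul_zero]
  · rw [hC (fun z x y => ENNReal.ofReal ((z ^ 2 + x ^ 2 + y ^ 2) ^ ((ll K : ℝ) * p)))
      (by fun_prop) (by
      intro a x y z ha
      have ha' : 0 < |a| := abs_pos.2 ha
      rw [← ENNReal.ofReal_mul (by positivity)]
      congr 1
      have h1 : (a * x) ^ 2 + (a * y) ^ 2 + (a * z) ^ 2 = |a| ^ 2 * (x ^ 2 + y ^ 2 + z ^ 2) := by
        rw [sq_abs]
        ring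
      rw [h1, Real.mul_rpow (by positivity) (by positivity), ← Real.rpow_natCast |a| 2,
        ← Real.rpow_mul ha'.le]
      congr 2
      push_cast
      ring)]
    congr 1
    have h2 := plane_lint (fun _ => 1) measurable_const
    simp only [mul_one, lintegral_const, one_mul] at h2
    rw [← h2]
    apply lintegral_congr
    intro x
    apply lintegral_congr
    intro y
    have h3 : (0 : ℝ) < 1 + x ^ 2 + y ^ 2 := by positivity
    rw [← ENNReal.ofReal_mul (by positivity)]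
    unfold wt
    simp only [one_pow]
    rw [← Real.rpow_add h3]
    congr 2
    ring

end Pool.Agent.Lib.MP_af75b4_an
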