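import Pool.Agent.Lib.MP_af75b4_an.Lap
import Pool.Agent.Lib.MP_af75b4_an.Ratio

set_option autoImplicit false

open MeasureTheory Set Filter Topology InnerProductSpace

namespace Pool.Agent.Lib.MP_af75b4_an

/-- coordinate form with complex values -/
noncomputable def cc (d : ℕ) (i : Fin (d + 2 + 1)) : Eu (d + 2) →L[ℝ] ℂ :=
  Complex.ofRealCLM.comp (EuclideanSpace.proj i)

lemma cc_apply (d : ℕ) (i : Fin (d + 2 + 1)) (x : Eu (d + 2)) : cc d i x = (x i : ℂ) := rfl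

/-- the isotropic form as a continuous linear map -/
noncomputable def LL (d : ℕ) (A B : ℝ) : Eu (d + 2) →L[ℝ] ℂ :=
  (((1 + A ^ 2) / (√(1 + A ^ 2) * √(1 + A ^ 2 + B ^ 2)) : ℝ) * Complex.I : ℂ) • cc d 0 +
  ((1 / √(1 + A ^ 2) : ℝ) + (-(A * B) / (√(1 + A ^ 2) * √(1 + A ^ 2 + B ^ 2)) : ℝ) * Complex.I : ℂ) • cc d 1 +
  ((A / √(1 + A ^ 2) : ℝ) + (B / (√(1 + A ^ 2) * √(1 + A ^ 2 + B ^ 2)) : ℝ) * Complex.I : ℂ) • cc d 2

lemma LL_apply (d : ℕ) (A B : ℝ) (x : Eu (d + 2)) : LL d A B x = Lf A B (x 0) (x 1) (x 2) := by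
  unfold LL Lf
  simp only [_root_.add_apply, _root_.smul_apply, cc_apply, smul_eq_mul]
  push_cast
  ring

lemma LL_iso (d : ℕ) (A B : ℝ) :
    ∑ i, (LL d A B (EuclideanSpace.basisFun (Fin (d + 2 + 1)) ℝ i)) ^ 2 = 0 := by
  rw [Fin.sum_univ_succ, Fin.sum_univ_succ, Fin.sum_univ_succ]
  have h1 : (0 : ℝ) < 1 + A ^ 2 := by positivity
  have h2 : (0 : ℝ) < 1 + A ^ 2 + B ^ 2 := by positivity
  have e1 : (Fin.succ 0 : Fin (d + 2 + 1)) = 1 := rfl
  have e2 : (Fin.succ (Fin.succ 0) : Fin (d + 2 + 1)) = 2 := rfl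
  have n10 : (1 : Fin (d + 2 + 1)) ≠ 0 := by
    intro h
    have := congrArg Fin.val h
    simp at this
  have n20 : (2 : Fin (d + 2 + 1)) ≠ 0 := by
    intro h
    have h3 := congrArg Fin.val h
    have h4 : ((2 : Fin (d + 3)) : ℕ) = 2 := Fin.val_two
    have h5 : ((2 : Fin (d + 3)) : ℕ) = 0 := h3
    omega
  have n21 : (2 : Fin (d + 2 + 1)) ≠ 1 := by
    intro h
    have h3 := congrArg Fin.val h
    have h4 : ((2 : Fin (d + 3)) : ℕ) = 2 := Fin.val_two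
    have h5 : ((2 : Fin (d + 3)) : ℕ) = 1 := h3
    omega
  have hrest : ∀ i : Fin d, LL d A B (EuclideanSpace.basisFun (Fin (d + 2 + 1)) ℝ i.succ.succ.succ) = 0 := by
    intro i
    rw [LL_apply]
    have k0 : (0 : Fin (d + 2 + 1)) ≠ i.succ.succ.succ := (Fin.succ_ne_zero _).symm
    have k1 : (1 : Fin (d + 2 + 1)) ≠ i.succ.succ.succ := by
      rw [← e1]
      intro h
      exact (Fin.succ_ne_zero _).symm (Fin.succ_injective _ h)
    have k2 : (2 : Fin (d + 2 + 1)) ≠ i.succ.succ.succ := by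
      rw [← e2]
      intro h
      exact (Fin.succ_ne_zero _).symm (Fin.succ_injective _ (Fin.succ_injective _ h))
    simp only [EuclideanSpace.basisFun_apply, PiLp.single_apply, k0, k1, k2, if_false]
    unfold Lf
    simp
  simp only [hrest, e1, e2]
  simp only [LL_apply, EuclideanSpace.basisFun_apply, PiLp.single_apply, n10, n20, n21,
    n10.symm, n20.symm, n21.symm, if_true, if_false]
  unfold Lf
  have s1 : √(1 + A ^ 2) ^ 2 = 1 + A ^ 2 := Real.sq_sqrt h1.le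
  have s2 : √(1 + A ^ 2 + B ^ 2) ^ 2 = 1 + A ^ 2 + B ^ 2 := Real.sq_sqrt h2.le
  have p1 : (0 : ℝ) < √(1 + A ^ 2) := Real.sqrt_pos.2 h1
  have p2 : (0 : ℝ) < √(1 + A ^ 2 + B ^ 2) := Real.sqrt_pos.2 h2
  set a := √(1 + A ^ 2) with ha
  set b := √(1 + A ^ 2 + B ^ 2) with hb
  have hac : (a : ℂ) ≠ 0 := by
    rw [Complex.ofReal_ne_zero]
    exact p1.ne'
  have hbc : (b : ℂ) ≠ 0 := by
    rw [Complex.ofReal_ne_zero]
    exact p2.ne'
  have t2 : (b : ℂ) ^ 2 = 1 + (A : ℂ) ^ 2 + (B : ℂ) ^ 2 := by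
    have := congrArg (fun r : ℝ => (r : ℂ)) s2
    push_cast at this
    exact this
  have key : ∀ (x y z u v : ℂ), u ≠ 0 → v ≠ 0 → v ^ 2 = 1 + x ^ 2 + y ^ 2 → z ^ 2 = -1 →
      ((1 + x ^ 2) / (u * v) * z) ^ 2 + ((1 / u + -(x * y) / (u * v) * z) ^ 2 +
        (x / u + y / (u * v) * z) ^ 2) = 0 := by
    intro x y z u v hu hv h3 h4
    field_simp
    linear_combination ((1 + x ^ 2) ^ 2 + x ^ 2 * y ^ 2 + y ^ 2) * h4 + (1 + x ^ 2) * h3
  have := key A B Complex.I a b hac hbc t2 Complex.I_sq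
  have hz : ∑ i : Fin d, (0 : ℂ) ^ 2 = 0 := by simp
  rw [hz]
  refine Eq.trans ?_ this
  push_cast
  ring

/-- The frequency. -/
noncomputable def freq (d K : ℕ) : ℝ := √(2 * (ll K : ℝ) * (2 * (ll K : ℝ) + (d + 2 : ℕ) - 1))

lemma ll_ge (K : ℕ) : (1 : ℝ) ≤ ll K := by
  have : 1 ≤ ll K := by
    unfold ll
    exact Nat.one_le_iff_ne_zero.2 (by positivity)
  exact_mod_cast this

lemma freq_ge (d K : ℕ) : 1 ≤ freq d K := by
  unfold freq
  rw [Real.one_le_sqrt]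
  have := ll_ge K
  push_cast
  nlinarith [Nat.cast_nonneg (α := ℝ) d]

lemma freq_sq (d K : ℕ) : freq d K ^ 2 = 2 * (ll K : ℝ) * (2 * (ll K : ℝ) + (d + 2 : ℕ) - 1) := by
  unfold freq
  apply Real.sq_sqrt
  have := ll_ge K
  push_cast
  nlinarith [Nat.cast_nonneg (α := ℝ) d]

lemma isEig (d : ℕ) (τ : ℝ) (K : ℕ) (s : ℕ → ℂ) : IsEigenfunction (freq d K) (eH d τ K s) := by
  refine ⟨fun x => ∑ a ∈ Finset.range (2 ^ K), TT (ll K) (s a) (LL d (cA K a) (cB τ K a)) x,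
    ?_, ?_, ?_, ?_⟩
  · intro x
    unfold eH HH
    apply Finset.sum_congr rfl
    intro a _
    have hx : ‖(x : Eu (d + 2))‖ = 1 := by simp
    unfold TT beam
    rw [hx, LL_apply]
    simp
  · intro r x hr _
    apply Finset.sum_congr rfl
    intro a _
    exact TT_hom _ _ _ r x hr
  · intro x hx
    apply ContDiffAt.contDiffWithinAt
    apply ContDiffAt.sum
    intro a _
    exact contDiffAt_TT _ _ _ _ hx _
  · intro x
    have hx : ‖(x : Eu (d + 2))‖ = 1 := by simp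
    rw [lap_sum (ll K) (Finset.range (2 ^ K)) s (fun a => LL d (cA K a) (cB τ K a))
      (fun a => LL_iso d _ _) x hx]
    congr 1
    have h := congrArg (fun r : ℝ => (r : ℂ)) (freq_sq d K)
    simp only [Complex.ofReal_pow] at h
    rw [h]
    push_cast
    ring

end Pool.Agent.Lib.MP_af75b4_an
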