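import Pool.Agent.Lib.MP_af75b4_an.Defs

set_option autoImplicit false

open MeasureTheory Set Filter Topology
open scoped Pointwise

namespace Pool.Agent.Lib.MP_af75b4_an

variable {m : ℕ}

/-- action of a linear isometry on the sphere -/
noncomputable def act (g : Eu m ≃ₗᵢ[ℝ] Eu m) (x : Sph m) : Sph m :=
  ⟨g x, by rw [mem_sphere_zero_iff_norm, g.norm_map]; simp⟩

lemma act_coe (g : Eu m ≃ₗᵢ[ℝ] Eu m) (x : Sph m) : ((act g x : Sph m) : Eu m) = g x := rfl

lemma cont_act (g : Eu m ≃ₗᵢ[ℝ] Eu m) : Continuous (act g) := by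
  apply Continuous.subtype_mk
  exact g.continuous.comp continuous_subtype_val

/-- invariance of the volume -/
lemma vol_act (g : Eu m ≃ₗᵢ[ℝ] Eu m) (S : Set (Sph m)) (hS : MeasurableSet S) :
    vol m (act g ⁻¹' S) = vol m S := by
  have hS' : MeasurableSet (act g ⁻¹' S) := (cont_act g).measurable hS
  unfold vol
  rw [Measure.toSphere_apply' _ hS, Measure.toSphere_apply' _ hS']
  congr 1
  have h1 : Ioo (0 : ℝ) 1 • ((↑) '' (act g ⁻¹' S) : Set (Eu m))
      = g ⁻¹' (Ioo (0 : ℝ) 1 • ((↑) '' S : Set (Eu m))) := by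
    ext x
    constructor
    · rintro ⟨r, hr, y, ⟨z, hz, rfl⟩, rfl⟩
      refine ⟨r, hr, g z, ⟨act g z, hz, rfl⟩, ?_⟩
      simp
    · rintro ⟨r, hr, y, ⟨z, hz, rfl⟩, hx⟩
      refine ⟨r, hr, g.symm z, ⟨⟨g.symm z, by rw [mem_sphere_zero_iff_norm, g.symm.norm_map]; simp⟩, ?_, rfl⟩, ?_⟩
      · have : act g ⟨g.symm z, by rw [mem_sphere_zero_iff_norm, g.symm.norm_map]; simp⟩ = z := by
          apply Subtype.ext
          simp [act_coe]
        rw [mem_preimage, this]
        exact hz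
      · simp only at hx ⊢
        have := congrArg g.symm hx
        simpa using this
  rw [h1]
  exact g.measurePreserving.measure_preimage_emb g.toHomeomorph.measurableEmbedding _

/-- quarter turn in the plane of two orthonormal vectors -/
noncomputable def turnL (a b : Eu m) : Eu m →ₗ[ℝ] Eu m where
  toFun x := x + (inner ℝ a x : ℝ) • (b - a) - (inner ℝ b x : ℝ) • (a + b)
  map_add' x y := by
    rw [inner_add_right, inner_add_right, add_smul, add_smul]
    abel
  map_smul' r x := by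
    simp only [inner_smul_right, RingHom.id_apply, smul_sub, smul_add, mul_smul]

lemma turnL_norm (a b : Eu m) (ha : ‖a‖ = 1) (hb : ‖b‖ = 1) (hab : inner ℝ a b = 0) (x : Eu m) :
    ‖turnL a b x‖ = ‖x‖ := by
  have h1 : ‖turnL a b x‖ ^ 2 = ‖x‖ ^ 2 := by
    have e1 : turnL a b x = x + (inner ℝ a x : ℝ) • (b - a) - (inner ℝ b x : ℝ) • (a + b) := rfl
    have haa : inner ℝ a a = 1 := by rw [real_inner_self_eq_norm_sq, ha]; norm_num
    have hbb : inner ℝ b b = 1 := by rw [real_inner_self_eq_norm_sq, hb]; norm_num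
    have hba : inner ℝ b a = 0 := by rw [real_inner_comm]; exact hab
    rw [← real_inner_self_eq_norm_sq, ← real_inner_self_eq_norm_sq, e1]
    simp only [inner_add_left, inner_add_right, inner_sub_left, inner_sub_right, inner_smul_left,
      inner_smul_right, haa, hbb, hab, hba]
    have hax : inner ℝ x a = inner ℝ a x := real_inner_comm _ _
    have hbx : inner ℝ x b = inner ℝ b x := real_inner_comm _ _
    rw [hax, hbx]
    simp only [conj_trivial]
    ring
  have h2 := norm_nonneg (turnL a b x)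
  have h3 := norm_nonneg x
  nlinarith [sq_nonneg (‖turnL a b x‖ - ‖x‖), sq_nonneg (‖turnL a b x‖ + ‖x‖)]

/-- quarter turn as an isometry -/
noncomputable def turn (a b : Eu m) (ha : ‖a‖ = 1) (hb : ‖b‖ = 1) (hab : inner ℝ a b = 0) :
    Eu m ≃ₗᵢ[ℝ] Eu m :=
  LinearIsometry.toLinearIsometryEquiv ⟨turnL a b, turnL_norm a b ha hb hab⟩ rfl

lemma turn_apply (a b : Eu m) (ha : ‖a‖ = 1) (hb : ‖b‖ = 1) (hab : inner ℝ a b = 0) (x : Eu m) :
    turn a b ha hb hab x = x + (inner ℝ a x : ℝ) • (b - a) - (inner ℝ b x : ℝ) • (a + b) := rfl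

lemma gdist_nonneg (x y : Sph m) : 0 ≤ gdist x y := Real.arccos_nonneg _

lemma mem_tube (γ : Set (Sph m)) (hγ : γ.Nonempty) (R : ℝ) (x : Sph m) :
    x ∈ tube γ R ↔ ∃ y ∈ γ, gdist x y < R := by
  unfold tube
  rw [mem_ofPred_eq]
  constructor
  · intro h
    obtain ⟨_, ⟨y, hy, rfl⟩, hlt⟩ := exists_lt_of_csInf_lt (hγ.image _) h
    exact ⟨y, hy, hlt⟩
  · rintro ⟨y, hy, hlt⟩
    refine lt_of_le_of_lt (csInf_le ?_ ⟨y, hy, rfl⟩) hlt
    refine ⟨0, ?_⟩
    rintro _ ⟨z, _, rfl⟩
    exact gdist_nonneg _ _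

lemma isOpen_tube (γ : Set (Sph m)) (hγ : γ.Nonempty) (R : ℝ) : IsOpen (tube γ R) := by
  have h : tube γ R = ⋃ y ∈ γ, {x | gdist x y < R} := by
    ext x
    rw [mem_tube γ hγ]
    simp
  rw [h]
  apply isOpen_biUnion
  intro y _
  apply isOpen_lt _ continuous_const
  unfold gdist
  exact Real.continuous_arccos.comp (by fun_prop)

lemma gdist_act (g : Eu m ≃ₗᵢ[ℝ] Eu m) (x y : Sph m) : gdist (act g x) (act g y) = gdist x y := by
  unfold gdist
  rw [act_coe, act_coe, g.inner_map_map]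

/-- geometric core -/
lemma key_geom (a b x : Eu m) (ha : ‖a‖ = 1) (hb : ‖b‖ = 1) (hab : inner ℝ a b = 0)
    (hx : ‖x‖ = 1) (R : ℝ) (hR : R ≤ 1 / 25) (y : Eu m) (hy1 : ‖y‖ = 1)
    (hy : y = (inner ℝ a y : ℝ) • a + (inner ℝ b y : ℝ) • b)
    (hd : Real.arccos (inner ℝ x y) < R) (η : Eu m) (hη : ‖η‖ = 1) :
    |inner ℝ η x| ≤ 3 / 4 ∨ |inner ℝ η (turn a b ha hb hab x)| ≤ 3 / 4 := by
  have haa : inner ℝ a a = 1 := by rw [real_inner_self_eq_norm_sq, ha]; norm_num
  have hbb : inner ℝ b b = 1 := by rw [real_inner_self_eq_norm_sq, hb]; norm_num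
  have hxx : inner ℝ x x = 1 := by rw [real_inner_self_eq_norm_sq, hx]; norm_num
  have hyy : inner ℝ y y = 1 := by rw [real_inner_self_eq_norm_sq, hy1]; norm_num
  have hηη : inner ℝ η η = 1 := by rw [real_inner_self_eq_norm_sq, hη]; norm_num
  have hba : inner ℝ b a = 0 := by rw [real_inner_comm]; exact hab
  set α : ℝ := inner ℝ a x with hα
  set β : ℝ := inner ℝ b x with hβ
  set α' : ℝ := inner ℝ a y with hα'
  set β' : ℝ := inner ℝ b y with hβ'
  set e : ℝ := inner ℝ η a with he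
  set f : ℝ := inner ℝ η b with hf
  have hxa : inner ℝ x a = α := real_inner_comm _ _
  have hxb : inner ℝ x b = β := real_inner_comm _ _
  have hya : inner ℝ y a = α' := real_inner_comm _ _
  have hyb : inner ℝ y b = β' := real_inner_comm _ _
  have haη : inner ℝ a η = e := real_inner_comm _ _
  have hbη : inner ℝ b η = f := real_inner_comm _ _
  -- the inner product of x and y
  have h1 : inner ℝ x y = α' * α + β' * β := by
    rw [hy, inner_add_right, inner_smul_right, inner_smul_right, hxa, hxb]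
  have h2 : α' ^ 2 + β' ^ 2 = 1 := by
    have : inner ℝ y y = α' * α' + β' * β' := by
      conv_lhs => rw [hy]
      simp only [inner_add_left, inner_smul_left, inner_add_right, inner_smul_right, conj_trivial,
        haa, hab, hba, hbb]
      ring
    rw [hyy] at this
    linarith
  have hR0 : 0 < R := lt_of_le_of_lt (Real.arccos_nonneg _) hd
  have h3 : 1 - R ^ 2 / 2 ≤ inner ℝ x y := by
    have h4 : Real.cos R ≤ Real.cos (Real.arccos (inner ℝ x y)) := by
      apply Real.cos_le_cos_of_nonneg_of_le_pi (Real.arccos_nonneg _) _ hd.le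
      linarith [Real.pi_gt_three]
    have h5 : |inner ℝ x y| ≤ 1 := by
      have := abs_real_inner_le_norm x y
      rwa [hx, hy1, one_mul] at this
    rw [Real.cos_arccos (abs_le.1 h5).1 (abs_le.1 h5).2] at h4
    have h6 := Real.one_sub_sq_div_two_le_cos (x := R)
    linarith
  have h4 : 1 - R ^ 2 ≤ α ^ 2 + β ^ 2 := by
    have h5 : (inner ℝ x y) ^ 2 ≤ α ^ 2 + β ^ 2 := by
      rw [h1]
      nlinarith [sq_nonneg (α' * β - β' * α)]
    have h6 : (1 - R ^ 2 / 2) ^ 2 ≤ (inner ℝ x y) ^ 2 := by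
      apply pow_le_pow_left₀ _ h3
      nlinarith
    nlinarith [sq_nonneg (R ^ 2)]
  -- the remainder
  set w : Eu m := x - α • a - β • b with hw
  have hww : ‖w‖ ^ 2 = 1 - α ^ 2 - β ^ 2 := by
    rw [← real_inner_self_eq_norm_sq, hw]
    simp only [inner_sub_left, inner_sub_right, inner_smul_left, inner_smul_right, haa, hbb, hab,
      hba, hxx, hxa, hxb, conj_trivial, ← hα, ← hβ]
    ring
  have hwn : ‖w‖ ≤ 1 / 25 := by
    have h7 : ‖w‖ ^ 2 ≤ (1 / 25) ^ 2 := by
      rw [hww]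
      nlinarith
    exact (pow_le_pow_iff_left₀ (norm_nonneg _) (by norm_num) (by norm_num)).1 h7
  have hηw : |inner ℝ η w| ≤ 1 / 25 := by
    have := abs_real_inner_le_norm η w
    rw [hη, one_mul] at this
    linarith
  have hab1 : α ^ 2 + β ^ 2 ≤ 1 := by nlinarith [sq_nonneg ‖w‖]
  -- Bessel
  have hbes : e ^ 2 + f ^ 2 ≤ 1 := by
    have h8 : 0 ≤ ‖η - e • a - f • b‖ ^ 2 := by positivity
    rw [← real_inner_self_eq_norm_sq] at h8
    simp only [inner_sub_left, inner_sub_right, inner_smul_left, inner_smul_right, haa, hbb, hab,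
      hba, hηη, haη, hbη, conj_trivial, ← he, ← hf] at h8
    linarith
  have e1 : inner ℝ η x = α * e + β * f + inner ℝ η w := by
    rw [hw]
    simp only [inner_sub_right, inner_smul_right, ← he, ← hf]
    ring
  have e2 : inner ℝ η (turn a b ha hb hab x) = -β * e + α * f + inner ℝ η w := by
    rw [turn_apply, hw]
    simp only [inner_sub_right, inner_add_right, inner_smul_right, ← he, ← hf, ← hα, ← hβ]
    ring
  by_contra hcon
  push Not at hcon
  obtain ⟨c1, c2⟩ := hcon
  rw [e1] at c1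
  rw [e2] at c2
  have d1 : 71 / 100 < |α * e + β * f| := by
    have := abs_add_le (α * e + β * f) (inner ℝ η w)
    linarith
  have d2 : 71 / 100 < |-β * e + α * f| := by
    have := abs_add_le (-β * e + α * f) (inner ℝ η w)
    linarith
  have d3 : (71 / 100) ^ 2 < (α * e + β * f) ^ 2 := by
    rw [← sq_abs (α * e + β * f)]
    gcongr
  have d4 : (71 / 100) ^ 2 < (-β * e + α * f) ^ 2 := by
    rw [← sq_abs (-β * e + α * f)]
    gcongr
  have d5 : (α * e + β * f) ^ 2 + (-β * e + α * f) ^ 2 = (α ^ 2 + β ^ 2) * (e ^ 2 + f ^ 2) := by ring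
  have d6 : (α ^ 2 + β ^ 2) * (e ^ 2 + f ^ 2) ≤ 1 * 1 := by
    apply mul_le_mul hab1 hbes (by positivity) (by norm_num)
  norm_num at d3 d4 d6
  linarith

/-- The band satisfies the tubular condition. -/
theorem tgcc_band (j : Fin (m + 1)) :
    TGCC (fun _ : ℝ => {u : Sph m | |(u : Eu m) j| ≤ 3 / 4}) := by
  refine ⟨1 / 25, by norm_num, 1 / 2, by norm_num, ?_⟩
  intro V hV lam hlam
  set R : ℝ := 1 / 25 * lam ^ (-(1 / 2) : ℝ) with hR
  have hR0 : 0 < R := by
    rw [hR]
    have : 0 < lam := by linarith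
    positivity
  have hR1 : R ≤ 1 / 25 := by
    have : lam ^ (-(1 / 2) : ℝ) ≤ 1 := Real.rpow_le_one_of_one_le_of_nonpos hlam (by norm_num)
    rw [hR]
    linarith
  set v : OrthonormalBasis (Fin 2) ℝ V := (stdOrthonormalBasis ℝ V).reindex (finCongr hV) with hv
  set a : Eu m := ((v 0 : V) : Eu m) with ha'
  set b : Eu m := ((v 1 : V) : Eu m) with hb'
  have ha : ‖a‖ = 1 := v.orthonormal.1 0
  have hb : ‖b‖ = 1 := v.orthonormal.1 1
  have hab : inner ℝ a b = 0 := v.orthonormal.2 (show (0 : Fin 2) ≠ 1 by decide)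
  have hspan : ∀ y ∈ V, y = (inner ℝ a y : ℝ) • a + (inner ℝ b y : ℝ) • b := by
    intro y hy
    have h1 := v.sum_repr' ⟨y, hy⟩
    rw [Fin.sum_univ_two] at h1
    have h2 := congrArg (fun z : V => (z : Eu m)) h1
    simp only [Submodule.coe_add, Submodule.coe_smul, Submodule.coe_inner] at h2
    exact h2.symm
  have haV : a ∈ V := (v 0).2
  have hbV : b ∈ V := (v 1).2
  set g := turn a b ha hb hab with hg
  have hgV : ∀ y ∈ V, g y ∈ V := by
    intro y hy
    rw [hg, turn_apply]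
    exact V.sub_mem (V.add_mem hy (V.smul_mem _ (V.sub_mem hbV haV))) (V.smul_mem _ (V.add_mem haV hbV))
  have hne : (circ V : Set (Sph m)).Nonempty := ⟨⟨a, by simp [ha]⟩, haV⟩
  set T := tube (circ V) R with hT
  have hTo : IsOpen T := isOpen_tube _ hne _
  set A : Set (Sph m) := {u : Sph m | |(u : Eu m) j| ≤ 3 / 4} with hA
  have hAm : MeasurableSet A := by
    apply measurableSet_le _ measurable_const
    have h : Continuous fun u : Sph m => |(u : Eu m) j| := by fun_prop
    exact h.measurable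
  have hTg : ∀ x ∈ T, act g x ∈ T := by
    intro x hx
    rw [hT, mem_tube _ hne] at hx ⊢
    obtain ⟨y, hy, hlt⟩ := hx
    exact ⟨act g y, hgV _ hy, by rw [gdist_act]; exact hlt⟩
  have hcov : T ⊆ (A ∩ T) ∪ (act g ⁻¹' (A ∩ T)) := by
    intro x hx
    have hx' := hx
    rw [hT, mem_tube _ hne] at hx'
    obtain ⟨y, hy, hlt⟩ := hx'
    have h1 := key_geom a b (x : Eu m) ha hb hab (by simp) R hR1 (y : Eu m) (by simp)
      (hspan _ hy) hlt (EuclideanSpace.basisFun (Fin (m + 1)) ℝ j) (by simp)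
    rw [EuclideanSpace.basisFun_inner, EuclideanSpace.basisFun_inner] at h1
    rcases h1 with h1 | h1
    · exact Or.inl ⟨h1, hx⟩
    · exact Or.inr ⟨h1, hTg x hx⟩
  have hm : vol m T ≤ 2 * vol m (A ∩ T) := by
    calc vol m T ≤ vol m ((A ∩ T) ∪ (act g ⁻¹' (A ∩ T))) := measure_mono hcov
      _ ≤ vol m (A ∩ T) + vol m (act g ⁻¹' (A ∩ T)) := measure_union_le _ _
      _ = vol m (A ∩ T) + vol m (A ∩ T) := by rw [vol_act g _ (hAm.inter hTo.measurableSet)]
      _ = _ := by rw [two_mul]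
  calc ENNReal.ofReal (1 / 2) * vol m T ≤ ENNReal.ofReal (1 / 2) * (2 * vol m (A ∩ T)) := by gcongr
    _ = vol m (A ∩ T) := by
      rw [← mul_assoc]
      have : ENNReal.ofReal (1 / 2) * 2 = 1 := by
        have h2 : (2 : ENNReal) = ENNReal.ofReal 2 := by simp
        rw [h2, ← ENNReal.ofReal_mul (by norm_num)]
        norm_num
      rw [this, one_mul]

end Pool.Agent.Lib.MP_af75b4_an
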